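import Mathlib

/-!
The algebraic form of the statement that a small `C²` perturbation of the complex parabola has no
local maxima of height functions.
-/

namespace Pool.Agent.Lib.MP_6a9e1f_gt

open ComplexConjugate

lemma abs_re_conj_mul_le (a b : ℂ) : |(conj a * b).re| ≤ ‖a‖ * ‖b‖ := by
  calc |(conj a * b).re| ≤ ‖conj a * b‖ := Complex.abs_re_le_norm _
    _ = ‖a‖ * ‖b‖ := by rw [norm_mul, Complex.norm_conj]

/-- If the two-jet of `(F0, F1, F2)` at a point is close to the one of `(1, w, w ^ 2)` then no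
nontrivial combination `c * F0 + Re (conj α * F1) + Re (conj γ * F2)` can vanish at the point
together with its first derivative and have a nonpositive second derivative. -/
lemma no_max_alg {α γ : ℂ} {c F0 : ℝ} {F1 F2 : ℂ} {D0 Q0 : ℂ → ℝ} {D1 D2 Q1 Q2 : ℂ → ℂ}
    (hF0 : 1 ≤ F0) (hF1 : ‖F1‖ ≤ 21 / 10) (hF2 : ‖F2‖ ≤ 41 / 10)
    (hD0 : ∀ v, |D0 v| ≤ 1 / 100 * ‖v‖) (hD1 : ∀ v, ‖D1 v - v‖ ≤ 2 / 100 * ‖v‖)
    (hD2 : ∀ v, ‖D2 v‖ ≤ 41 / 10 * ‖v‖)
    (hQ0 : ∀ v, |Q0 v| ≤ 1 / 100 * ‖v‖ ^ 2) (hQ1 : ∀ v, ‖Q1 v‖ ≤ 2 / 100 * ‖v‖ ^ 2)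
    (hQ2 : ∀ v, ‖Q2 v - 2 * v ^ 2‖ ≤ 3 / 100 * ‖v‖ ^ 2)
    (h0 : c * F0 + (conj α * F1).re + (conj γ * F2).re = 0)
    (h1 : ∀ v, c * D0 v + (conj α * D1 v).re + (conj γ * D2 v).re = 0)
    (h2 : ∀ v, c * Q0 v + (conj α * Q1 v).re + (conj γ * Q2 v).re ≤ 0) : α = 0 ∧ γ = 0 := by
  set A := ‖α‖ with hA
  set G := ‖γ‖ with hG
  set C := |c| with hC
  have hA0 : 0 ≤ A := norm_nonneg _
  have hG0 : 0 ≤ G := norm_nonneg _
  have hC0 : 0 ≤ C := abs_nonneg _
  -- bound of c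
  have e0 : C ≤ 21 / 10 * A + 41 / 10 * G := by
    have i1 := abs_re_conj_mul_le α F1
    have i2 := abs_re_conj_mul_le γ F2
    have i3 : ‖α‖ * ‖F1‖ ≤ A * (21 / 10) := mul_le_mul_of_nonneg_left hF1 hA0
    have i4 : ‖γ‖ * ‖F2‖ ≤ G * (41 / 10) := mul_le_mul_of_nonneg_left hF2 hG0
    have i5 : |c * F0| ≤ 21 / 10 * A + 41 / 10 * G := by
      have : c * F0 = -((conj α * F1).re + (conj γ * F2).re) := by linarith
      rw [this, abs_neg]
      calc |(conj α * F1).re + (conj γ * F2).re| ≤ |(conj α * F1).re| + |(conj γ * F2).re| :=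
            abs_add_le _ _
        _ ≤ _ := by linarith
    rw [abs_mul, abs_of_nonneg (by linarith : (0 : ℝ) ≤ F0)] at i5
    have i6 : C * 1 ≤ C * F0 := mul_le_mul_of_nonneg_left hF0 hC0
    linarith
  -- bound of α
  have e1 : (98 / 100) * A ≤ 1 / 100 * C + 41 / 10 * G := by
    by_cases hα : A = 0
    · rw [hα]; nlinarith
    · have hApos : 0 < A := lt_of_le_of_ne hA0 (Ne.symm hα)
      have i0 := h1 α
      have i1 : (conj α * D1 α).re = A ^ 2 + (conj α * (D1 α - α)).re := by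
        have : conj α * D1 α = conj α * α + conj α * (D1 α - α) := by ring
        rw [this, Complex.add_re, mul_comm (conj α) α, Complex.mul_conj, Complex.ofReal_re,
          Complex.normSq_eq_norm_sq]
      have i2 := abs_re_conj_mul_le α (D1 α - α)
      have i3 : ‖α‖ * ‖D1 α - α‖ ≤ A * (2 / 100 * A) := mul_le_mul_of_nonneg_left (hD1 α) hA0
      have i4 := abs_re_conj_mul_le γ (D2 α)
      have i5 : ‖γ‖ * ‖D2 α‖ ≤ G * (41 / 10 * A) := mul_le_mul_of_nonneg_left (hD2 α) hG0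
      have i6 : |c * D0 α| ≤ C * (1 / 100 * A) := by
        rw [abs_mul]; exact mul_le_mul_of_nonneg_left (hD0 α) hC0
      have j2 := neg_le_of_abs_le (i2.trans i3)
      have j4 := neg_le_of_abs_le (i4.trans i5)
      have j6 := neg_le_of_abs_le i6
      have : A * ((98 / 100) * A) ≤ A * (1 / 100 * C + 41 / 10 * G) := by
        nlinarith
      exact le_of_mul_le_mul_left this hApos
  have e2 : A ≤ 44 / 10 * G := by linarith
  have e3 : C ≤ 14 * G := by linarith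
  have hγ : γ = 0 := by
    by_contra hγ
    have hGpos : 0 < G := norm_pos_iff.2 hγ
    obtain ⟨v, hv⟩ : ∃ v : ℂ, v ^ 2 = γ := ⟨γ ^ ((1 : ℂ) / 2), by
      rw [← Complex.cpow_nat_mul]; norm_num⟩
    have hvn : ‖v‖ ^ 2 = G := by rw [← norm_pow, hv]
    have i0 := h2 v
    have i1 : (conj γ * Q2 v).re = 2 * G ^ 2 + (conj γ * (Q2 v - 2 * v ^ 2)).re := by
      have : conj γ * Q2 v = 2 * (γ * conj γ) + conj γ * (Q2 v - 2 * v ^ 2) := by
        rw [hv]; ring
      rw [this, Complex.add_re, Complex.mul_conj, Complex.normSq_eq_norm_sq]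
      congr 1
      rw [← Complex.ofReal_ofNat, ← Complex.ofReal_mul, Complex.ofReal_re]
    have i2 := abs_re_conj_mul_le γ (Q2 v - 2 * v ^ 2)
    have i3 : ‖γ‖ * ‖Q2 v - 2 * v ^ 2‖ ≤ G * (3 / 100 * G) := by
      have := hQ2 v
      rw [hvn] at this
      exact mul_le_mul_of_nonneg_left this hG0
    have i4 := abs_re_conj_mul_le α (Q1 v)
    have i5 : ‖α‖ * ‖Q1 v‖ ≤ A * (2 / 100 * G) := by
      have := hQ1 v
      rw [hvn] at this
      exact mul_le_mul_of_nonneg_left this hA0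
    have i6 : |c * Q0 v| ≤ C * (1 / 100 * G) := by
      have := hQ0 v
      rw [hvn] at this
      rw [abs_mul]; exact mul_le_mul_of_nonneg_left this hC0
    have j2 := neg_le_of_abs_le (i2.trans i3)
    have j4 := neg_le_of_abs_le (i4.trans i5)
    have j6 := neg_le_of_abs_le i6
    nlinarith
  refine ⟨?_, hγ⟩
  have : G = 0 := by rw [hG, hγ, norm_zero]
  rw [this] at e2
  exact norm_le_zero_iff.1 (by linarith)

end Pool.Agent.Lib.MP_6a9e1f_gt
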