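import Mathlib
import Pool.Agent.Lib.MP_6a9e1f_gt.Alg

/-!
The projected Veronese surface in the affine coordinates
`(ω, z) ↦ (z ω / (e N), ω ^ 2 / (e ^ 2 N))`, `N = |ω| ^ 2 + z ^ 2`.
-/

namespace Pool.Agent.Lib.MP_6a9e1f_gt

open ComplexConjugate Set

/-- The square of the Euclidean norm on `ℂ × ℝ`. -/
noncomputable def nn (p : ℂ × ℝ) : ℝ := Complex.normSq p.1 + p.2 ^ 2

/-- The projected Veronese surface in affine coordinates, as a homogeneous map of degree `0`. -/
noncomputable def ver (e : ℝ) (p : ℂ × ℝ) : ℂ × ℂ :=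
  ((p.2 : ℂ) * p.1 / ((e * nn p : ℝ) : ℂ), p.1 ^ 2 / ((e ^ 2 * nn p : ℝ) : ℂ))

lemma nn_nonneg (p : ℂ × ℝ) : 0 ≤ nn p := add_nonneg (Complex.normSq_nonneg _) (sq_nonneg _)

lemma nn_pos {p : ℂ × ℝ} (hp : p ≠ 0) : 0 < nn p := by
  rcases (nn_nonneg p).lt_or_eq with h | h
  · exact h
  · exfalso
    apply hp
    unfold nn at h
    have h1 := Complex.normSq_nonneg p.1
    have h2 := sq_nonneg p.2
    have h3 : Complex.normSq p.1 = 0 := by linarith
    have h4 : p.2 ^ 2 = 0 := by linarith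
    rw [Complex.normSq_eq_zero] at h3
    rw [sq_eq_zero_iff] at h4
    exact Prod.ext h3 h4

lemma ne_zero_of_nn {p : ℂ × ℝ} (hp : 0 < nn p) : p ≠ 0 := by
  rintro rfl
  simp [nn] at hp

lemma nn_smul (t : ℝ) (p : ℂ × ℝ) : nn (t • p) = t ^ 2 * nn p := by
  simp only [nn, Prod.smul_fst, Prod.smul_snd, Complex.real_smul, smul_eq_mul, map_mul,
    Complex.normSq_ofReal]
  ring

lemma ver_smul (e : ℝ) {t : ℝ} (ht : t ≠ 0) (p : ℂ × ℝ) : ver e (t • p) = ver e p := by
  have ht' : (t : ℂ) ≠ 0 := Complex.ofReal_ne_zero.2 ht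
  unfold ver
  rw [nn_smul]
  simp only [Prod.smul_fst, Prod.smul_snd, Complex.real_smul, smul_eq_mul]
  push_cast
  apply Prod.ext
  · simp only
    rw [show (t : ℂ) * (p.2 : ℂ) * (t * p.1) = (t : ℂ) ^ 2 * (p.2 * p.1) by ring,
      show (e : ℂ) * ((t : ℂ) ^ 2 * (nn p : ℂ)) = (t : ℂ) ^ 2 * (e * nn p) by ring,
      mul_div_mul_left _ _ (pow_ne_zero 2 ht')]
  · simp only
    rw [show ((t : ℂ) * p.1) ^ 2 = (t : ℂ) ^ 2 * (p.1 ^ 2) by ring,
      show (e : ℂ) ^ 2 * ((t : ℂ) ^ 2 * (nn p : ℂ)) = (t : ℂ) ^ 2 * (e ^ 2 * nn p) by ring,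
      mul_div_mul_left _ _ (pow_ne_zero 2 ht')]

lemma ver_neg (e : ℝ) (p : ℂ × ℝ) : ver e (-p) = ver e p := by
  have := ver_smul e (t := -1) (by norm_num) p
  rwa [neg_one_smul] at this

lemma exists_unit {p : ℂ × ℝ} (hp : p ≠ 0) : ∃ t : ℝ, 0 < t ∧ nn (t • p) = 1 := by
  have h := nn_pos hp
  refine ⟨(Real.sqrt (nn p))⁻¹, by positivity, ?_⟩
  rw [nn_smul, inv_pow, Real.sq_sqrt h.le, inv_mul_cancel₀ h.ne']

/-- Unit vectors with the same image are equal up to sign. -/
lemma ver_inj_unit {e : ℝ} (he : 0 < e) {p q : ℂ × ℝ} (hp : nn p = 1) (hq : nn q = 1)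
    (h : ver e p = ver e q) : q = p ∨ q = -p := by
  have he' : (e : ℂ) ≠ 0 := Complex.ofReal_ne_zero.2 he.ne'
  unfold ver at h
  rw [hp, hq, Prod.mk.injEq] at h
  obtain ⟨h1, h2⟩ := h
  push_cast at h1 h2
  have h1' : (p.2 : ℂ) * p.1 = q.2 * q.1 := by
    field_simp at h1
    exact h1
  have h2' : p.1 ^ 2 = q.1 ^ 2 := by
    field_simp at h2
    exact h2
  by_cases h0 : p.1 = 0
  · have hq0 : q.1 = 0 := by
      rw [h0] at h2'
      simpa using h2'.symm
    have e1 : p.2 ^ 2 = 1 := by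
      unfold nn at hp; rw [h0, map_zero] at hp; linarith
    have e2 : q.2 ^ 2 = 1 := by
      unfold nn at hq; rw [hq0, map_zero] at hq; linarith
    have e3 : q.2 ^ 2 = p.2 ^ 2 := by rw [e1, e2]
    rcases sq_eq_sq_iff_eq_or_eq_neg.1 e3 with h | h
    · left; exact Prod.ext (by rw [h0, hq0]) h
    · right; exact Prod.ext (by simp [h0, hq0]) (by simpa using h)
  · rcases sq_eq_sq_iff_eq_or_eq_neg.1 h2'.symm with h | h
    · left
      rw [h] at h1'
      exact Prod.ext h (by exact_mod_cast (mul_right_cancel₀ h0 h1').symm)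
    · right
      rw [h] at h1'
      have h3 : (p.2 : ℂ) = -q.2 := by
        have : (p.2 : ℂ) * p.1 = (-q.2) * p.1 := by rw [h1']; ring
        exact mul_right_cancel₀ h0 this
      refine Prod.ext (by simpa using h) ?_
      have h4 : p.2 = -q.2 := by exact_mod_cast h3
      simp [h4]

/-- Nonzero vectors with the same image are proportional. -/
lemma ver_inj {e : ℝ} (he : 0 < e) {p q : ℂ × ℝ} (hp : p ≠ 0) (hq : q ≠ 0)
    (h : ver e p = ver e q) : ∃ t : ℝ, t ≠ 0 ∧ q = t • p := by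
  obtain ⟨s, hs, hs1⟩ := exists_unit hp
  obtain ⟨r, hr, hr1⟩ := exists_unit hq
  have h' : ver e (s • p) = ver e (r • q) := by
    rw [ver_smul e hs.ne', ver_smul e hr.ne', h]
  rcases ver_inj_unit he hs1 hr1 h' with h | h
  · refine ⟨r⁻¹ * s, by positivity, ?_⟩
    rw [mul_smul, ← h, smul_smul, inv_mul_cancel₀ hr.ne', one_smul]
  · refine ⟨-(r⁻¹ * s), neg_ne_zero.2 (by positivity), ?_⟩
    rw [neg_smul, mul_smul, ← smul_neg, ← h, smul_smul, inv_mul_cancel₀ hr.ne', one_smul]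

/-- The chart of the projected Veronese surface at the pole. -/
noncomputable def vc (e : ℝ) (w : ℂ) : ℂ × ℝ := ((e : ℂ) * w, 1)

lemma vc_ne_zero (e : ℝ) (w : ℂ) : vc e w ≠ 0 := by
  intro h
  have := congrArg Prod.snd h
  simp [vc] at this

lemma nn_vc (e : ℝ) (w : ℂ) : nn (vc e w) = 1 + e ^ 2 * Complex.normSq w := by
  simp only [nn, vc, map_mul, Complex.normSq_ofReal]; ring

lemma ver_vc {e : ℝ} (he : e ≠ 0) (w : ℂ) : ver e (vc e w) =
    (w / ((1 + e ^ 2 * Complex.normSq w : ℝ) : ℂ), w ^ 2 / ((1 + e ^ 2 * Complex.normSq w : ℝ) : ℂ)) := by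
  have he' : (e : ℂ) ≠ 0 := Complex.ofReal_ne_zero.2 he
  unfold ver
  rw [nn_vc]
  simp only [vc]
  apply Prod.ext
  · simp only [Complex.ofReal_one, one_mul]
    rw [Complex.ofReal_mul, mul_div_mul_left _ _ he']
  · simp only
    rw [Complex.ofReal_mul, mul_pow, Complex.ofReal_pow, mul_div_mul_left _ _ (pow_ne_zero 2 he')]

lemma eq_vc {e : ℝ} (he : 0 < e) {p : ℂ × ℝ} {w : ℂ} (hp : p ≠ 0)
    (h : ver e p = ver e (vc e w)) : p.2 ≠ 0 ∧ p.1 = (e : ℂ) * w * p.2 := by
  obtain ⟨t, ht, htp⟩ := ver_inj he (vc_ne_zero e w) hp h.symm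
  have h1 : p.1 = (t : ℂ) * (e * w) := by rw [htp]; simp [vc]
  have h2 : p.2 = t := by rw [htp]; simp [vc]
  refine ⟨by rw [h2]; exact ht, ?_⟩
  rw [h1, h2]; ring

lemma vc_of_eq {e : ℝ} {p : ℂ × ℝ} {w : ℂ} (h2 : p.2 ≠ 0) (h1 : p.1 = (e : ℂ) * w * p.2) :
    ver e p = ver e (vc e w) := by
  have : p = p.2 • vc e w := by
    apply Prod.ext
    · simp only [vc, Prod.smul_fst, Complex.real_smul]; rw [h1]; ring
    · simp [vc]
  rw [this, ver_smul e h2]

lemma continuousOn_ver (e : ℝ) (he : e ≠ 0) : ContinuousOn (ver e) {p | p ≠ 0} := by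
  have hn : Continuous nn := by
    unfold nn
    exact (Complex.continuous_normSq.comp continuous_fst).add (continuous_snd.pow 2)
  unfold ver
  apply ContinuousOn.prodMk
  · apply ContinuousOn.div
    · fun_prop
    · exact (Complex.continuous_ofReal.comp (continuous_const.mul hn)).continuousOn
    · intro p hp
      have := nn_pos hp
      exact Complex.ofReal_ne_zero.2 (mul_ne_zero he this.ne')
  · apply ContinuousOn.div
    · fun_prop
    · exact (Complex.continuous_ofReal.comp (continuous_const.mul hn)).continuousOn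
    · intro p hp
      have := nn_pos hp
      exact Complex.ofReal_ne_zero.2 (mul_ne_zero (pow_ne_zero 2 he) this.ne')

/-! ### Quadratic forms -/

/-- The quadratic form belonging to an affine function. -/
noncomputable def qf (e c : ℝ) (α γ : ℂ) (p : ℂ × ℝ) : ℝ :=
  c * nn p + (conj α * ((p.2 : ℂ) * p.1 / e)).re + (conj γ * (p.1 ^ 2 / e ^ 2)).re

/-- The polar form. -/
noncomputable def bf (e c : ℝ) (α γ : ℂ) (p y : ℂ × ℝ) : ℝ :=
  2 * c * ((conj p.1 * y.1).re + p.2 * y.2) +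
    (conj α * (((p.2 : ℂ) * y.1 + y.2 * p.1) / e)).re + (conj γ * (2 * (p.1 * y.1) / e ^ 2)).re

lemma qf_add (e c : ℝ) (α γ : ℂ) (p y : ℂ × ℝ) (s t : ℝ) :
    qf e c α γ (s • p + t • y) =
      s ^ 2 * qf e c α γ p + s * t * bf e c α γ p y + t ^ 2 * qf e c α γ y := by
  obtain ⟨p1, p2⟩ := p
  obtain ⟨y1, y2⟩ := y
  have hre : (e : ℂ)⁻¹ = ((e⁻¹ : ℝ) : ℂ) := by push_cast; rfl
  simp only [qf, bf, nn, Prod.smul_mk, Prod.mk_add_mk, smul_eq_mul, Complex.real_smul,
    Complex.normSq_apply, Complex.add_re, Complex.add_im, Complex.mul_re, Complex.mul_im,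
    Complex.ofReal_re, Complex.ofReal_im, Complex.conj_re, Complex.conj_im, div_eq_mul_inv,
    hre, pow_two, Complex.ofReal_add, Complex.ofReal_mul, Complex.re_ofNat,
    Complex.im_ofNat]
  ring

lemma qf_eq (e c : ℝ) (α γ : ℂ) {p : ℂ × ℝ} (hp : p ≠ 0) :
    qf e c α γ p =
      nn p * (c + (conj α * (ver e p).1).re + (conj γ * (ver e p).2).re) := by
  have hn := nn_pos hp
  have hn' : (nn p : ℂ) ≠ 0 := Complex.ofReal_ne_zero.2 hn.ne'
  have e1 : (conj α * ((p.2 : ℂ) * p.1 / e)).re = nn p * (conj α * (ver e p).1).re := by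
    rw [← Complex.re_ofReal_mul]
    congr 1
    unfold ver
    push_cast
    field_simp
  have e2 : (conj γ * (p.1 ^ 2 / e ^ 2)).re = nn p * (conj γ * (ver e p).2).re := by
    rw [← Complex.re_ofReal_mul]
    congr 1
    unfold ver
    push_cast
    field_simp
  unfold qf
  rw [e1, e2]
  ring

lemma quad_nonpos {a b : ℝ} (h : ∀ᶠ t : ℝ in nhds 0, a * t + b * t ^ 2 ≤ 0) : a = 0 ∧ b ≤ 0 := by
  rw [Metric.eventually_nhds_iff] at h
  obtain ⟨δ, hδ, h⟩ := h
  have ha : a = 0 := by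
    by_contra hne
    -- choose `t` with the sign of `a`, small
    set t : ℝ := min (δ / 2) (|a| / (2 * (|b| + 1))) with ht
    have hapos : 0 < |a| := abs_pos.2 hne
    have htpos : 0 < t := by
      apply lt_min <;> positivity
    have htδ : t < δ := lt_of_le_of_lt (min_le_left _ _) (by linarith)
    have hb : |b| * t ≤ |a| / 2 := by
      have h1 : t ≤ |a| / (2 * (|b| + 1)) := min_le_right _ _
      have h2 : |b| * t ≤ (|b| + 1) * (|a| / (2 * (|b| + 1))) :=
        mul_le_mul (by linarith) h1 htpos.le (by positivity)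
      have h3 : (|b| + 1) * (|a| / (2 * (|b| + 1))) = |a| / 2 := by
        have : |b| + 1 ≠ 0 := by positivity
        field_simp
      linarith
    have hb2 : -(|a| / 2) * t ≤ b * t ^ 2 := by
      have h1 := neg_abs_le b
      nlinarith [mul_le_mul_of_nonneg_right hb htpos.le, sq_nonneg t,
        mul_le_mul_of_nonneg_right h1 (sq_nonneg t)]
    rcases lt_or_gt_of_ne hne with ha | ha
    · have h1 := h (y := -t) (by rw [dist_zero_right, norm_neg, Real.norm_of_nonneg htpos.le]; exact htδ)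
      rw [abs_of_neg ha] at hb2
      nlinarith
    · have h1 := h (y := t) (by rw [dist_zero_right, Real.norm_of_nonneg htpos.le]; exact htδ)
      rw [abs_of_pos ha] at hb2
      nlinarith
  refine ⟨ha, ?_⟩
  have h1 := h (y := δ / 2) (by
    rw [dist_zero_right, Real.norm_of_nonneg (by linarith)]; linarith)
  rw [ha] at h1
  have : 0 < (δ / 2) ^ 2 := by positivity
  nlinarith

/-- The first and second order conditions at a local maximum with value `0`. -/
lemma localMax_qf {e c : ℝ} {α γ : ℂ} {p : ℂ × ℝ} (h0 : qf e c α γ p = 0)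
    (h : ∀ᶠ q in nhds p, qf e c α γ q ≤ 0) :
    (∀ y, bf e c α γ p y = 0) ∧ ∀ y, qf e c α γ y ≤ 0 := by
  have key : ∀ y, bf e c α γ p y = 0 ∧ qf e c α γ y ≤ 0 := by
    intro y
    have hcont : Filter.Tendsto (fun t : ℝ => p + t • y) (nhds 0) (nhds p) := by
      have : Filter.Tendsto (fun t : ℝ => p + t • y) (nhds 0) (nhds (p + (0 : ℝ) • y)) :=
        (by fun_prop : Continuous fun t : ℝ => p + t • y).tendsto 0
      simpa using this
    have h1 := hcont.eventually h
    apply quad_nonpos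
    filter_upwards [h1] with t ht
    have h2 := qf_add e c α γ p y 1 t
    rw [one_smul, h0] at h2
    rw [h2] at ht
    linarith
  exact ⟨fun y => (key y).1, fun y => (key y).2⟩

/-- No maximum of a nonconstant affine function in the part `|w| ≤ 2` of the surface. -/
lemma no_max_disc {e c : ℝ} {α γ : ℂ} (he : 0 < e) (he2 : e ^ 2 ≤ 1 / 400) {p : ℂ × ℝ} {w : ℂ}
    (hw : ‖w‖ ≤ 2) (hp2 : p.2 ≠ 0) (hp1 : p.1 = (e : ℂ) * w * p.2) (h0 : qf e c α γ p = 0)
    (h1 : ∀ y, bf e c α γ p y = 0) (h2 : ∀ y, qf e c α γ y ≤ 0) : α = 0 ∧ γ = 0 := by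
  have he' : (e : ℂ) ≠ 0 := Complex.ofReal_ne_zero.2 he.ne'
  have hp : p = p.2 • vc e w := by
    apply Prod.ext
    · simp only [vc, Prod.smul_fst, Complex.real_smul]; rw [hp1]; ring
    · simp [vc]
  have hw2 : Complex.normSq w ≤ 4 := by
    rw [Complex.normSq_eq_norm_sq]; nlinarith [norm_nonneg w]
  apply no_max_alg (c := c) (F0 := 1 + e ^ 2 * Complex.normSq w) (F1 := w) (F2 := w ^ 2)
    (D0 := fun v => 2 * e ^ 2 * (conj w * v).re) (D1 := fun v => v) (D2 := fun v => 2 * (w * v))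
    (Q0 := fun v => 2 * e ^ 2 * Complex.normSq v) (Q1 := fun _ => 0) (Q2 := fun v => 2 * v ^ 2)
  · have := Complex.normSq_nonneg w
    nlinarith [sq_nonneg e]
  · linarith
  · rw [norm_pow]; nlinarith [norm_nonneg w]
  · intro v
    have h3 := abs_re_conj_mul_le w v
    rw [abs_mul, abs_of_nonneg (by positivity)]
    have h4 : ‖w‖ * ‖v‖ ≤ 2 * ‖v‖ := mul_le_mul_of_nonneg_right hw (norm_nonneg _)
    nlinarith [norm_nonneg v, sq_nonneg e, mul_nonneg (sq_nonneg e) (norm_nonneg v)]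
  · intro v
    simp only [sub_self, norm_zero]
    positivity
  · intro v
    rw [norm_mul, norm_mul, Complex.norm_ofNat]
    nlinarith [norm_nonneg v, mul_le_mul_of_nonneg_right hw (norm_nonneg v)]
  · intro v
    rw [Complex.normSq_eq_norm_sq, abs_of_nonneg (by positivity)]
    nlinarith [sq_nonneg ‖v‖]
  · intro v
    simp only [norm_zero]
    positivity
  · intro v
    simp only [sub_self, norm_zero]
    positivity
  · have h3 := qf_add e c α γ (vc e w) 0 p.2 0
    rw [smul_zero, add_zero, ← hp, h0] at h3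
    have h4 : qf e c α γ (vc e w) = 0 := by
      have : p.2 ^ 2 ≠ 0 := pow_ne_zero 2 hp2
      have h5 : p.2 ^ 2 * qf e c α γ (vc e w) = 0 := by linarith
      exact (mul_eq_zero.1 h5).resolve_left this
    rw [← h4]
    unfold qf
    rw [nn_vc]
    simp only [vc, Complex.ofReal_one, one_mul]
    rw [mul_div_cancel_left₀ _ he', mul_pow, mul_div_cancel_left₀ _ (pow_ne_zero 2 he')]
  · intro v
    have h3 := h1 ((e : ℂ) * v, 0)
    have h4 : p.2 * (2 * c * (e ^ 2 * (conj w * v).re) + (conj α * v).re +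
        (conj γ * (2 * (w * v))).re) = 0 := by
      rw [← h3]
      unfold bf
      simp only [hp1]
      have e1 : (conj ((e : ℂ) * w * p.2) * ((e : ℂ) * v)).re = p.2 * (e ^ 2 * (conj w * v).re) := by
        have : conj ((e : ℂ) * w * p.2) * ((e : ℂ) * v) =
          ((p.2 * e ^ 2 : ℝ) : ℂ) * (conj w * v) := by
          simp only [map_mul, Complex.conj_ofReal]; push_cast; ring
        rw [this, Complex.re_ofReal_mul]; ring
      have e2 : (conj α * (((p.2 : ℂ) * ((e : ℂ) * v) + ((0 : ℝ) : ℂ) * ((e : ℂ) * w * p.2)) / e)).re =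
          p.2 * (conj α * v).re := by
        have : conj α * (((p.2 : ℂ) * ((e : ℂ) * v) + ((0 : ℝ) : ℂ) * ((e : ℂ) * w * p.2)) / e) =
          (p.2 : ℂ) * (conj α * v) := by
          field_simp; push_cast; ring
        rw [this, Complex.re_ofReal_mul]
      have e3 : (conj γ * (2 * ((e : ℂ) * w * p.2 * ((e : ℂ) * v)) / (e : ℂ) ^ 2)).re =
          p.2 * (conj γ * (2 * (w * v))).re := by
        have : conj γ * (2 * ((e : ℂ) * w * p.2 * ((e : ℂ) * v)) / (e : ℂ) ^ 2) =
          (p.2 : ℂ) * (conj γ * (2 * (w * v))) := by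
          field_simp
        rw [this, Complex.re_ofReal_mul]
      rw [e1, e2, e3]; ring
    have h5 := (mul_eq_zero.1 h4).resolve_left hp2
    linarith
  · intro v
    have h3 := h2 ((e : ℂ) * v, 0)
    have h4 : qf e c α γ ((e : ℂ) * v, 0) = c * (e ^ 2 * Complex.normSq v) + (conj γ * v ^ 2).re := by
      unfold qf nn
      simp only [map_mul, Complex.normSq_ofReal, Complex.ofReal_zero, zero_mul, zero_div, mul_zero,
        Complex.zero_re]
      rw [mul_pow, mul_div_cancel_left₀ _ (pow_ne_zero 2 he')]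
      ring
    rw [h4] at h3
    have h5 : (conj γ * (2 * v ^ 2)).re = 2 * (conj γ * v ^ 2).re := by
      have : conj γ * (2 * v ^ 2) = ((2 : ℝ) : ℂ) * (conj γ * v ^ 2) := by push_cast; ring
      rw [this, Complex.re_ofReal_mul]
    simp only [mul_zero, Complex.zero_re]
    linarith

end Pool.Agent.Lib.MP_6a9e1f_gt
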