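import Mathlib
import Pool.Agent.Lib.MP_6a9e1f_gt.Ver

/-!
The handle: definition of the map `f` on the punctured disc around `u = 0` and its injectivity.
-/

namespace Pool.Agent.Lib.MP_6a9e1f_gt

open ComplexConjugate Set

/-- Cutoff function: `1` for `|u| ≤ 1/8` and `0` for `|u| ≥ 1/4`. -/
noncomputable def chi (u : ℂ) : ℝ := Real.smoothTransition ((1 / 16 - Complex.normSq u) * (64 / 3))

lemma chi_nonneg (u : ℂ) : 0 ≤ chi u := Real.smoothTransition.nonneg _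

lemma chi_le_one (u : ℂ) : chi u ≤ 1 := Real.smoothTransition.le_one _

lemma chi_eq_one {u : ℂ} (hu : ‖u‖ ≤ 1 / 8) : chi u = 1 := by
  apply Real.smoothTransition.one_of_one_le
  rw [Complex.normSq_eq_norm_sq]
  nlinarith [norm_nonneg u]

lemma chi_eq_zero {u : ℂ} (hu : 1 / 4 ≤ ‖u‖) : chi u = 0 := by
  apply Real.smoothTransition.zero_of_nonpos
  rw [Complex.normSq_eq_norm_sq]
  nlinarith [norm_nonneg u]

lemma contDiff_normSq : ContDiff ℝ ⊤ (fun u : ℂ => Complex.normSq u) := by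
  have : (fun u : ℂ => Complex.normSq u) = fun u => Complex.reCLM u * Complex.reCLM u +
      Complex.imCLM u * Complex.imCLM u := by
    funext u; simp [Complex.normSq_apply]
  rw [this]
  exact (Complex.reCLM.contDiff.mul Complex.reCLM.contDiff).add
    (Complex.imCLM.contDiff.mul Complex.imCLM.contDiff)

lemma contDiff_chi : ContDiff ℝ (⊤ : ℕ∞) chi := by
  unfold chi
  refine Real.smoothTransition.contDiff.comp ?_
  exact (contDiff_const.sub (contDiff_normSq.of_le le_top)).mul contDiff_const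

lemma exists_lipschitz_chi : ∃ M : ℝ, 1 ≤ M ∧ ∀ u v : ℂ, |chi u - chi v| ≤ M * ‖u - v‖ := by
  have hcs : HasCompactSupport chi := by
    apply HasCompactSupport.intro (isCompact_closedBall (0 : ℂ) (1 / 4))
    intro u hu
    apply chi_eq_zero
    rw [mem_closedBall_zero_iff, not_le] at hu
    exact hu.le
  obtain ⟨C, hC⟩ := contDiff_chi.lipschitzWith_of_hasCompactSupport hcs (by simp)
  refine ⟨max 1 (C : ℝ), le_max_left _ _, fun u v => ?_⟩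
  have h1 := hC.dist_le_mul u v
  rw [Real.dist_eq, dist_eq_norm] at h1
  refine h1.trans ?_
  exact mul_le_mul_of_nonneg_right (le_max_right _ _) (norm_nonneg _)

/-- Parameter conditions. -/
structure Par (M h b e : ℝ) : Prop where
  M1 : 1 ≤ M
  lip : ∀ u v : ℂ, |chi u - chi v| ≤ M * ‖u - v‖
  h0 : 0 < h
  h1 : h * M ≤ 1 / 1000
  b0 : 0 < b
  b1 : b * M ≤ 1 / 1000
  bh : b * Real.log h = -1
  e0 : 0 < e
  e1 : e ^ 2 * M ≤ 1 / 4000

/-- The first component of the homogeneous coordinates on the handle. -/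
noncomputable def F0 (e : ℝ) (u : ℂ) : ℝ := 1 + e ^ 2 * ((1 - chi u) * Complex.normSq (1 + u))

/-- The second component. -/
noncomputable def F1 (h b : ℝ) (u : ℂ) : ℂ :=
  1 + u + b * ((chi u * Real.log ‖u‖ : ℝ) : ℂ) - h ^ 2 * (chi u / conj u)

/-- The third component. -/
noncomputable def F2 (h : ℝ) (u : ℂ) : ℂ :=
  (1 + u) ^ 2 + 2 * h ^ 2 * (chi u / conj u) + h ^ 4 * (chi u / conj u ^ 2)

/-- The parametrization of one half of the handle and its neighbourhood. -/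
noncomputable def ff (h b e : ℝ) (u : ℂ) : ℂ × ℂ := (F1 h b u / F0 e u, F2 h u / F0 e u)

/-- The symmetry `(x, ζ) ↦ (-x, ζ)`. -/
def sg (p : ℂ × ℂ) : ℂ × ℂ := (-p.1, p.2)

variable {M h b e : ℝ}

lemma Par.h_le (P : Par M h b e) : h ≤ 1 / 1000 := by nlinarith [P.M1, P.h1, P.h0]
lemma Par.b_le (P : Par M h b e) : b ≤ 1 / 1000 := by nlinarith [P.M1, P.b1, P.b0]
lemma Par.e_le (P : Par M h b e) : e ^ 2 ≤ 1 / 4000 := by
  nlinarith [P.M1, P.e1, sq_nonneg e]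

lemma F0_ge (e : ℝ) (u : ℂ) : 1 ≤ F0 e u := by
  unfold F0
  have h1 := chi_le_one u
  have h2 := Complex.normSq_nonneg (1 + u)
  have : 0 ≤ e ^ 2 * ((1 - chi u) * Complex.normSq (1 + u)) := by
    apply mul_nonneg (sq_nonneg e) (mul_nonneg (by linarith) h2)
  linarith

lemma F0_ne (e : ℝ) (u : ℂ) : (F0 e u : ℂ) ≠ 0 :=
  Complex.ofReal_ne_zero.2 (by linarith [F0_ge e u])

/-- Outside of the disc of radius `1/4` the map is the Veronese surface. -/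
lemma ff_eq_ver (he : e ≠ 0) {u : ℂ} (hu : 1 / 4 ≤ ‖u‖) : ff h b e u = ver e (vc e (1 + u)) := by
  rw [ver_vc he]
  unfold ff F0 F1 F2
  rw [chi_eq_zero hu]
  simp

lemma ver_vc_neg (he : e ≠ 0) (w : ℂ) : ver e (vc e (-w)) = sg (ver e (vc e w)) := by
  rw [ver_vc he, ver_vc he]
  simp only [sg, Complex.normSq_neg, even_two, Even.neg_pow, neg_div]

/-! ### The inner radius map -/

/-- `q u = u + h² / conj u`. -/
noncomputable def qq (h : ℝ) (u : ℂ) : ℂ := u + h ^ 2 / conj u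

lemma inv_conj (u : ℂ) (hu : u ≠ 0) : (1 : ℂ) / conj u = u / ((‖u‖ ^ 2 : ℝ) : ℂ) := by
  have h1 : conj u ≠ 0 := by simpa using hu
  have h2 : ((‖u‖ ^ 2 : ℝ) : ℂ) = u * conj u := by
    rw [Complex.mul_conj, Complex.normSq_eq_norm_sq]
  rw [h2]
  field_simp

lemma qq_eq (h : ℝ) {u : ℂ} (hu : u ≠ 0) : qq h u = ((1 + h ^ 2 / ‖u‖ ^ 2 : ℝ) : ℂ) * u := by
  unfold qq
  have := inv_conj u hu
  rw [show (h : ℂ) ^ 2 / conj u = h ^ 2 * (1 / conj u) by ring, this]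
  push_cast
  ring

lemma norm_qq (h : ℝ) {u : ℂ} (hu : u ≠ 0) : ‖qq h u‖ = ‖u‖ + h ^ 2 / ‖u‖ := by
  have hpos : 0 < ‖u‖ := norm_pos_iff.2 hu
  rw [qq_eq h hu, norm_mul, Complex.norm_real, Real.norm_of_nonneg (by positivity)]
  field_simp

lemma qq_inj (hh : 0 < h) {u v : ℂ} (hu : h ≤ ‖u‖) (hv : h ≤ ‖v‖) (huv : qq h u = qq h v) :
    u = v := by
  have hu0 : u ≠ 0 := norm_pos_iff.1 (by linarith)
  have hv0 : v ≠ 0 := norm_pos_iff.1 (by linarith)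
  have h1 := norm_qq h hu0
  have h2 := norm_qq h hv0
  rw [huv, h2] at h1
  have hupos : 0 < ‖u‖ := norm_pos_iff.2 hu0
  have hvpos : 0 < ‖v‖ := norm_pos_iff.2 hv0
  have h3 : (‖u‖ - ‖v‖) * (‖u‖ * ‖v‖ - h ^ 2) = 0 := by
    field_simp at h1
    nlinarith
  have h4 : ‖u‖ = ‖v‖ := by
    rcases mul_eq_zero.1 h3 with h5 | h5
    · linarith
    · have : h * h ≤ ‖u‖ * h := mul_le_mul_of_nonneg_right hu hh.le
      have h6 : ‖u‖ * h ≤ ‖u‖ * ‖v‖ := mul_le_mul_of_nonneg_left hv (norm_nonneg _)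
      have h7 : ‖u‖ * h = h * h := by nlinarith
      have h8 : ‖u‖ = h := mul_right_cancel₀ hh.ne' h7
      have h9 : ‖v‖ = h := by
        rw [h8] at h5
        have : h * ‖v‖ = h * h := by nlinarith
        exact mul_left_cancel₀ hh.ne' this
      rw [h8, h9]
  rw [qq_eq h hu0, qq_eq h hv0, h4] at huv
  have h5 : ((1 + h ^ 2 / ‖v‖ ^ 2 : ℝ) : ℂ) ≠ 0 := Complex.ofReal_ne_zero.2 (by positivity)
  exact mul_left_cancel₀ h5 huv

lemma norm_inv_conj_sub {u v : ℂ} (hu : u ≠ 0) (hv : v ≠ 0) :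
    ‖1 / conj u - 1 / conj v‖ = ‖u - v‖ / (‖u‖ * ‖v‖) := by
  have h1 : conj u ≠ 0 := by simpa using hu
  have h2 : conj v ≠ 0 := by simpa using hv
  have : 1 / conj u - 1 / conj v = conj (v - u) / (conj u * conj v) := by
    rw [map_sub]; field_simp
  rw [this, norm_div, norm_mul, Complex.norm_conj, Complex.norm_conj, Complex.norm_conj,
    norm_sub_rev]

lemma norm_inv_conj {u : ℂ} : ‖1 / conj u‖ = 1 / ‖u‖ := by
  rw [norm_div, Complex.norm_conj, norm_one]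

lemma qq_sub (hh : 0 < h) (hh1 : h ≤ 1 / 1000) {u v : ℂ} (hu : 1 / 8 ≤ ‖u‖) (hv : h ≤ ‖v‖) :
    ‖u - v‖ ≤ 2 * ‖qq h u - qq h v‖ := by
  have hu0 : u ≠ 0 := norm_pos_iff.1 (by linarith)
  have hv0 : v ≠ 0 := norm_pos_iff.1 (by linarith)
  have hupos : 0 < ‖u‖ := norm_pos_iff.2 hu0
  have hvpos : 0 < ‖v‖ := norm_pos_iff.2 hv0
  have key : ‖(h : ℂ) ^ 2 / conj u - h ^ 2 / conj v‖ ≤ ‖u - v‖ / 2 := by
    have e1 : (h : ℂ) ^ 2 / conj u - h ^ 2 / conj v = h ^ 2 * (1 / conj u - 1 / conj v) := by ring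
    have e2 : ‖(h : ℂ) ^ 2 / conj u - h ^ 2 / conj v‖ = h ^ 2 * (‖u - v‖ / (‖u‖ * ‖v‖)) := by
      rw [e1, norm_mul, norm_inv_conj_sub hu0 hv0, norm_pow, Complex.norm_real,
        Real.norm_of_nonneg hh.le]
    by_cases hv' : 1 / 16 ≤ ‖v‖
    · rw [e2]
      have h1 : (1 / 8) * (1 / 16) ≤ ‖u‖ * ‖v‖ := mul_le_mul hu hv' (by norm_num) hupos.le
      have h2 : ‖u - v‖ / (‖u‖ * ‖v‖) ≤ ‖u - v‖ / ((1 / 8) * (1 / 16)) :=
        div_le_div_of_nonneg_left (norm_nonneg _) (by norm_num) h1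
      have h3 : h ^ 2 ≤ 1 / 1000000 := by nlinarith
      have h4 : h ^ 2 * (‖u - v‖ / (‖u‖ * ‖v‖)) ≤ 1 / 1000000 * (‖u - v‖ / ((1 / 8) * (1 / 16))) :=
        mul_le_mul h3 h2 (by positivity) (by norm_num)
      have h5 := norm_nonneg (u - v)
      have h6 : (1 : ℝ) / 1000000 * (‖u - v‖ / ((1 / 8) * (1 / 16))) = 128 / 1000000 * ‖u - v‖ := by
        ring
      rw [h6] at h4
      linarith
    · push Not at hv'
      have h1 : 1 / 16 ≤ ‖u - v‖ := by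
        have := norm_sub_norm_le u v
        linarith
      have h2 : ‖(h : ℂ) ^ 2 / conj u‖ ≤ 8 * h ^ 2 := by
        rw [norm_div, norm_pow, Complex.norm_real, Complex.norm_conj, Real.norm_of_nonneg hh.le,
          div_le_iff₀ hupos]
        nlinarith [sq_nonneg h]
      have h3 : ‖(h : ℂ) ^ 2 / conj v‖ ≤ h := by
        rw [norm_div, norm_pow, Complex.norm_real, Complex.norm_conj, Real.norm_of_nonneg hh.le,
          div_le_iff₀ hvpos]
        nlinarith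
      have h4 := norm_sub_le ((h : ℂ) ^ 2 / conj u) (h ^ 2 / conj v)
      nlinarith
  have e3 : qq h u - qq h v = (u - v) + ((h : ℂ) ^ 2 / conj u - h ^ 2 / conj v) := by
    unfold qq; ring
  have h5 : ‖u - v‖ ≤ ‖qq h u - qq h v‖ + ‖(h : ℂ) ^ 2 / conj u - h ^ 2 / conj v‖ := by
    have : u - v = (qq h u - qq h v) - ((h : ℂ) ^ 2 / conj u - h ^ 2 / conj v) := by
      rw [e3]; ring
    calc ‖u - v‖ = ‖(qq h u - qq h v) - ((h : ℂ) ^ 2 / conj u - h ^ 2 / conj v)‖ := by rw [← this]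
      _ ≤ _ := norm_sub_le _ _
  linarith

lemma norm_dir_sub {x y : ℂ} (hx : x ≠ 0) (hy : y ≠ 0) :
    ‖x / ‖x‖ - y / ‖y‖‖ ≤ 2 * ‖x - y‖ / ‖x‖ := by
  have hx' : 0 < ‖x‖ := norm_pos_iff.2 hx
  have hy' : 0 < ‖y‖ := norm_pos_iff.2 hy
  have hxc : (‖x‖ : ℂ) ≠ 0 := Complex.ofReal_ne_zero.2 hx'.ne'
  have hyc : (‖y‖ : ℂ) ≠ 0 := Complex.ofReal_ne_zero.2 hy'.ne'
  have e1 : x / ‖x‖ - y / ‖y‖ = ((x - y) + y / ‖y‖ * ((‖y‖ - ‖x‖ : ℝ) : ℂ)) / ‖x‖ := by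
    push_cast
    field_simp
    ring
  rw [e1, norm_div, Complex.norm_real, norm_norm]
  apply div_le_div_of_nonneg_right _ hx'.le
  have h1 : ‖y / (‖y‖ : ℂ) * ((‖y‖ - ‖x‖ : ℝ) : ℂ)‖ ≤ ‖x - y‖ := by
    rw [norm_mul, norm_div, Complex.norm_real, Complex.norm_real, norm_norm, div_self hy'.ne',
      one_mul, Real.norm_eq_abs, norm_sub_rev]
    exact abs_norm_sub_norm_le y x
  calc ‖(x - y) + y / (‖y‖ : ℂ) * ((‖y‖ - ‖x‖ : ℝ) : ℂ)‖
      ≤ ‖x - y‖ + ‖y / (‖y‖ : ℂ) * ((‖y‖ - ‖x‖ : ℝ) : ℂ)‖ := norm_add_le _ _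
    _ ≤ 2 * ‖x - y‖ := by linarith

/-- The square of the direction of `u` is a Lipschitz function of `q u`. -/
lemma dir_sq_sub (hh : 0 < h) {u v : ℂ} (hu : h ≤ ‖u‖) (hv : h ≤ ‖v‖) :
    ‖u / conj u - v / conj v‖ ≤ 2 * ‖qq h u - qq h v‖ / h := by
  have hu0 : u ≠ 0 := norm_pos_iff.1 (by linarith)
  have hv0 : v ≠ 0 := norm_pos_iff.1 (by linarith)
  have hupos : 0 < ‖u‖ := norm_pos_iff.2 hu0
  have hvpos : 0 < ‖v‖ := norm_pos_iff.2 hv0
  have hdir : ∀ x : ℂ, x ≠ 0 → x / conj x = (x / ‖x‖) ^ 2 := by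
    intro x hx
    have h1 : conj x ≠ 0 := by simpa using hx
    have h2 : ((‖x‖ : ℝ) : ℂ) ^ 2 = x * conj x := by
      rw [Complex.mul_conj, Complex.normSq_eq_norm_sq]; push_cast; rfl
    rw [div_pow, h2]
    field_simp
  have hq : ∀ x : ℂ, x ≠ 0 → x / ‖x‖ = qq h x / ‖qq h x‖ := by
    intro x hx
    have hxpos : 0 < ‖x‖ := norm_pos_iff.2 hx
    have hxc : (‖x‖ : ℂ) ≠ 0 := Complex.ofReal_ne_zero.2 hxpos.ne'
    have hpos : 0 < 1 + h ^ 2 / ‖x‖ ^ 2 := by positivity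
    have hposc : ((1 + h ^ 2 / ‖x‖ ^ 2 : ℝ) : ℂ) ≠ 0 := Complex.ofReal_ne_zero.2 hpos.ne'
    rw [qq_eq h hx, norm_mul, Complex.norm_real, Real.norm_of_nonneg hpos.le, Complex.ofReal_mul,
      mul_div_mul_left _ _ hposc]
  have hqu : qq h u ≠ 0 := by
    rw [← norm_pos_iff, norm_qq h hu0]; positivity
  have hqv : qq h v ≠ 0 := by
    rw [← norm_pos_iff, norm_qq h hv0]; positivity
  have hqn : 2 * h ≤ ‖qq h u‖ := by
    rw [norm_qq h hu0]
    have : 2 * h * ‖u‖ ≤ (‖u‖ + h ^ 2 / ‖u‖) * ‖u‖ := by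
      have : (‖u‖ + h ^ 2 / ‖u‖) * ‖u‖ = ‖u‖ ^ 2 + h ^ 2 := by field_simp
      rw [this]; nlinarith [sq_nonneg (‖u‖ - h)]
    exact le_of_mul_le_mul_right this hupos
  rw [hdir u hu0, hdir v hv0, sq_sub_sq, norm_mul]
  have h1 : ‖u / ‖u‖ + v / ‖v‖‖ ≤ 2 := by
    refine (norm_add_le _ _).trans ?_
    rw [norm_div, norm_div, Complex.norm_real, Complex.norm_real, norm_norm, norm_norm,
      div_self hupos.ne', div_self hvpos.ne']
    norm_num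
  have h2 : ‖u / ‖u‖ - v / ‖v‖‖ ≤ ‖qq h u - qq h v‖ / h := by
    rw [hq u hu0, hq v hv0]
    refine (norm_dir_sub hqu hqv).trans ?_
    rw [div_le_div_iff₀ (by linarith) hh]
    nlinarith [norm_nonneg (qq h u - qq h v)]
  calc ‖u / ‖u‖ + v / ‖v‖‖ * ‖u / ‖u‖ - v / ‖v‖‖ ≤ 2 * (‖qq h u - qq h v‖ / h) :=
        mul_le_mul h1 h2 (norm_nonneg _) (by norm_num)
    _ = _ := by ring

end Pool.Agent.Lib.MP_6a9e1f_gt
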