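import Mathlib
import Pool.Agent.Lib.MP_6a9e1f_gt.Neck

/-!
Injectivity of the parametrization of the handle.
-/

namespace Pool.Agent.Lib.MP_6a9e1f_gt

open ComplexConjugate Set

variable {M h b e : ℝ}

/-- The correction term of the third component. -/
noncomputable def E2 (h : ℝ) (u : ℂ) : ℂ := 2 * h ^ 2 * (1 / conj u) + h ^ 4 * (1 / conj u) ^ 2

lemma F2_eq (h : ℝ) {u : ℂ} (hu : u ≠ 0) : F2 h u =
    1 + 2 * qq h u + qq h u ^ 2 - 2 * h ^ 2 * (u / conj u) - ((1 - chi u : ℝ) : ℂ) * E2 h u := by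
  have h1 : conj u ≠ 0 := by simpa using hu
  unfold F2 E2 qq
  push_cast
  field_simp
  ring

lemma F2_eq' (h : ℝ) (u : ℂ) : F2 h u = (1 + u) ^ 2 + (chi u : ℂ) * E2 h u := by
  unfold F2 E2
  rw [one_div, inv_pow]
  ring

lemma norm_E2_le (hh : 0 < h) (h1 : h ≤ 1 / 1000) {u : ℂ} (hu : h ≤ ‖u‖) : ‖E2 h u‖ ≤ 3 * h := by
  have hpos : 0 < ‖u‖ := by linarith
  have e1 : ‖1 / conj u‖ ≤ 1 / h := by
    rw [norm_inv_conj]; exact one_div_le_one_div_of_le hh hu
  unfold E2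
  have e2 : ‖2 * (h : ℂ) ^ 2 * (1 / conj u)‖ ≤ 2 * h := by
    rw [norm_mul, norm_mul, norm_pow, Complex.norm_real, Real.norm_of_nonneg hh.le,
      Complex.norm_ofNat]
    calc 2 * h ^ 2 * ‖1 / conj u‖ ≤ 2 * h ^ 2 * (1 / h) :=
          mul_le_mul_of_nonneg_left e1 (by positivity)
      _ = 2 * h := by field_simp
  have e3 : ‖(h : ℂ) ^ 4 * (1 / conj u) ^ 2‖ ≤ h ^ 2 := by
    rw [norm_mul, norm_pow, norm_pow, Complex.norm_real, Real.norm_of_nonneg hh.le]
    calc h ^ 4 * ‖1 / conj u‖ ^ 2 ≤ h ^ 4 * (1 / h) ^ 2 :=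
          mul_le_mul_of_nonneg_left (pow_le_pow_left₀ (norm_nonneg _) e1 2) (by positivity)
      _ = h ^ 2 := by field_simp
  have := norm_add_le (2 * (h : ℂ) ^ 2 * (1 / conj u)) ((h : ℂ) ^ 4 * (1 / conj u) ^ 2)
  nlinarith

lemma norm_E2_le' (hh : 0 < h) (h1 : h ≤ 1 / 1000) {u : ℂ} (hu : 1 / 8 ≤ ‖u‖) :
    ‖E2 h u‖ ≤ 17 * h ^ 2 := by
  have hpos : 0 < ‖u‖ := by linarith
  have e1 : ‖1 / conj u‖ ≤ 8 := by
    rw [norm_inv_conj, div_le_iff₀ hpos]; linarith
  unfold E2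
  have e2 : ‖2 * (h : ℂ) ^ 2 * (1 / conj u)‖ ≤ 16 * h ^ 2 := by
    rw [norm_mul, norm_mul, norm_pow, Complex.norm_real, Real.norm_of_nonneg hh.le,
      Complex.norm_ofNat]
    calc 2 * h ^ 2 * ‖1 / conj u‖ ≤ 2 * h ^ 2 * 8 :=
          mul_le_mul_of_nonneg_left e1 (by positivity)
      _ = 16 * h ^ 2 := by ring
  have e3 : ‖(h : ℂ) ^ 4 * (1 / conj u) ^ 2‖ ≤ h ^ 2 := by
    rw [norm_mul, norm_pow, norm_pow, Complex.norm_real, Real.norm_of_nonneg hh.le]
    calc h ^ 4 * ‖1 / conj u‖ ^ 2 ≤ h ^ 4 * 8 ^ 2 :=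
          mul_le_mul_of_nonneg_left (pow_le_pow_left₀ (norm_nonneg _) e1 2) (by positivity)
      _ = h ^ 2 * (64 * h ^ 2) := by ring
      _ ≤ h ^ 2 * 1 := mul_le_mul_of_nonneg_left (by nlinarith) (by positivity)
      _ = h ^ 2 := by ring
  have := norm_add_le (2 * (h : ℂ) ^ 2 * (1 / conj u)) ((h : ℂ) ^ 4 * (1 / conj u) ^ 2)
  linarith

lemma E2_sub (hh : 0 < h) (h1 : h ≤ 1 / 1000) {u v : ℂ} (hu : 1 / 8 ≤ ‖u‖) (hv : 1 / 8 ≤ ‖v‖) :
    ‖E2 h u - E2 h v‖ ≤ 130 * h ^ 2 * ‖u - v‖ := by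
  have hu0 : u ≠ 0 := norm_pos_iff.1 (by linarith)
  have hv0 : v ≠ 0 := norm_pos_iff.1 (by linarith)
  have hpos : 0 < ‖u‖ := by linarith
  have hposv : 0 < ‖v‖ := by linarith
  have e1 : ‖1 / conj u‖ ≤ 8 := by
    rw [norm_inv_conj, div_le_iff₀ hpos]; linarith
  have e1' : ‖1 / conj v‖ ≤ 8 := by
    rw [norm_inv_conj, div_le_iff₀ hposv]; linarith
  have e2 : ‖1 / conj u - 1 / conj v‖ ≤ 64 * ‖u - v‖ := by
    rw [norm_inv_conj_sub hu0 hv0, div_le_iff₀ (by positivity)]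
    have : 1 / 64 ≤ ‖u‖ * ‖v‖ := by nlinarith
    nlinarith [norm_nonneg (u - v)]
  have e3 : E2 h u - E2 h v = (1 / conj u - 1 / conj v) *
      (2 * h ^ 2 + h ^ 4 * (1 / conj u + 1 / conj v)) := by
    unfold E2; ring
  have e4 : ‖2 * (h : ℂ) ^ 2 + h ^ 4 * (1 / conj u + 1 / conj v)‖ ≤ 2 * h ^ 2 + 16 * h ^ 4 := by
    refine (norm_add_le _ _).trans ?_
    rw [norm_mul, norm_mul, norm_pow, norm_pow, Complex.norm_real, Real.norm_of_nonneg hh.le,
      Complex.norm_ofNat]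
    have : ‖1 / conj u + 1 / conj v‖ ≤ 16 := by
      refine (norm_add_le _ _).trans ?_; linarith
    nlinarith [pow_pos hh 4]
  rw [e3, norm_mul]
  have e5 : 2 * h ^ 2 + 16 * h ^ 4 ≤ 130 / 64 * h ^ 2 := by
    have : h ^ 2 ≤ 1 / 1000000 := by nlinarith
    nlinarith [sq_nonneg h]
  calc ‖1 / conj u - 1 / conj v‖ * ‖2 * (h : ℂ) ^ 2 + h ^ 4 * (1 / conj u + 1 / conj v)‖
      ≤ (64 * ‖u - v‖) * (130 / 64 * h ^ 2) :=
        mul_le_mul e2 (e4.trans e5) (norm_nonneg _) (by positivity)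
    _ = _ := by ring

/-- Lipschitz property of the cutoff term. -/
lemma cut_E2_sub (P : Par M h b e) {u v : ℂ} (hu : h ≤ ‖u‖) (hv : h ≤ ‖v‖) (hu1 : ‖u‖ ≤ 5 / 8)
    (hv1 : ‖v‖ ≤ 5 / 8) :
    ‖((1 - chi u : ℝ) : ℂ) * E2 h u - ((1 - chi v : ℝ) : ℂ) * E2 h v‖ ≤
      2 * h * ‖qq h u - qq h v‖ := by
  -- it suffices to treat the case where `|v| ≤ |u|`
  wlog hle : ‖v‖ ≤ ‖u‖ generalizing u v with H
  · have := H hv hu hv1 hu1 (by linarith)
    rwa [norm_sub_rev, norm_sub_rev (qq h v)] at this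
  have hh := P.h0
  have h1 := P.h_le
  have hM := P.h1
  by_cases hu8 : ‖u‖ ≤ 1 / 8
  · rw [chi_eq_one hu8, chi_eq_one (hle.trans hu8)]
    simp only [sub_self, Complex.ofReal_zero, zero_mul, norm_zero]
    positivity
  push Not at hu8
  have hq := qq_sub hh h1 hu8.le hv
  have hlip := P.lip u v
  have hEu := norm_E2_le' hh h1 hu8.le
  have hn := norm_nonneg (u - v)
  have e0 : ‖((chi v - chi u : ℝ) : ℂ) * E2 h u‖ ≤ (M * ‖u - v‖) * (17 * h ^ 2) := by
    rw [norm_mul, Complex.norm_real, Real.norm_eq_abs, abs_sub_comm]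
    exact mul_le_mul hlip hEu (norm_nonneg _) (by have := P.M1; positivity)
  have e01 : (M * ‖u - v‖) * (17 * h ^ 2) ≤ 17 / 1000 * h * ‖u - v‖ := by
    have : (h * M) * (17 * h * ‖u - v‖) ≤ 1 / 1000 * (17 * h * ‖u - v‖) :=
      mul_le_mul_of_nonneg_right hM (by positivity)
    nlinarith
  by_cases hv8 : ‖v‖ ≤ 1 / 8
  · have e2 : ((1 - chi u : ℝ) : ℂ) * E2 h u - ((1 - chi v : ℝ) : ℂ) * E2 h v =
        ((chi v - chi u : ℝ) : ℂ) * E2 h u := by
      rw [chi_eq_one hv8]; push_cast; ring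
    rw [e2]
    nlinarith
  · push Not at hv8
    have e2 : ((1 - chi u : ℝ) : ℂ) * E2 h u - ((1 - chi v : ℝ) : ℂ) * E2 h v =
        ((chi v - chi u : ℝ) : ℂ) * E2 h u + ((1 - chi v : ℝ) : ℂ) * (E2 h u - E2 h v) := by
      push_cast; ring
    have e3 := E2_sub hh h1 hu8.le hv8.le
    have e4 : ‖((1 - chi v : ℝ) : ℂ) * (E2 h u - E2 h v)‖ ≤ 130 * h ^ 2 * ‖u - v‖ := by
      rw [norm_mul, Complex.norm_real, Real.norm_of_nonneg (by linarith [chi_le_one v])]
      calc (1 - chi v) * ‖E2 h u - E2 h v‖ ≤ 1 * ‖E2 h u - E2 h v‖ :=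
            mul_le_mul_of_nonneg_right (by linarith [chi_nonneg v]) (norm_nonneg _)
        _ ≤ _ := by rw [one_mul]; exact e3
    have e5 : 130 * h ^ 2 * ‖u - v‖ ≤ 130 / 1000 * h * ‖u - v‖ := by
      have : h * (130 * h * ‖u - v‖) ≤ 1 / 1000 * (130 * h * ‖u - v‖) :=
        mul_le_mul_of_nonneg_right h1 (by positivity)
      nlinarith
    rw [e2]
    refine (norm_add_le _ _).trans ?_
    nlinarith

lemma norm_qq_le (P : Par M h b e) {u : ℂ} (hu : h ≤ ‖u‖) (hu1 : ‖u‖ ≤ 5 / 8) :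
    ‖qq h u‖ ≤ 63 / 100 := by
  have hh := P.h0
  have h1 := P.h_le
  have hpos : 0 < ‖u‖ := by linarith
  rw [norm_qq h (norm_pos_iff.1 hpos)]
  have : h ^ 2 / ‖u‖ ≤ h := by rw [div_le_iff₀ hpos]; nlinarith
  linarith

/-- The third component is injective, quantitatively. -/
lemma F2_sub (P : Par M h b e) {u v : ℂ} (hu : h ≤ ‖u‖) (hv : h ≤ ‖v‖) (hu1 : ‖u‖ ≤ 5 / 8)
    (hv1 : ‖v‖ ≤ 5 / 8) : 1 / 2 * ‖qq h u - qq h v‖ ≤ ‖F2 h u - F2 h v‖ := by
  have hh := P.h0
  have h1 := P.h_le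
  have hu0 : u ≠ 0 := norm_pos_iff.1 (by linarith)
  have hv0 : v ≠ 0 := norm_pos_iff.1 (by linarith)
  set X := (qq h u - qq h v) * (2 + (qq h u + qq h v)) with hX
  set Y := 2 * (h : ℂ) ^ 2 * (u / conj u - v / conj v) with hY
  set Z := ((1 - chi u : ℝ) : ℂ) * E2 h u - ((1 - chi v : ℝ) : ℂ) * E2 h v with hZ
  have e1 : F2 h u - F2 h v = X - Y - Z := by
    rw [F2_eq h hu0, F2_eq h hv0, hX, hY, hZ]; ring
  have e2 : 74 / 100 * ‖qq h u - qq h v‖ ≤ ‖X‖ := by
    rw [hX, norm_mul]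
    have hA := norm_qq_le P hu hu1
    have hB := norm_qq_le P hv hv1
    have h3 : 74 / 100 ≤ ‖2 + (qq h u + qq h v)‖ := by
      have h4 : ‖(2 : ℂ)‖ ≤ ‖2 + (qq h u + qq h v)‖ + ‖qq h u + qq h v‖ := by
        have : (2 : ℂ) = (2 + (qq h u + qq h v)) - (qq h u + qq h v) := by ring
        calc ‖(2 : ℂ)‖ = ‖(2 + (qq h u + qq h v)) - (qq h u + qq h v)‖ := by rw [← this]
          _ ≤ _ := norm_sub_le _ _
      have h5 := norm_add_le (qq h u) (qq h v)
      rw [Complex.norm_ofNat] at h4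
      linarith
    nlinarith [norm_nonneg (qq h u - qq h v)]
  have e3 : ‖Y‖ ≤ 4 * h * ‖qq h u - qq h v‖ := by
    rw [hY, norm_mul, norm_mul, norm_pow, Complex.norm_real, Real.norm_of_nonneg hh.le,
      Complex.norm_ofNat]
    calc 2 * h ^ 2 * ‖u / conj u - v / conj v‖ ≤ 2 * h ^ 2 * (2 * ‖qq h u - qq h v‖ / h) :=
          mul_le_mul_of_nonneg_left (dir_sq_sub hh hu hv) (by positivity)
      _ = _ := by field_simp; ring
  have e4 : ‖Z‖ ≤ 2 * h * ‖qq h u - qq h v‖ := cut_E2_sub P hu hv hu1 hv1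
  have e5 : ‖X‖ ≤ ‖X - Y - Z‖ + ‖Y‖ + ‖Z‖ := by
    have : X = (X - Y - Z) + Y + Z := by ring
    calc ‖X‖ = ‖(X - Y - Z) + Y + Z‖ := by rw [← this]
      _ ≤ ‖(X - Y - Z) + Y‖ + ‖Z‖ := norm_add_le _ _
      _ ≤ _ := by linarith [norm_add_le (X - Y - Z) Y]
  rw [e1]
  nlinarith [norm_nonneg (qq h u - qq h v)]

lemma F0_sub (P : Par M h b e) {u v : ℂ} (hu : h ≤ ‖u‖) (hv : h ≤ ‖v‖) (hu1 : ‖u‖ ≤ 5 / 8)
    (hv1 : ‖v‖ ≤ 5 / 8) : |F0 e u - F0 e v| ≤ 1 / 100 * ‖qq h u - qq h v‖ := by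
  wlog hle : ‖v‖ ≤ ‖u‖ generalizing u v with H
  · have := H hv hu hv1 hu1 (by linarith)
    rwa [abs_sub_comm, norm_sub_rev] at this
  have hh := P.h0
  have h1 := P.h_le
  have e0 : F0 e u - F0 e v =
      e ^ 2 * ((1 - chi u) * Complex.normSq (1 + u) - (1 - chi v) * Complex.normSq (1 + v)) := by
    unfold F0; ring
  by_cases hu8 : ‖u‖ ≤ 1 / 8
  · rw [e0, chi_eq_one hu8, chi_eq_one (hle.trans hu8)]
    simp
  push Not at hu8
  have hq := qq_sub hh h1 hu8.le hv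
  have hlip := P.lip u v
  have hn := norm_nonneg (u - v)
  have hM1 := P.M1
  have hNu : Complex.normSq (1 + u) ≤ 3 := by
    rw [Complex.normSq_eq_norm_sq]
    have := norm_add_le (1 : ℂ) u
    rw [norm_one] at this
    nlinarith [norm_nonneg (1 + u)]
  have hNuv : |Complex.normSq (1 + u) - Complex.normSq (1 + v)| ≤ 4 * ‖u - v‖ := by
    rw [Complex.normSq_eq_norm_sq, Complex.normSq_eq_norm_sq, sq_sub_sq, abs_mul]
    have i1 := norm_add_le (1 : ℂ) u
    have i2 := norm_add_le (1 : ℂ) v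
    rw [norm_one] at i1 i2
    have i3 : |‖1 + u‖ - ‖1 + v‖| ≤ ‖u - v‖ := by
      have := abs_norm_sub_norm_le (1 + u) (1 + v)
      rwa [add_sub_add_left_eq_sub] at this
    have i4 : |‖1 + u‖ + ‖1 + v‖| ≤ 4 := by
      rw [abs_of_nonneg (by positivity)]; linarith
    calc |‖1 + u‖ + ‖1 + v‖| * |‖1 + u‖ - ‖1 + v‖| ≤ 4 * ‖u - v‖ :=
          mul_le_mul i4 i3 (abs_nonneg _) (by norm_num)
      _ = _ := rfl
  have e1 : |(1 - chi u) * Complex.normSq (1 + u) - (1 - chi v) * Complex.normSq (1 + v)| ≤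
      7 * M * ‖u - v‖ := by
    have e2 : (1 - chi u) * Complex.normSq (1 + u) - (1 - chi v) * Complex.normSq (1 + v) =
        (chi v - chi u) * Complex.normSq (1 + u) +
          (1 - chi v) * (Complex.normSq (1 + u) - Complex.normSq (1 + v)) := by ring
    rw [e2]
    refine (abs_add_le _ _).trans ?_
    rw [abs_mul, abs_mul, abs_of_nonneg (Complex.normSq_nonneg (1 + u)),
      abs_of_nonneg (by linarith [chi_le_one v] : 0 ≤ 1 - chi v), abs_sub_comm]
    have i1 : |chi u - chi v| * Complex.normSq (1 + u) ≤ (M * ‖u - v‖) * 3 :=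
      mul_le_mul hlip hNu (Complex.normSq_nonneg _) (by positivity)
    have i2 : (1 - chi v) * |Complex.normSq (1 + u) - Complex.normSq (1 + v)| ≤ 1 * (4 * ‖u - v‖) :=
      mul_le_mul (by linarith [chi_nonneg v]) hNuv (abs_nonneg _) (by norm_num)
    nlinarith
  rw [e0, abs_mul, abs_of_nonneg (sq_nonneg e)]
  have e2 := P.e1
  have e3 : e ^ 2 * (7 * M * ‖u - v‖) ≤ 7 / 4000 * ‖u - v‖ := by
    have : (e ^ 2 * M) * (7 * ‖u - v‖) ≤ 1 / 4000 * (7 * ‖u - v‖) :=
      mul_le_mul_of_nonneg_right e2 (by positivity)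
    nlinarith
  have e4 : e ^ 2 * |(1 - chi u) * Complex.normSq (1 + u) - (1 - chi v) * Complex.normSq (1 + v)| ≤
      e ^ 2 * (7 * M * ‖u - v‖) := mul_le_mul_of_nonneg_left e1 (sq_nonneg e)
  linarith

lemma norm_F2_le (P : Par M h b e) {u : ℂ} (hu : h ≤ ‖u‖) (hu1 : ‖u‖ ≤ 5 / 8) :
    ‖F2 h u‖ ≤ 4 := by
  have hh := P.h0
  have h1 := P.h_le
  rw [F2_eq']
  have e1 := norm_E2_le hh h1 hu
  have e2 : ‖(chi u : ℂ) * E2 h u‖ ≤ 3 * h := by
    rw [norm_mul, Complex.norm_real, Real.norm_of_nonneg (chi_nonneg u)]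
    calc chi u * ‖E2 h u‖ ≤ 1 * ‖E2 h u‖ :=
          mul_le_mul_of_nonneg_right (chi_le_one u) (norm_nonneg _)
      _ ≤ _ := by rw [one_mul]; exact e1
  have e3 : ‖(1 + u) ^ 2‖ ≤ 3 := by
    rw [norm_pow]
    have := norm_add_le (1 : ℂ) u
    rw [norm_one] at this
    nlinarith [norm_nonneg (1 + u)]
  have := norm_add_le ((1 + u) ^ 2) ((chi u : ℂ) * E2 h u)
  linarith

/-- The second affine coordinate determines `u`. -/
lemma T_inj (P : Par M h b e) {u v : ℂ} (hu : h ≤ ‖u‖) (hv : h ≤ ‖v‖) (hu1 : ‖u‖ ≤ 5 / 8)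
    (hv1 : ‖v‖ ≤ 5 / 8) (huv : F2 h u / F0 e u = F2 h v / F0 e v) : u = v := by
  have hh := P.h0
  rw [div_eq_div_iff (F0_ne e u) (F0_ne e v)] at huv
  have e1 : (F2 h u - F2 h v) * (F0 e v : ℂ) = F2 h v * ((F0 e u - F0 e v : ℝ) : ℂ) := by
    push_cast
    linear_combination huv
  have e2 := congrArg norm e1
  rw [norm_mul, norm_mul, Complex.norm_real, Complex.norm_real,
    Real.norm_of_nonneg (by linarith [F0_ge e v]), Real.norm_eq_abs] at e2
  have e3 := F2_sub P hu hv hu1 hv1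
  have e4 := F0_sub P hu hv hu1 hv1
  have e5 := norm_F2_le P hv hv1
  have e6 := F0_ge e v
  have e7 : ‖F2 h v‖ * |F0 e u - F0 e v| ≤ 4 * (1 / 100 * ‖qq h u - qq h v‖) :=
    mul_le_mul e5 e4 (abs_nonneg _) (by norm_num)
  have e8 : ‖F2 h u - F2 h v‖ * 1 ≤ ‖F2 h u - F2 h v‖ * F0 e v :=
    mul_le_mul_of_nonneg_left e6 (norm_nonneg _)
  have e9 : ‖qq h u - qq h v‖ = 0 := by
    have := norm_nonneg (qq h u - qq h v)
    linarith
  exact qq_inj hh hu hv (sub_eq_zero.1 (norm_eq_zero.1 e9))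

lemma log8 : Real.log 8 ≤ 3 := by
  have : Real.log 8 = 3 * Real.log 2 := by
    rw [show (8 : ℝ) = 2 ^ 3 by norm_num, Real.log_pow]; norm_num
  have h2 := Real.log_two_lt_d9
  linarith

/-- The key estimate for the neck. -/
lemma neck_pos (P : Par M h b e) {r : ℝ} (hr : h < r) (hr1 : r ≤ 1 / 8) :
    r - h ^ 2 / r < 1 + b * Real.log r := by
  have hh := P.h0
  have h1 := P.h_le
  have hb := P.b_le
  have hb0 := P.b0
  have hrpos : 0 < r := by linarith
  set s := Real.log (r / h) with hs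
  set s1 := Real.log (1 / (8 * h)) with hs1
  have hs0 : 0 < s := Real.log_pos (by rw [lt_div_iff₀ hh]; linarith)
  have hss1 : s ≤ s1 := by
    apply Real.log_le_log (by positivity)
    rw [div_le_div_iff₀ hh (by positivity)]
    nlinarith
  have hs10 : 0 < s1 := lt_of_lt_of_le hs0 hss1
  have hes : Real.exp s = r / h := Real.exp_log (by positivity)
  have hes1 : Real.exp s1 = 1 / (8 * h) := Real.exp_log (by positivity)
  -- convexity of exp
  have hconv : Real.exp s ≤ 1 + (s / s1) * (Real.exp s1 - 1) := by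
    have i1 : (0 : ℝ) ≤ 1 - s / s1 := by
      have : s / s1 ≤ 1 := (div_le_one hs10).2 hss1
      linarith
    have i2 : (0 : ℝ) ≤ s / s1 := by positivity
    have i3 : (1 - s / s1) + s / s1 = 1 := by ring
    have hc := convexOn_exp.2 (mem_univ (0 : ℝ)) (mem_univ s1) i1 i2 i3
    simp only [smul_eq_mul, mul_zero, zero_add, Real.exp_zero, mul_one] at hc
    have e1 : s / s1 * s1 = s := by field_simp
    rw [e1] at hc
    linarith
  have hneg : 1 - s ≤ Real.exp (-s) := by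
    have := Real.add_one_le_exp (-s)
    linarith
  have hens : Real.exp (-s) = h / r := by
    rw [Real.exp_neg, hes, inv_div]
  -- left-hand side
  have hL : r - h ^ 2 / r = h * (Real.exp s - Real.exp (-s)) := by
    rw [hes, hens]; field_simp
  have hR : 1 + b * Real.log r = b * s := by
    have e1 : s = Real.log r - Real.log h := by rw [hs, Real.log_div hrpos.ne' hh.ne']
    rw [e1, mul_sub, P.bh]; ring
  have hR1 : b * s1 = 1 - b * Real.log 8 := by
    have e1 : s1 = -(Real.log 8 + Real.log h) := by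
      rw [hs1, one_div, Real.log_inv, Real.log_mul (by norm_num) hh.ne']
    rw [e1]
    have := P.bh
    linarith
  have hhs1 : h * s1 ≤ 1 / 8 := by
    have e1 : s1 ≤ 1 / (8 * h) - 1 := by
      have := Real.log_le_sub_one_of_pos (x := 1 / (8 * h)) (by positivity)
      exact this
    have e2 : h * s1 ≤ h * (1 / (8 * h) - 1) := mul_le_mul_of_nonneg_left e1 hh.le
    have e3 : h * (1 / (8 * h) - 1) = 1 / 8 - h := by field_simp
    linarith
  rw [hL, hR]
  set t := s / s1 with ht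
  have ht0 : 0 < t := by positivity
  have hst : s = t * s1 := by rw [ht]; field_simp
  have e1 : h * (Real.exp s - Real.exp (-s)) ≤ t * (1 / 8 - h) + t * (h * s1) := by
    have e2 : Real.exp s - Real.exp (-s) ≤ t * (Real.exp s1 - 1) + s := by linarith
    have e3 : h * (Real.exp s - Real.exp (-s)) ≤ h * (t * (Real.exp s1 - 1) + s) :=
      mul_le_mul_of_nonneg_left e2 hh.le
    have e4 : h * (t * (Real.exp s1 - 1) + s) = t * (1 / 8 - h) + t * (h * s1) := by
      rw [hes1, hst]; field_simp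
    linarith
  have e5 : b * s = t * (1 - b * Real.log 8) := by rw [hst, ← hR1]; ring
  rw [e5]
  have e6 : b * Real.log 8 ≤ 3 / 1000 := by
    have := log8
    nlinarith
  have e7 : t * (1 / 8 - h) + t * (h * s1) ≤ t * (1 / 4) := by nlinarith
  have e8 : t * (1 / 4) < t * (1 - b * Real.log 8) := mul_lt_mul_of_pos_left (by linarith) ht0
  linarith

lemma F1_small (h b : ℝ) {u : ℂ} (hu0 : u ≠ 0) (hu : ‖u‖ ≤ 1 / 8) : F1 h b u =
    ((1 + b * Real.log ‖u‖ : ℝ) : ℂ) + ((1 - h ^ 2 / ‖u‖ ^ 2 : ℝ) : ℂ) * u := by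
  have h1 := inv_conj u hu0
  unfold F1
  rw [chi_eq_one hu]
  rw [show ((1 : ℝ) : ℂ) / conj u = 1 / conj u by push_cast; rfl, h1]
  push_cast
  ring

lemma F1_eq_zero (P : Par M h b e) {u : ℂ} (hu : ‖u‖ = h) : F1 h b u = 0 := by
  have hh := P.h0
  have h1 := P.h_le
  have hu0 : u ≠ 0 := norm_pos_iff.1 (by rw [hu]; exact hh)
  rw [F1_small h b hu0 (by linarith), hu, P.bh]
  have : h ^ 2 / h ^ 2 = 1 := div_self (by positivity)
  rw [this]
  simp

/-- The first component does not vanish outside of the waist. -/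
lemma F1_ne (P : Par M h b e) {u : ℂ} (hu : h < ‖u‖) (hu1 : ‖u‖ ≤ 5 / 8) : F1 h b u ≠ 0 := by
  have hh := P.h0
  have h1 := P.h_le
  have hb := P.b_le
  have hb0 := P.b0
  have hpos : 0 < ‖u‖ := by linarith
  have hu0 : u ≠ 0 := norm_pos_iff.1 hpos
  intro h0
  by_cases hu8 : ‖u‖ ≤ 1 / 8
  · rw [F1_small h b hu0 hu8] at h0
    have e1 := neck_pos P hu hu8
    have e2 : ((1 + b * Real.log ‖u‖ : ℝ) : ℂ) = -(((1 - h ^ 2 / ‖u‖ ^ 2 : ℝ) : ℂ) * u) := by
      linear_combination h0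
    have e3 := congrArg norm e2
    have e4 : 0 ≤ 1 - h ^ 2 / ‖u‖ ^ 2 := by
      rw [sub_nonneg, div_le_one (by positivity)]
      exact pow_le_pow_left₀ hh.le hu.le 2
    rw [norm_neg, norm_mul, Complex.norm_real, Complex.norm_real, Real.norm_of_nonneg e4,
      Real.norm_eq_abs] at e3
    have e5 : (1 - h ^ 2 / ‖u‖ ^ 2) * ‖u‖ = ‖u‖ - h ^ 2 / ‖u‖ := by field_simp
    rw [e5] at e3
    have := le_abs_self (1 + b * Real.log ‖u‖)
    linarith
  · push Not at hu8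
    have e1 : -Real.log 8 ≤ Real.log ‖u‖ := by
      rw [← Real.log_inv]
      exact Real.log_le_log (by norm_num) (by norm_num; linarith)
    have e2 : Real.log ‖u‖ ≤ 0 := Real.log_nonpos (norm_nonneg _) (by linarith)
    have e3 := log8
    have e4 : ‖(b : ℂ) * ((chi u * Real.log ‖u‖ : ℝ) : ℂ)‖ ≤ 3 / 1000 := by
      rw [norm_mul, Complex.norm_real, Complex.norm_real, Real.norm_of_nonneg hb0.le,
        Real.norm_eq_abs, abs_mul, abs_of_nonneg (chi_nonneg u), abs_of_nonpos e2]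
      have : chi u * -Real.log ‖u‖ ≤ 1 * 3 :=
        mul_le_mul (chi_le_one u) (by linarith) (by linarith) (by norm_num)
      nlinarith [chi_nonneg u]
    have e5 : ‖(h : ℂ) ^ 2 * (chi u / conj u)‖ ≤ 1 / 100 := by
      rw [norm_mul, norm_pow, norm_div, Complex.norm_real, Complex.norm_real, Complex.norm_conj,
        Real.norm_of_nonneg hh.le, Real.norm_of_nonneg (chi_nonneg u)]
      have : chi u / ‖u‖ ≤ 8 := by
        rw [div_le_iff₀ hpos]; nlinarith [chi_le_one u]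
      have h0' : 0 ≤ chi u / ‖u‖ := div_nonneg (chi_nonneg u) hpos.le
      nlinarith
    have e6 : (1 : ℂ) = -u - b * ((chi u * Real.log ‖u‖ : ℝ) : ℂ) + h ^ 2 * (chi u / conj u) := by
      unfold F1 at h0
      linear_combination h0
    have e7 := congrArg norm e6
    rw [norm_one] at e7
    have e8 : ‖-u - b * ((chi u * Real.log ‖u‖ : ℝ) : ℂ) + h ^ 2 * (chi u / conj u)‖ ≤
        ‖u‖ + ‖(b : ℂ) * ((chi u * Real.log ‖u‖ : ℝ) : ℂ)‖ + ‖(h : ℂ) ^ 2 * (chi u / conj u)‖ := by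
      refine (norm_add_le _ _).trans ?_
      have := norm_sub_le (-u) ((b : ℂ) * ((chi u * Real.log ‖u‖ : ℝ) : ℂ))
      rw [norm_neg] at this
      linarith
    linarith

/-- Injectivity of the half handle. -/
lemma ff_inj (P : Par M h b e) {u v : ℂ} (hu : h ≤ ‖u‖) (hv : h ≤ ‖v‖) (hu1 : ‖u‖ ≤ 5 / 8)
    (hv1 : ‖v‖ ≤ 5 / 8) (huv : ff h b e u = ff h b e v) : u = v :=
  T_inj P hu hv hu1 hv1 (congrArg Prod.snd huv)

lemma ff_sg (P : Par M h b e) {u v : ℂ} (hu : h ≤ ‖u‖) (hv : h ≤ ‖v‖) (hu1 : ‖u‖ ≤ 5 / 8)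
    (hv1 : ‖v‖ ≤ 5 / 8) (huv : ff h b e u = sg (ff h b e v)) : u = v ∧ ‖u‖ = h := by
  have h1 : u = v := T_inj P hu hv hu1 hv1 (congrArg Prod.snd huv)
  refine ⟨h1, ?_⟩
  by_contra hne
  have hlt : h < ‖u‖ := lt_of_le_of_ne hu (Ne.symm hne)
  have h2 := congrArg Prod.fst huv
  simp only [sg, ff] at h2
  rw [← h1] at h2
  have h3 : F1 h b u = 0 := by
    have h4 : F1 h b u / (F0 e u : ℂ) = 0 := by
      have : (2 : ℂ) * (F1 h b u / (F0 e u : ℂ)) = 0 := by linear_combination h2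
      simpa using this
    rcases div_eq_zero_iff.1 h4 with h5 | h5
    · exact h5
    · exact absurd h5 (F0_ne e u)
  exact F1_ne P hlt hu1 h3

lemma ff_waist (P : Par M h b e) {u : ℂ} (hu : ‖u‖ = h) : sg (ff h b e u) = ff h b e u := by
  unfold sg ff
  simp [F1_eq_zero P hu]

/-- A point of the handle which lies on the remaining part of the Veronese surface. -/
lemma ff_ver (P : Par M h b e) {u : ℂ} (hu : h ≤ ‖u‖) {p : ℂ × ℝ}
    (hp : p ≠ 0) (hp1 : 3 / 8 * (e * |p.2|) ≤ ‖p.1 - e * p.2‖)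
    (hp2 : 3 / 8 * (e * |p.2|) ≤ ‖p.1 + e * p.2‖) (hup : ff h b e u = ver e p) :
    1 / 4 ≤ ‖u‖ ∧ p.2 ≠ 0 ∧ p.1 = (e : ℂ) * (1 + u) * p.2 := by
  have hh := P.h0
  have h1 := P.h_le
  have he := P.e0
  have he2 := P.e_le
  have hec : (e : ℂ) ≠ 0 := Complex.ofReal_ne_zero.2 he.ne'
  have hu4 : 1 / 4 ≤ ‖u‖ := by
    by_contra hlt
    push Not at hlt
    have hT := congrArg Prod.snd hup
    simp only [ff] at hT
    have hF0 := F0_ge e u
    -- size of F2
    have hE := norm_E2_le hh h1 hu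
    have hE' : ‖(chi u : ℂ) * E2 h u‖ ≤ 3 * h := by
      rw [norm_mul, Complex.norm_real, Real.norm_of_nonneg (chi_nonneg u)]
      calc chi u * ‖E2 h u‖ ≤ 1 * ‖E2 h u‖ :=
            mul_le_mul_of_nonneg_right (chi_le_one u) (norm_nonneg _)
        _ ≤ _ := by rw [one_mul]; exact hE
    have hsq : ‖(1 + u) ^ 2‖ ≤ 16 / 10 := by
      rw [norm_pow]
      have := norm_add_le (1 : ℂ) u
      rw [norm_one] at this
      nlinarith [norm_nonneg (1 + u)]
    have hF2 : ‖F2 h u‖ ≤ 17 / 10 := by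
      rw [F2_eq']
      have := norm_add_le ((1 + u) ^ 2) ((chi u : ℂ) * E2 h u)
      linarith
    by_cases hz : p.2 = 0
    · -- the equator
      have hn : nn p = ‖p.1‖ ^ 2 := by
        unfold nn; rw [hz, Complex.normSq_eq_norm_sq]; ring
      have hnp := nn_pos hp
      have e1 := congrArg norm hT
      have e2 : ‖(ver e p).2‖ = 1 / e ^ 2 := by
        unfold ver
        simp only
        rw [norm_div, norm_pow, Complex.norm_real, Real.norm_of_nonneg (by positivity), ← hn]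
        field_simp
      rw [e2, norm_div, Complex.norm_real, Real.norm_of_nonneg (by linarith)] at e1
      have e3 : ‖F2 h u‖ / F0 e u ≤ 17 / 10 := by
        rw [div_le_iff₀ (by linarith)]; nlinarith
      have e4 : (400 : ℝ) ≤ 1 / e ^ 2 := by
        rw [le_div_iff₀ (by positivity)]; linarith
      linarith
    · -- the main case
      have hzc : (p.2 : ℂ) ≠ 0 := Complex.ofReal_ne_zero.2 hz
      set w : ℂ := p.1 / (e * p.2) with hw
      have hpw : p.1 = (e : ℂ) * w * p.2 := by rw [hw]; field_simp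
      have hver := vc_of_eq hz hpw
      rw [hver, ver_vc he.ne'] at hT
      simp only at hT
      have hz' : 0 < |p.2| := abs_pos.2 hz
      have hw1 : 3 / 8 ≤ ‖w - 1‖ := by
        have e1 : p.1 - e * p.2 = (e * p.2) * (w - 1) := by rw [hpw]; ring
        rw [e1, norm_mul, norm_mul, Complex.norm_real, Complex.norm_real,
          Real.norm_of_nonneg he.le, Real.norm_eq_abs] at hp1
        have e2 : (e * |p.2|) * (3 / 8) ≤ (e * |p.2|) * ‖w - 1‖ := by linarith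
        exact le_of_mul_le_mul_left e2 (by positivity)
      have hw2 : 3 / 8 ≤ ‖w + 1‖ := by
        have e1 : p.1 + e * p.2 = (e * p.2) * (w + 1) := by rw [hpw]; ring
        rw [e1, norm_mul, norm_mul, Complex.norm_real, Complex.norm_real,
          Real.norm_of_nonneg he.le, Real.norm_eq_abs] at hp2
        have e2 : (e * |p.2|) * (3 / 8) ≤ (e * |p.2|) * ‖w + 1‖ := by linarith
        exact le_of_mul_le_mul_left e2 (by positivity)
      set N : ℝ := 1 + e ^ 2 * Complex.normSq w with hN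
      have hN1 : 1 ≤ N := by
        have := Complex.normSq_nonneg w
        nlinarith [sq_nonneg e]
      have hNc : (N : ℂ) ≠ 0 := Complex.ofReal_ne_zero.2 (by linarith)
      have hmul : w ^ 2 * (F0 e u : ℂ) = F2 h u * (N : ℂ) := by
        rw [div_eq_div_iff (F0_ne e u) hNc] at hT
        linear_combination -hT
      -- bound of w
      have hwn : Complex.normSq w ≤ 18 / 10 := by
        have e1 := congrArg norm hmul
        rw [norm_mul, norm_mul, norm_pow, Complex.norm_real, Complex.norm_real,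
          Real.norm_of_nonneg (by linarith : 0 ≤ F0 e u), Real.norm_of_nonneg (by linarith : 0 ≤ N),
          ← Complex.normSq_eq_norm_sq] at e1
        have e2 : Complex.normSq w * 1 ≤ Complex.normSq w * F0 e u :=
          mul_le_mul_of_nonneg_left hF0 (Complex.normSq_nonneg _)
        have e3 : ‖F2 h u‖ * N ≤ 17 / 10 * N := mul_le_mul_of_nonneg_right hF2 (by linarith)
        have e4 : Complex.normSq w ≤ 17 / 10 * (1 + e ^ 2 * Complex.normSq w) := by
          rw [← hN]; linarith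
        have e5 : e ^ 2 * Complex.normSq w ≤ 1 / 4000 * Complex.normSq w :=
          mul_le_mul_of_nonneg_right he2 (Complex.normSq_nonneg _)
        linarith
      have hN2 : N ≤ 1 + 1 / 2000 := by
        rw [hN]
        nlinarith [Complex.normSq_nonneg w, sq_nonneg e]
      have hF02 : F0 e u ≤ 1 + 1 / 2000 := by
        unfold F0
        have i1 : Complex.normSq (1 + u) ≤ 2 := by
          rw [Complex.normSq_eq_norm_sq]
          rw [norm_pow] at hsq
          linarith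
        have i2 : (1 - chi u) * Complex.normSq (1 + u) ≤ 1 * 2 :=
          mul_le_mul (by linarith [chi_nonneg u]) i1 (Complex.normSq_nonneg _) (by norm_num)
        nlinarith [sq_nonneg e]
      -- the difference
      have hdiff : (w ^ 2 - (1 + u) ^ 2) * (F0 e u : ℂ) =
          ((chi u : ℂ) * E2 h u) * (N : ℂ) + (1 + u) ^ 2 * ((N - F0 e u : ℝ) : ℂ) := by
        rw [F2_eq'] at hmul
        push_cast
        linear_combination hmul
      have e1 := congrArg norm hdiff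
      rw [norm_mul, Complex.norm_real, Real.norm_of_nonneg (by linarith : 0 ≤ F0 e u)] at e1
      have e2 : ‖((chi u : ℂ) * E2 h u) * (N : ℂ) + (1 + u) ^ 2 * ((N - F0 e u : ℝ) : ℂ)‖ ≤
          3 * h * 2 + 16 / 10 * (1 / 2000) := by
        refine (norm_add_le _ _).trans ?_
        rw [norm_mul, norm_mul ((1 + u) ^ 2), Complex.norm_real, Complex.norm_real,
          Real.norm_of_nonneg (by linarith : 0 ≤ N), Real.norm_eq_abs]
        have i1 : ‖(chi u : ℂ) * E2 h u‖ * N ≤ 3 * h * 2 :=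
          mul_le_mul hE' (by linarith) (by linarith) (by linarith)
        have i2 : |N - F0 e u| ≤ 1 / 2000 := by
          rw [abs_le]; constructor <;> linarith
        have i3 : ‖(1 + u) ^ 2‖ * |N - F0 e u| ≤ 16 / 10 * (1 / 2000) :=
          mul_le_mul hsq i2 (abs_nonneg _) (by norm_num)
        linarith
      have e3 : ‖w ^ 2 - (1 + u) ^ 2‖ ≤ 3 * h * 2 + 16 / 10 * (1 / 2000) := by
        have : ‖w ^ 2 - (1 + u) ^ 2‖ * 1 ≤ ‖w ^ 2 - (1 + u) ^ 2‖ * F0 e u :=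
          mul_le_mul_of_nonneg_left hF0 (norm_nonneg _)
        linarith
      have e4 : 1 / 64 ≤ ‖w ^ 2 - (1 + u) ^ 2‖ := by
        rw [sq_sub_sq, norm_mul]
        have i1 : 1 / 8 ≤ ‖w + (1 + u)‖ := by
          have := norm_sub_norm_le (w + 1) (-u)
          rw [norm_neg, sub_neg_eq_add, add_assoc] at this
          linarith
        have i2 : 1 / 8 ≤ ‖w - (1 + u)‖ := by
          have := norm_sub_norm_le (w - 1) u
          rw [sub_sub] at this
          linarith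
        nlinarith
      linarith
  refine ⟨hu4, ?_⟩
  rw [ff_eq_ver he.ne' hu4] at hup
  exact eq_vc he hp hup.symm

lemma ff_sg_ver (P : Par M h b e) {u : ℂ} (hu : h ≤ ‖u‖) {p : ℂ × ℝ}
    (hp : p ≠ 0) (hp1 : 3 / 8 * (e * |p.2|) ≤ ‖p.1 - e * p.2‖)
    (hp2 : 3 / 8 * (e * |p.2|) ≤ ‖p.1 + e * p.2‖) (hup : sg (ff h b e u) = ver e p) :
    1 / 4 ≤ ‖u‖ ∧ p.2 ≠ 0 ∧ p.1 = (e : ℂ) * (-(1 + u)) * p.2 := by
  -- reflect the point
  have h1 : ff h b e u = ver e (-p.1, p.2) := by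
    have : ver e (-p.1, p.2) = sg (ver e p) := by
      have hn : nn (-p.1, p.2) = nn p := by simp [nn]
      unfold ver sg
      rw [hn]
      simp only [mul_neg, even_two, Even.neg_pow, neg_div]
    rw [this, ← hup]
    simp [sg]
  have hne : ((-p.1, p.2) : ℂ × ℝ) ≠ 0 := by
    intro h0
    apply hp
    have e1 := congrArg Prod.fst h0
    have e2 := congrArg Prod.snd h0
    simp only [Prod.fst_zero, neg_eq_zero, Prod.snd_zero] at e1 e2
    exact Prod.ext e1 e2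
  have h2 := ff_ver P hu hne (by
    simp only
    rw [show -p.1 - (e : ℂ) * p.2 = -(p.1 + e * p.2) by ring, norm_neg]; exact hp2) (by
    simp only
    rw [show -p.1 + (e : ℂ) * p.2 = -(p.1 - e * p.2) by ring, norm_neg]; exact hp1) h1
  obtain ⟨i1, i2, i3⟩ := h2
  simp only at i2 i3
  refine ⟨i1, i2, ?_⟩
  linear_combination -i3

end Pool.Agent.Lib.MP_6a9e1f_gt
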