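import Mathlib
import Pool.Agent.Lib.MP_6a9e1f_gt.Inj

/-!
Second order jets along lines, and the absence of local maxima in the transition region.
-/

namespace Pool.Agent.Lib.MP_6a9e1f_gt

open ComplexConjugate Set Filter Topology
open scoped ContDiff

variable {E E' : Type*} [NormedAddCommGroup E] [NormedSpace ℝ E]
  [NormedAddCommGroup E'] [NormedSpace ℝ E']

/-- `D v` and `Q v` are the first and second derivatives of `t ↦ g (u + t v)` at `0`. -/
def Jet2 (g : ℂ → E) (u : ℂ) (D Q : ℂ → E) : Prop :=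
  ∀ v : ℂ, ∃ ψ' : ℝ → E, (∀ᶠ t : ℝ in 𝓝 0, HasDerivAt (fun t : ℝ => g (u + t • v)) (ψ' t) t) ∧
    ψ' 0 = D v ∧ HasDerivAt ψ' (Q v) 0

lemma Jet2.const (c : E) (u : ℂ) : Jet2 (fun _ => c) u (fun _ => 0) (fun _ => 0) := by
  intro v
  exact ⟨fun _ => 0, Eventually.of_forall fun t => hasDerivAt_const t c, rfl, hasDerivAt_const 0 0⟩

lemma Jet2.add {g g' : ℂ → E} {u : ℂ} {D Q D' Q' : ℂ → E} (h : Jet2 g u D Q)
    (h' : Jet2 g' u D' Q') :
    Jet2 (fun x => g x + g' x) u (fun v => D v + D' v) (fun v => Q v + Q' v) := by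
  intro v
  obtain ⟨ψ, h1, h2, h3⟩ := h v
  obtain ⟨ψ', h1', h2', h3'⟩ := h' v
  refine ⟨fun t => ψ t + ψ' t, ?_, by simp only [h2, h2'], h3.add h3'⟩
  filter_upwards [h1, h1'] with t ht ht'
  exact ht.add ht'

lemma Jet2.clm {g : ℂ → E} {u : ℂ} {D Q : ℂ → E} (h : Jet2 g u D Q) (L : E →L[ℝ] E') :
    Jet2 (fun x => L (g x)) u (fun v => L (D v)) (fun v => L (Q v)) := by
  intro v
  obtain ⟨ψ, h1, h2, h3⟩ := h v
  refine ⟨fun t => L (ψ t), ?_, by simp only [h2], L.hasFDerivAt.comp_hasDerivAt 0 h3⟩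
  filter_upwards [h1] with t ht
  exact L.hasFDerivAt.comp_hasDerivAt t ht

lemma hasDerivAt_line (u v : ℂ) (t : ℝ) : HasDerivAt (fun t : ℝ => u + t • v) v t := by
  have h1 : HasDerivAt (fun t : ℝ => t • v) ((1 : ℝ) • v) t := (hasDerivAt_id t).smul_const v
  rw [one_smul] at h1
  simpa using h1.const_add u

lemma Jet2.of_contDiffAt {g : ℂ → E} {u : ℂ} (hg : ContDiffAt ℝ 2 g u) :
    Jet2 g u (fun v => fderiv ℝ g u v) (fun v => fderiv ℝ (fderiv ℝ g) u v v) := by
  intro v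
  have hcont : Tendsto (fun t : ℝ => u + t • v) (𝓝 0) (𝓝 u) := by
    have := (hasDerivAt_line u v 0).continuousAt
    simpa [ContinuousAt] using this
  have hev : ∀ᶠ x in 𝓝 u, DifferentiableAt ℝ g x := by
    have h1 : ∀ᶠ x in 𝓝 u, ContDiffAt ℝ 1 g x := by
      exact (hg.of_le one_le_two).eventually (by simp)
    filter_upwards [h1] with x hx
    exact hx.differentiableAt (by simp)
  refine ⟨fun t => fderiv ℝ g (u + t • v) v, ?_, by simp, ?_⟩
  · filter_upwards [hcont.eventually hev] with t ht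
    exact ht.hasFDerivAt.comp_hasDerivAt t (hasDerivAt_line u v t)
  · have h2 : DifferentiableAt ℝ (fderiv ℝ g) u := by
      have : ContDiffAt ℝ 1 (fderiv ℝ g) u := hg.fderiv_right (m := 1) (by norm_num)
      exact this.differentiableAt (by simp)
    have h3 : HasDerivAt (fun t : ℝ => fderiv ℝ g (u + t • v)) (fderiv ℝ (fderiv ℝ g) u v) 0 := by
      have h4 : HasFDerivAt (fderiv ℝ g) (fderiv ℝ (fderiv ℝ g) u) (u + (0 : ℝ) • v) := by
        rw [zero_smul, add_zero]; exact h2.hasFDerivAt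
      exact h4.comp_hasDerivAt 0 (hasDerivAt_line u v 0)
    exact h3.clm_apply (hasDerivAt_const 0 v) |>.congr_deriv (by simp)

/-- The square of an affine function. -/
lemma Jet2.sq (u : ℂ) : Jet2 (fun x : ℂ => (1 + x) ^ 2) u (fun v => 2 * ((1 + u) * v))
    (fun v => 2 * v ^ 2) := by
  intro v
  refine ⟨fun t => 2 * ((1 + (u + t • v)) * v), ?_, by simp, ?_⟩
  · apply Eventually.of_forall
    intro t
    have h1 := ((hasDerivAt_line u v t).const_add 1).pow 2
    refine h1.congr_deriv ?_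
    simp only [Nat.cast_ofNat, Nat.reduceSub, pow_one]
    ring
  · have h1 := (((hasDerivAt_line u v 0).const_add 1).mul_const v).const_mul 2
    refine h1.congr_deriv ?_
    ring

lemma Jet2.affine (u : ℂ) : Jet2 (fun x : ℂ => 1 + x) u (fun v => v) (fun _ => 0) := by
  intro v
  refine ⟨fun _ => v, ?_, rfl, hasDerivAt_const 0 v⟩
  apply Eventually.of_forall
  intro t
  exact (hasDerivAt_line u v t).const_add 1

lemma Jet2.localMax {H : ℂ → ℝ} {u : ℂ} {D Q : ℂ → ℝ} (h : Jet2 H u D Q) (hmax : IsLocalMax H u) :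
    ∀ v, D v = 0 ∧ Q v ≤ 0 := by
  intro v
  obtain ⟨ψ', h1, h2, h3⟩ := h v
  set ψ : ℝ → ℝ := fun t => H (u + t • v) with hψ
  have hcont : Tendsto (fun t : ℝ => u + t • v) (𝓝 0) (𝓝 u) := by
    have := (hasDerivAt_line u v 0).continuousAt
    simpa [ContinuousAt] using this
  have hmaxψ : IsLocalMax ψ 0 := by
    have h4 := hcont.eventually hmax
    rw [IsLocalMax, IsMaxFilter]
    filter_upwards [h4] with t ht
    simpa [hψ] using ht
  have hd : deriv ψ =ᶠ[𝓝 0] ψ' := by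
    filter_upwards [h1] with t ht
    exact ht.deriv
  have hD : D v = 0 := by
    rw [← h2, ← hd.eq_of_nhds]
    exact hmaxψ.deriv_eq_zero
  refine ⟨hD, ?_⟩
  by_contra hQ
  push Not at hQ
  have hdd : deriv (deriv ψ) 0 = Q v := by
    rw [hd.deriv_eq]; exact h3.deriv
  have hmin : IsLocalMin ψ 0 := by
    apply isLocalMin_of_deriv_deriv_pos
    · rw [hdd]; exact hQ
    · exact hmaxψ.deriv_eq_zero
    · exact (h1.self_of_nhds).continuousAt
  have hconst : ψ =ᶠ[𝓝 0] fun _ => ψ 0 := by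
    filter_upwards [hmaxψ, hmin] with t h5 h6
    exact le_antisymm h5 h6
  have hd0 : deriv ψ =ᶠ[𝓝 0] fun _ => 0 := by
    have := hconst.deriv
    filter_upwards [this] with t ht
    rw [ht]; simp
  have : deriv (deriv ψ) 0 = 0 := by
    rw [hd0.deriv_eq]; simp
  rw [hdd] at this
  linarith

/-! ### The four fixed functions -/

noncomputable def g0 (u : ℂ) : ℝ := (1 - chi u) * Complex.normSq (1 + u)
noncomputable def g1 (u : ℂ) : ℂ := ((chi u * Real.log ‖u‖ : ℝ) : ℂ)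
noncomputable def g2 (u : ℂ) : ℂ := chi u / conj u
noncomputable def g3 (u : ℂ) : ℂ := chi u / conj u ^ 2

lemma contDiff_chi' : ContDiff ℝ ∞ chi := contDiff_chi

lemma contDiff_g0 : ContDiff ℝ ∞ g0 := by
  unfold g0
  exact (contDiff_const.sub contDiff_chi').mul
    ((contDiff_normSq.of_le le_top).comp (contDiff_const.add contDiff_id))

lemma contDiffAt_g1 {u : ℂ} (hu : u ≠ 0) : ContDiffAt ℝ ∞ g1 u := by
  unfold g1
  have h1 : ContDiffAt ℝ ∞ (fun u : ℂ => Real.log ‖u‖) u :=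
    (contDiffAt_norm ℝ hu).log (norm_ne_zero_iff.2 hu)
  exact Complex.ofRealCLM.contDiff.contDiffAt.comp u (contDiff_chi'.contDiffAt.mul h1)

lemma contDiffAt_div' {G : Type*} [NormedAddCommGroup G] [NormedSpace ℝ G] {n : WithTop ℕ∞}
    {f g : G → ℂ} {x : G} (hf : ContDiffAt ℝ n f x) (hg : ContDiffAt ℝ n g x) (hx : g x ≠ 0) :
    ContDiffAt ℝ n (fun y => f y / g y) x := by
  simp only [div_eq_mul_inv]
  exact hf.mul (hg.inv hx)

lemma contDiff_conj : ContDiff ℝ ∞ (fun u : ℂ => conj u) := Complex.conjCLE.contDiff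

lemma contDiffAt_g2 {u : ℂ} (hu : u ≠ 0) : ContDiffAt ℝ ∞ g2 u := by
  unfold g2
  have h1 : ContDiffAt ℝ ∞ (fun u : ℂ => (chi u : ℂ)) u :=
    Complex.ofRealCLM.contDiff.contDiffAt.comp u contDiff_chi'.contDiffAt
  have h2 : ContDiffAt ℝ ∞ (fun u : ℂ => conj u) u := contDiff_conj.contDiffAt
  refine contDiffAt_div' h1 h2 ?_
  simpa using hu

lemma contDiffAt_g3 {u : ℂ} (hu : u ≠ 0) : ContDiffAt ℝ ∞ g3 u := by
  unfold g3
  have h1 : ContDiffAt ℝ ∞ (fun u : ℂ => (chi u : ℂ)) u :=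
    Complex.ofRealCLM.contDiff.contDiffAt.comp u contDiff_chi'.contDiffAt
  have h2 : ContDiffAt ℝ ∞ (fun u : ℂ => conj u ^ 2) u := contDiff_conj.contDiffAt.pow 2
  refine contDiffAt_div' h1 h2 ?_
  simpa using hu

/-- Bound for the two-jet of a function on the compact annulus. -/
def JetBound (g : ℂ → E) (M : ℝ) : Prop :=
  ∀ u : ℂ, 1 / 16 ≤ ‖u‖ → ‖u‖ ≤ 5 / 8 →
    ‖g u‖ ≤ M ∧ ‖fderiv ℝ g u‖ ≤ M ∧ ‖fderiv ℝ (fderiv ℝ g) u‖ ≤ M

lemma JetBound.mono {g : ℂ → E} {M M' : ℝ} (h : JetBound g M) (hM : M ≤ M') : JetBound g M' := by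
  intro u h1 h2
  obtain ⟨a, b, c⟩ := h u h1 h2
  exact ⟨a.trans hM, b.trans hM, c.trans hM⟩

lemma exists_jetBound {g : ℂ → E} (hg : ∀ u : ℂ, u ≠ 0 → ContDiffAt ℝ ∞ g u) :
    ∃ M, JetBound g M := by
  set K : Set ℂ := {u : ℂ | 1 / 16 ≤ ‖u‖ ∧ ‖u‖ ≤ 5 / 8} with hK
  have hKc : IsCompact K := by
    apply (isCompact_closedBall (0 : ℂ) (5 / 8)).of_isClosed_subset
    · exact (isClosed_le continuous_const continuous_norm).inter
        (isClosed_le continuous_norm continuous_const)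
    · intro u hu
      rw [mem_closedBall_zero_iff]; exact hu.2
  have hK0 : ∀ u ∈ K, u ≠ 0 := fun u hu => norm_pos_iff.1 (by linarith [hu.1])
  have c1 : ContinuousOn g K := fun u hu => (hg u (hK0 u hu)).continuousAt.continuousWithinAt
  have d1 : ∀ u : ℂ, u ≠ 0 → ContDiffAt ℝ ∞ (fderiv ℝ g) u := fun u hu =>
    (hg u hu).fderiv_right (m := ∞) (by simp)
  have c2 : ContinuousOn (fderiv ℝ g) K := fun u hu =>
    (d1 u (hK0 u hu)).continuousAt.continuousWithinAt
  have d2 : ∀ u : ℂ, u ≠ 0 → ContDiffAt ℝ ∞ (fderiv ℝ (fderiv ℝ g)) u := fun u hu =>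
    (d1 u hu).fderiv_right (m := ∞) (by simp)
  have c3 : ContinuousOn (fderiv ℝ (fderiv ℝ g)) K := fun u hu =>
    (d2 u (hK0 u hu)).continuousAt.continuousWithinAt
  obtain ⟨M1, h1⟩ := hKc.exists_bound_of_continuousOn c1
  obtain ⟨M2, h2⟩ := hKc.exists_bound_of_continuousOn c2
  obtain ⟨M3, h3⟩ := hKc.exists_bound_of_continuousOn (E := ℂ →L[ℝ] ℂ →L[ℝ] E) c3
  refine ⟨max M1 (max M2 M3), fun u hu1 hu2 => ?_⟩
  have hu : u ∈ K := ⟨hu1, hu2⟩
  exact ⟨(h1 u hu).trans (le_max_left _ _),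
    (h2 u hu).trans ((le_max_left _ _).trans (le_max_right _ _)),
    (h3 u hu).trans ((le_max_right _ _).trans (le_max_right _ _))⟩

/-- All parameter conditions. -/
structure Par2 (M h b e : ℝ) : Prop extends Par M h b e where
  j0 : JetBound g0 M
  j1 : JetBound g1 M
  j2 : JetBound g2 M
  j3 : JetBound g3 M

/-- Existence of admissible parameters. -/
lemma exists_par : ∃ M h b e : ℝ, Par2 M h b e := by
  obtain ⟨ML, hML1, hML⟩ := exists_lipschitz_chi
  obtain ⟨M0, hM0⟩ := exists_jetBound (g := g0) (fun u _ => contDiff_g0.contDiffAt)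
  obtain ⟨M1, hM1⟩ := exists_jetBound (g := g1) (fun u hu => contDiffAt_g1 hu)
  obtain ⟨M2, hM2⟩ := exists_jetBound (g := g2) (fun u hu => contDiffAt_g2 hu)
  obtain ⟨M3, hM3⟩ := exists_jetBound (g := g3) (fun u hu => contDiffAt_g3 hu)
  set M : ℝ := max ML (max (max M0 M1) (max M2 M3)) with hM
  have hM1' : 1 ≤ M := hML1.trans (le_max_left _ _)
  have hMpos : 0 < M := by linarith
  set b : ℝ := 1 / (1000 * M) with hb
  have hbpos : 0 < b := by positivity
  set h : ℝ := Real.exp (-(1 / b)) with hh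
  have hinv : 1 / b = 1000 * M := by rw [hb, one_div_one_div]
  have hh1 : h * M ≤ 1 / 1000 := by
    have h1 : 1000 * M + 1 ≤ Real.exp (1000 * M) := Real.add_one_le_exp _
    have h2 : (1000 * M) ^ 2 / 2 ≤ Real.exp (1000 * M) := by
      have := Real.quadratic_le_exp_of_nonneg (x := 1000 * M) (by positivity)
      linarith [this, hMpos]
    have h3 : h = (Real.exp (1000 * M))⁻¹ := by rw [hh, hinv, Real.exp_neg]
    have h4 : h ≤ ((1000 * M) ^ 2 / 2)⁻¹ := by
      rw [h3]; exact inv_anti₀ (by positivity) h2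
    have h5 : h * M ≤ ((1000 * M) ^ 2 / 2)⁻¹ * M := mul_le_mul_of_nonneg_right h4 hMpos.le
    refine h5.trans ?_
    have h6 : ((1000 * M) ^ 2 / 2)⁻¹ * M = 1 / (500000 * M) := by field_simp; norm_num
    rw [h6]
    apply one_div_le_one_div_of_le (by norm_num)
    nlinarith
  refine ⟨M, h, b, Real.sqrt (1 / (4000 * M)), ?_⟩
  refine ⟨⟨hM1', ?_, Real.exp_pos _, hh1, hbpos, ?_, ?_, Real.sqrt_pos.2 (by positivity), ?_⟩,
    ?_, ?_, ?_, ?_⟩
  · intro u v
    exact (hML u v).trans (mul_le_mul_of_nonneg_right (le_max_left _ _) (norm_nonneg _))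
  · rw [hb]; apply le_of_eq; field_simp
  · rw [hh, Real.log_exp]; field_simp
  · rw [Real.sq_sqrt (by positivity)]; apply le_of_eq; field_simp
  · exact hM0.mono ((le_max_left _ _).trans ((le_max_left _ _).trans (le_max_right _ _)))
  · exact hM1.mono ((le_max_right _ _).trans ((le_max_left _ _).trans (le_max_right _ _)))
  · exact hM2.mono ((le_max_left _ _).trans ((le_max_right _ _).trans (le_max_right _ _)))
  · exact hM3.mono ((le_max_right _ _).trans ((le_max_right _ _).trans (le_max_right _ _)))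

end Pool.Agent.Lib.MP_6a9e1f_gt
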