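import Mathlib
import Pool.Agent.Lib.MP_6a9e1f_gt.Jet

/-!
No height function has a local maximum on the handle.
-/

namespace Pool.Agent.Lib.MP_6a9e1f_gt

open ComplexConjugate Set Filter Topology
open scoped ContDiff

variable {M h b e : ℝ}

/-- The real linear functional `x ↦ Re (conj α x)`. -/
noncomputable def reL (α : ℂ) : ℂ →L[ℝ] ℝ :=
  Complex.reCLM.comp ((ContinuousLinearMap.mul ℝ ℂ) (conj α))

lemma reL_apply (α x : ℂ) : reL α x = (conj α * x).re := rfl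

/-- The general affine function on `ℂ × ℂ`. -/
noncomputable def aff (c : ℝ) (α γ : ℂ) (x : ℂ × ℂ) : ℝ := c + (conj α * x.1).re + (conj γ * x.2).re

lemma F0_eq (e : ℝ) (u : ℂ) : F0 e u = 1 + e ^ 2 * g0 u := rfl
lemma F1_eq (h b : ℝ) (u : ℂ) : F1 h b u = (1 + u) + (b * g1 u + (-(h ^ 2 : ℝ) : ℂ) * g2 u) := by
  unfold F1 g1 g2; push_cast; ring
lemma F2_eq'' (h : ℝ) (u : ℂ) : F2 h u = (1 + u) ^ 2 + ((2 * h ^ 2 : ℝ) * g2 u + (h ^ 4 : ℝ) * g3 u) := by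
  unfold F2 g2 g3; push_cast; ring

/-- Homogeneous form of the affine function. -/
noncomputable def HH (h b e c : ℝ) (α γ : ℂ) (u : ℂ) : ℝ :=
  c * F0 e u + (conj α * F1 h b u).re + (conj γ * F2 h u).re

lemma HH_eq (h b e c : ℝ) (α γ u : ℂ) : HH h b e c α γ u = F0 e u * aff c α γ (ff h b e u) := by
  have h0 : 0 < F0 e u := by linarith [F0_ge e u]
  have e1 : (conj α * F1 h b u).re = F0 e u * (conj α * (F1 h b u / F0 e u)).re := by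
    rw [← Complex.re_ofReal_mul]
    congr 1
    have := F0_ne e u
    field_simp
  have e2 : (conj γ * F2 h u).re = F0 e u * (conj γ * (F2 h u / F0 e u)).re := by
    rw [← Complex.re_ofReal_mul]
    congr 1
    have := F0_ne e u
    field_simp
  unfold HH aff ff
  rw [e1, e2]; ring

lemma norm_fderiv_apply_le {E : Type*} [NormedAddCommGroup E] [NormedSpace ℝ E] {g : ℂ → E} {M : ℝ}
    {u : ℂ} (h : ‖fderiv ℝ g u‖ ≤ M) (v : ℂ) : ‖fderiv ℝ g u v‖ ≤ M * ‖v‖ :=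
  ((fderiv ℝ g u).le_opNorm v).trans (mul_le_mul_of_nonneg_right h (norm_nonneg _))

lemma norm_fderiv2_apply_le {E : Type*} [NormedAddCommGroup E] [NormedSpace ℝ E] {g : ℂ → E}
    {M : ℝ} {u : ℂ} (h : ‖fderiv ℝ (fderiv ℝ g) u‖ ≤ M) (v : ℂ) :
    ‖fderiv ℝ (fderiv ℝ g) u v v‖ ≤ M * ‖v‖ ^ 2 := by
  have h1 : ‖fderiv ℝ (fderiv ℝ g) u v‖ ≤ M * ‖v‖ :=
    ((fderiv ℝ (fderiv ℝ g) u).le_opNorm v).trans (mul_le_mul_of_nonneg_right h (norm_nonneg _))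
  calc ‖fderiv ℝ (fderiv ℝ g) u v v‖ ≤ ‖fderiv ℝ (fderiv ℝ g) u v‖ * ‖v‖ :=
        ContinuousLinearMap.le_opNorm _ _
    _ ≤ (M * ‖v‖) * ‖v‖ := mul_le_mul_of_nonneg_right h1 (norm_nonneg _)
    _ = M * ‖v‖ ^ 2 := by ring

lemma two_le_infty : (2 : WithTop ℕ∞) ≤ ∞ := WithTop.coe_le_coe.2 le_top

/-- The jets of the components. -/
lemma jet_F0 (e : ℝ) (u : ℂ) : Jet2 (F0 e) u (fun v => e ^ 2 * fderiv ℝ g0 u v)
    (fun v => e ^ 2 * fderiv ℝ (fderiv ℝ g0) u v v) := by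
  have h1 := (Jet2.of_contDiffAt (contDiff_g0.contDiffAt (x := u) |>.of_le two_le_infty)).clm
    ((ContinuousLinearMap.mul ℝ ℝ) (e ^ 2))
  have h2 := (Jet2.const (1 : ℝ) u).add h1
  simp only [zero_add] at h2
  exact h2

lemma jet_F1 (h b : ℝ) {u : ℂ} (hu : u ≠ 0) : Jet2 (F1 h b) u
    (fun v => v + (b * fderiv ℝ g1 u v + (-(h ^ 2 : ℝ) : ℂ) * fderiv ℝ g2 u v))
    (fun v => 0 + (b * fderiv ℝ (fderiv ℝ g1) u v v +
      (-(h ^ 2 : ℝ) : ℂ) * fderiv ℝ (fderiv ℝ g2) u v v)) := by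
  have h1 := (Jet2.of_contDiffAt ((contDiffAt_g1 hu).of_le two_le_infty)).clm
    ((ContinuousLinearMap.mul ℝ ℂ) (b : ℂ))
  have h2 := (Jet2.of_contDiffAt ((contDiffAt_g2 hu).of_le two_le_infty)).clm
    ((ContinuousLinearMap.mul ℝ ℂ) (-(h ^ 2 : ℝ) : ℂ))
  have h3 := (Jet2.affine u).add (h1.add h2)
  have : F1 h b = fun x => 1 + x + (((ContinuousLinearMap.mul ℝ ℂ) (b : ℂ)) (g1 x) +
      ((ContinuousLinearMap.mul ℝ ℂ) (-(h ^ 2 : ℝ) : ℂ)) (g2 x)) := by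
    funext x
    rw [F1_eq]
    rfl
  rw [this]
  exact h3

lemma jet_F2 (h : ℝ) {u : ℂ} (hu : u ≠ 0) : Jet2 (F2 h) u
    (fun v => 2 * ((1 + u) * v) + (((2 * h ^ 2 : ℝ) : ℂ) * fderiv ℝ g2 u v +
      ((h ^ 4 : ℝ) : ℂ) * fderiv ℝ g3 u v))
    (fun v => 2 * v ^ 2 + (((2 * h ^ 2 : ℝ) : ℂ) * fderiv ℝ (fderiv ℝ g2) u v v +
      ((h ^ 4 : ℝ) : ℂ) * fderiv ℝ (fderiv ℝ g3) u v v)) := by
  have h1 := (Jet2.of_contDiffAt ((contDiffAt_g2 hu).of_le two_le_infty)).clm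
    ((ContinuousLinearMap.mul ℝ ℂ) ((2 * h ^ 2 : ℝ) : ℂ))
  have h2 := (Jet2.of_contDiffAt ((contDiffAt_g3 hu).of_le two_le_infty)).clm
    ((ContinuousLinearMap.mul ℝ ℂ) ((h ^ 4 : ℝ) : ℂ))
  have h3 := (Jet2.sq u).add (h1.add h2)
  have : F2 h = fun x => (1 + x) ^ 2 + (((ContinuousLinearMap.mul ℝ ℂ) ((2 * h ^ 2 : ℝ) : ℂ)) (g2 x) +
      ((ContinuousLinearMap.mul ℝ ℂ) ((h ^ 4 : ℝ) : ℂ)) (g3 x)) := by
    funext x
    rw [F2_eq'']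
    rfl
  rw [this]
  exact h3

lemma Par.h2M (P : Par M h b e) : h ^ 2 * M ≤ 1 / 1000 := by
  have h1 := P.h1
  have h2 := P.h_le
  have h3 := P.h0
  have h4 : h * (h * M) ≤ 1 * (1 / 1000) := by
    have hM : 0 ≤ h * M := mul_nonneg h3.le (by linarith [P.M1])
    exact mul_le_mul (by linarith) h1 hM (by norm_num)
  calc h ^ 2 * M = h * (h * M) := by ring
    _ ≤ _ := by linarith

lemma Par.h4M (P : Par M h b e) : h ^ 4 * M ≤ 1 / 1000 := by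
  have h1 := P.h2M
  have h2 := P.h_le
  have h3 := P.h0
  have hM : 0 ≤ h ^ 2 * M := mul_nonneg (by positivity) (by linarith [P.M1])
  have h5 : h ^ 2 ≤ 1 := by nlinarith
  have h4 : h ^ 2 * (h ^ 2 * M) ≤ 1 * (1 / 1000) := mul_le_mul h5 h1 hM (by norm_num)
  calc h ^ 4 * M = h ^ 2 * (h ^ 2 * M) := by ring
    _ ≤ _ := by linarith

lemma Par.comb1 (P : Par M h b e) (x y : ℂ) (t : ℝ) (ht : 0 ≤ t) (hx : ‖x‖ ≤ M * t)
    (hy : ‖y‖ ≤ M * t) : ‖(b : ℂ) * x + (-(h ^ 2 : ℝ) : ℂ) * y‖ ≤ 2 / 100 * t := by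
  have nb : ‖(b : ℂ)‖ = b := by rw [Complex.norm_real, Real.norm_of_nonneg P.b0.le]
  have nh2 : ‖(-(h ^ 2 : ℝ) : ℂ)‖ = h ^ 2 := by
    rw [norm_neg, Complex.norm_real, Real.norm_of_nonneg (by positivity)]
  refine (norm_add_le _ _).trans ?_
  rw [norm_mul, norm_mul, nb, nh2]
  have i1 : b * ‖x‖ ≤ b * (M * t) := mul_le_mul_of_nonneg_left hx P.b0.le
  have i2 : h ^ 2 * ‖y‖ ≤ h ^ 2 * (M * t) := mul_le_mul_of_nonneg_left hy (by positivity)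
  have i3 : (b * M) * t ≤ 1 / 1000 * t := mul_le_mul_of_nonneg_right P.b1 ht
  have i4 : (h ^ 2 * M) * t ≤ 1 / 1000 * t := mul_le_mul_of_nonneg_right P.h2M ht
  rw [← mul_assoc] at i1 i2
  linarith

lemma Par.comb2 (P : Par M h b e) (x y : ℂ) (t : ℝ) (ht : 0 ≤ t) (hx : ‖x‖ ≤ M * t)
    (hy : ‖y‖ ≤ M * t) :
    ‖((2 * h ^ 2 : ℝ) : ℂ) * x + ((h ^ 4 : ℝ) : ℂ) * y‖ ≤ 3 / 100 * t := by
  have n2h2 : ‖((2 * h ^ 2 : ℝ) : ℂ)‖ = 2 * h ^ 2 := by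
    rw [Complex.norm_real, Real.norm_of_nonneg (by positivity)]
  have nh4 : ‖((h ^ 4 : ℝ) : ℂ)‖ = h ^ 4 := by
    rw [Complex.norm_real, Real.norm_of_nonneg (by positivity)]
  refine (norm_add_le _ _).trans ?_
  rw [norm_mul, norm_mul, n2h2, nh4]
  have i1 : (2 * h ^ 2) * ‖x‖ ≤ (2 * h ^ 2) * (M * t) :=
    mul_le_mul_of_nonneg_left hx (by positivity)
  have i2 : h ^ 4 * ‖y‖ ≤ h ^ 4 * (M * t) := mul_le_mul_of_nonneg_left hy (by positivity)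
  have i3 : (h ^ 2 * M) * t ≤ 1 / 1000 * t := mul_le_mul_of_nonneg_right P.h2M ht
  have i4 : (h ^ 4 * M) * t ≤ 1 / 1000 * t := mul_le_mul_of_nonneg_right P.h4M ht
  have e1 : (2 * h ^ 2) * (M * t) = 2 * ((h ^ 2 * M) * t) := by ring
  have e2 : h ^ 4 * (M * t) = (h ^ 4 * M) * t := by ring
  rw [e1] at i1
  rw [e2] at i2
  linarith

lemma Par2.bF1 (P : Par2 M h b e) {u : ℂ} (hu1 : 1 / 16 ≤ ‖u‖) (hu2 : ‖u‖ ≤ 5 / 8) :
    ‖F1 h b u‖ ≤ 21 / 10 := by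
  obtain ⟨a1, -, -⟩ := P.j1 u hu1 hu2
  obtain ⟨a2, -, -⟩ := P.j2 u hu1 hu2
  have h1u : ‖1 + u‖ ≤ 13 / 8 := by
    have := norm_add_le (1 : ℂ) u
    rw [norm_one] at this; linarith
  have i1 := P.comb1 (g1 u) (g2 u) 1 zero_le_one (by rw [mul_one]; exact a1)
    (by rw [mul_one]; exact a2)
  have i2 := norm_add_le (1 + u) ((b : ℂ) * g1 u + (-(h ^ 2 : ℝ) : ℂ) * g2 u)
  rw [F1_eq]
  refine i2.trans ?_
  calc ‖1 + u‖ + ‖(b : ℂ) * g1 u + (-(h ^ 2 : ℝ) : ℂ) * g2 u‖ ≤ 13 / 8 + 2 / 100 * 1 :=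
        add_le_add h1u i1
    _ ≤ 21 / 10 := by norm_num

lemma Par2.bF2 (P : Par2 M h b e) {u : ℂ} (hu1 : 1 / 16 ≤ ‖u‖) (hu2 : ‖u‖ ≤ 5 / 8) :
    ‖F2 h u‖ ≤ 41 / 10 := by
  obtain ⟨a2, -, -⟩ := P.j2 u hu1 hu2
  obtain ⟨a3, -, -⟩ := P.j3 u hu1 hu2
  have h1u : ‖1 + u‖ ≤ 13 / 8 := by
    have := norm_add_le (1 : ℂ) u
    rw [norm_one] at this; linarith
  have i1 := P.comb2 (g2 u) (g3 u) 1 zero_le_one (by rw [mul_one]; exact a2)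
    (by rw [mul_one]; exact a3)
  have i2 := norm_add_le ((1 + u) ^ 2) (((2 * h ^ 2 : ℝ) : ℂ) * g2 u + ((h ^ 4 : ℝ) : ℂ) * g3 u)
  have i3 : ‖(1 + u) ^ 2‖ ≤ (13 / 8) ^ 2 := by
    rw [norm_pow]; exact pow_le_pow_left₀ (norm_nonneg _) h1u 2
  rw [F2_eq'']
  refine i2.trans ?_
  calc ‖(1 + u) ^ 2‖ + ‖((2 * h ^ 2 : ℝ) : ℂ) * g2 u + ((h ^ 4 : ℝ) : ℂ) * g3 u‖
      ≤ (13 / 8) ^ 2 + 3 / 100 * 1 := add_le_add i3 i1
    _ ≤ 41 / 10 := by norm_num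

/-- Numerical consequences of the parameter conditions. -/
lemma Par2.bounds (P : Par2 M h b e) {u : ℂ} (hu1 : 1 / 16 ≤ ‖u‖) (hu2 : ‖u‖ ≤ 5 / 8) :
    ‖F1 h b u‖ ≤ 21 / 10 ∧ ‖F2 h u‖ ≤ 41 / 10 ∧
    (∀ v, |e ^ 2 * fderiv ℝ g0 u v| ≤ 1 / 100 * ‖v‖) ∧
    (∀ v, |e ^ 2 * fderiv ℝ (fderiv ℝ g0) u v v| ≤ 1 / 100 * ‖v‖ ^ 2) ∧
    (∀ v, ‖(b : ℂ) * fderiv ℝ g1 u v + (-(h ^ 2 : ℝ) : ℂ) * fderiv ℝ g2 u v‖ ≤ 2 / 100 * ‖v‖) ∧
    (∀ v, ‖(b : ℂ) * fderiv ℝ (fderiv ℝ g1) u v v +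
      (-(h ^ 2 : ℝ) : ℂ) * fderiv ℝ (fderiv ℝ g2) u v v‖ ≤ 2 / 100 * ‖v‖ ^ 2) ∧
    (∀ v, ‖((2 * h ^ 2 : ℝ) : ℂ) * fderiv ℝ g2 u v + ((h ^ 4 : ℝ) : ℂ) * fderiv ℝ g3 u v‖ ≤
      3 / 100 * ‖v‖) ∧
    (∀ v, ‖((2 * h ^ 2 : ℝ) : ℂ) * fderiv ℝ (fderiv ℝ g2) u v v +
      ((h ^ 4 : ℝ) : ℂ) * fderiv ℝ (fderiv ℝ g3) u v v‖ ≤ 3 / 100 * ‖v‖ ^ 2) := by
  obtain ⟨-, b0, c0⟩ := P.j0 u hu1 hu2
  obtain ⟨-, b1, c1⟩ := P.j1 u hu1 hu2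
  obtain ⟨-, b2, c2⟩ := P.j2 u hu1 hu2
  obtain ⟨-, b3, c3⟩ := P.j3 u hu1 hu2
  refine ⟨P.bF1 hu1 hu2, P.bF2 hu1 hu2, ?_, ?_, ?_, ?_, ?_, ?_⟩
  · intro v
    rw [abs_mul, abs_of_nonneg (sq_nonneg e), ← Real.norm_eq_abs]
    have i1 := norm_fderiv_apply_le b0 v
    have i2 : e ^ 2 * ‖fderiv ℝ g0 u v‖ ≤ e ^ 2 * (M * ‖v‖) :=
      mul_le_mul_of_nonneg_left i1 (sq_nonneg e)
    have i3 : (e ^ 2 * M) * ‖v‖ ≤ 1 / 4000 * ‖v‖ :=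
      mul_le_mul_of_nonneg_right P.e1 (norm_nonneg _)
    have i4 := norm_nonneg v
    rw [← mul_assoc] at i2
    clear b0 c0 b1 c1 b2 c2 b3 c3
    linarith
  · intro v
    rw [abs_mul, abs_of_nonneg (sq_nonneg e), ← Real.norm_eq_abs]
    have i1 := norm_fderiv2_apply_le c0 v
    have i2 : e ^ 2 * ‖fderiv ℝ (fderiv ℝ g0) u v v‖ ≤ e ^ 2 * (M * ‖v‖ ^ 2) :=
      mul_le_mul_of_nonneg_left i1 (sq_nonneg e)
    have i3 : (e ^ 2 * M) * ‖v‖ ^ 2 ≤ 1 / 4000 * ‖v‖ ^ 2 :=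
      mul_le_mul_of_nonneg_right P.e1 (sq_nonneg _)
    have i4 := sq_nonneg ‖v‖
    rw [← mul_assoc] at i2
    clear b0 c0 b1 c1 b2 c2 b3 c3
    linarith
  · intro v
    exact P.comb1 _ _ _ (norm_nonneg v) (norm_fderiv_apply_le b1 v) (norm_fderiv_apply_le b2 v)
  · intro v
    exact P.comb1 _ _ _ (sq_nonneg ‖v‖) (norm_fderiv2_apply_le c1 v) (norm_fderiv2_apply_le c2 v)
  · intro v
    exact P.comb2 _ _ _ (norm_nonneg v) (norm_fderiv_apply_le b2 v) (norm_fderiv_apply_le b3 v)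
  · intro v
    exact P.comb2 _ _ _ (sq_nonneg ‖v‖) (norm_fderiv2_apply_le c2 v) (norm_fderiv2_apply_le c3 v)

/-- No local maximum of a nonconstant affine function in the transition region. -/
lemma no_max_trans (P : Par2 M h b e) {u : ℂ} (hu1 : 1 / 16 < ‖u‖) (hu2 : ‖u‖ < 5 / 8) {c : ℝ}
    {α γ : ℂ} (h0 : aff c α γ (ff h b e u) = 0)
    (hmax : ∀ᶠ x in 𝓝 u, aff c α γ (ff h b e x) ≤ 0) : α = 0 ∧ γ = 0 := by
  have hu0 : u ≠ 0 := norm_pos_iff.1 (by linarith)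
  have hH0 : HH h b e c α γ u = 0 := by rw [HH_eq, h0, mul_zero]
  have hHmax : IsLocalMax (HH h b e c α γ) u := by
    rw [IsLocalMax, IsMaxFilter, hH0]
    filter_upwards [hmax] with x hx
    rw [HH_eq]
    have := F0_ge e x
    nlinarith
  obtain ⟨b1, b2, b3, b4, b5, b6, b7, b8⟩ := P.bounds hu1.le hu2.le
  have jet : Jet2 (HH h b e c α γ) u
      (fun v => c * (e ^ 2 * fderiv ℝ g0 u v) +
        (conj α * (v + (b * fderiv ℝ g1 u v + (-(h ^ 2 : ℝ) : ℂ) * fderiv ℝ g2 u v))).re +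
        (conj γ * (2 * ((1 + u) * v) + (((2 * h ^ 2 : ℝ) : ℂ) * fderiv ℝ g2 u v +
          ((h ^ 4 : ℝ) : ℂ) * fderiv ℝ g3 u v))).re)
      (fun v => c * (e ^ 2 * fderiv ℝ (fderiv ℝ g0) u v v) +
        (conj α * (0 + (b * fderiv ℝ (fderiv ℝ g1) u v v +
          (-(h ^ 2 : ℝ) : ℂ) * fderiv ℝ (fderiv ℝ g2) u v v))).re +
        (conj γ * (2 * v ^ 2 + (((2 * h ^ 2 : ℝ) : ℂ) * fderiv ℝ (fderiv ℝ g2) u v v +
          ((h ^ 4 : ℝ) : ℂ) * fderiv ℝ (fderiv ℝ g3) u v v))).re) :=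
    (((jet_F0 e u).clm ((ContinuousLinearMap.mul ℝ ℝ) c)).add
      ((jet_F1 h b hu0).clm (reL α))).add ((jet_F2 h hu0).clm (reL γ))
  have hD := jet.localMax hHmax
  refine no_max_alg (c := c) (F0 := F0 e u) (F1 := F1 h b u) (F2 := F2 h u)
    (F0_ge e u) b1 b2 (hD0 := b3) (hQ0 := b4) (D1 := _) (D2 := _) (Q1 := _) (Q2 := _)
    ?_ ?_ ?_ ?_ hH0 (fun v => (hD v).1) (fun v => (hD v).2)
  · intro v
    rw [add_sub_cancel_left]; exact b5 v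
  · intro v
    have i1 := norm_add_le (2 * ((1 + u) * v)) (((2 * h ^ 2 : ℝ) : ℂ) * fderiv ℝ g2 u v +
          ((h ^ 4 : ℝ) : ℂ) * fderiv ℝ g3 u v)
    have i2 : ‖2 * ((1 + u) * v)‖ ≤ 13 / 4 * ‖v‖ := by
      rw [norm_mul, norm_mul, Complex.norm_ofNat]
      have h1u : ‖1 + u‖ ≤ 13 / 8 := by
        have := norm_add_le (1 : ℂ) u
        rw [norm_one] at this; linarith
      nlinarith [norm_nonneg v, mul_le_mul_of_nonneg_right h1u (norm_nonneg v)]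
    have i3 := b7 v
    have := norm_nonneg v
    linarith
  · intro v
    rw [zero_add]; exact b6 v
  · intro v
    rw [add_sub_cancel_left]; exact b8 v

/-- Immersion in the transition region: if the derivative of `ff` vanishes along a line then the
line is constant. -/
lemma imm_trans (P : Par2 M h b e) {u : ℂ} (hu1 : 1 / 16 < ‖u‖) (hu2 : ‖u‖ < 5 / 8) {v : ℂ}
    (hd : HasDerivAt (fun t : ℝ => ff h b e (u + t • v)) 0 0) : v = 0 := by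
  have hu0 : u ≠ 0 := norm_pos_iff.1 (by linarith)
  obtain ⟨b1, b2, b3, b4, b5, b6, b7, b8⟩ := P.bounds hu1.le hu2.le
  have hd1 : HasDerivAt (fun t : ℝ => (ff h b e (u + t • v)).1) 0 0 :=
    (ContinuousLinearMap.fst ℝ ℂ ℂ).hasFDerivAt.comp_hasDerivAt 0 hd
  obtain ⟨ψ0, j01, j02, -⟩ := jet_F0 e u v
  obtain ⟨ψ1, j11, j12, -⟩ := jet_F1 h b hu0 v
  have hF0 := j01.self_of_nhds
  have hF1 := j11.self_of_nhds
  rw [j02] at hF0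
  rw [j12] at hF1
  -- F1 = F0 * ff.1
  have hprod : HasDerivAt (fun t : ℝ => (F0 e (u + t • v) : ℂ) * (ff h b e (u + t • v)).1)
      (((e ^ 2 * fderiv ℝ g0 u v : ℝ) : ℂ) * (ff h b e (u + (0 : ℝ) • v)).1 +
        (F0 e (u + (0 : ℝ) • v) : ℂ) * 0) 0 := by
    have h1 : HasDerivAt (fun t : ℝ => (F0 e (u + t • v) : ℂ))
        ((e ^ 2 * fderiv ℝ g0 u v : ℝ) : ℂ) 0 := hF0.ofReal_comp
    exact h1.mul hd1
  have heq : (fun t : ℝ => (F0 e (u + t • v) : ℂ) * (ff h b e (u + t • v)).1) =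
      fun t : ℝ => F1 h b (u + t • v) := by
    funext t
    unfold ff
    simp only
    have := F0_ne e (u + t • v)
    field_simp
  rw [heq] at hprod
  have huniq := hF1.unique hprod
  simp only [zero_smul, add_zero, mul_zero] at huniq
  -- estimates
  have e1 : ‖(ff h b e u).1‖ ≤ 21 / 10 := by
    unfold ff
    simp only
    rw [norm_div, Complex.norm_real, Real.norm_of_nonneg (by linarith [F0_ge e u]),
      div_le_iff₀ (by linarith [F0_ge e u])]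
    nlinarith [F0_ge e u]
  have e2 : ‖((e ^ 2 * fderiv ℝ g0 u v : ℝ) : ℂ) * (ff h b e u).1‖ ≤ (1 / 100 * ‖v‖) * (21 / 10) := by
    rw [norm_mul, Complex.norm_real, Real.norm_eq_abs]
    exact mul_le_mul (b3 v) e1 (norm_nonneg _) (by positivity)
  have e3 : ‖v‖ ≤ ‖v + (b * fderiv ℝ g1 u v + (-(h ^ 2 : ℝ) : ℂ) * fderiv ℝ g2 u v)‖ +
      ‖(b : ℂ) * fderiv ℝ g1 u v + (-(h ^ 2 : ℝ) : ℂ) * fderiv ℝ g2 u v‖ := by
    have := norm_sub_le (v + (b * fderiv ℝ g1 u v + (-(h ^ 2 : ℝ) : ℂ) * fderiv ℝ g2 u v))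
      ((b : ℂ) * fderiv ℝ g1 u v + (-(h ^ 2 : ℝ) : ℂ) * fderiv ℝ g2 u v)
    rwa [add_sub_cancel_right] at this
  rw [huniq] at e3
  have e4 := b5 v
  have e5 : ‖v‖ ≤ 0 := by
    have := norm_nonneg v
    linarith
  exact norm_le_zero_iff.1 e5

end Pool.Agent.Lib.MP_6a9e1f_gt
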