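import Mathlib
import Pool.Agent.Lib.MP_6a9e1f_gt.NoMax

/-!
The neck of the handle in logarithmic coordinates: it is parametrized by a map all of whose height
functions are harmonic.
-/

namespace Pool.Agent.Lib.MP_6a9e1f_gt

open ComplexConjugate Set Filter Topology
open scoped ContDiff

variable {M h b e : ℝ}

/-- The neck in logarithmic coordinates. -/
noncomputable def Phi (h b : ℝ) (ξ : ℂ) : ℂ × ℂ :=
  (((b * ξ.re : ℝ) : ℂ) + h * (Complex.exp ξ - Complex.exp (-conj ξ)),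
   1 + 2 * h * (Complex.exp ξ + Complex.exp (-conj ξ)) +
     h ^ 2 * (Complex.exp ξ ^ 2 + Complex.exp (-conj ξ) ^ 2))

lemma Phi_refl (h b : ℝ) (ξ : ℂ) : Phi h b (-conj ξ) = sg (Phi h b ξ) := by
  apply Prod.ext
  · simp only [Phi, sg, Complex.neg_re, Complex.conj_re, map_neg, Complex.conj_conj, neg_neg]
    push_cast
    ring
  · simp only [Phi, sg, map_neg, Complex.conj_conj, neg_neg]
    ring

lemma norm_hexp (hh : 0 < h) (ξ : ℂ) : ‖(h : ℂ) * Complex.exp ξ‖ = h * Real.exp ξ.re := by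
  rw [norm_mul, Complex.norm_real, Real.norm_of_nonneg hh.le, Complex.norm_exp]

lemma ff_hexp (P : Par M h b e) {ξ : ℂ} (hξ : h * Real.exp ξ.re ≤ 1 / 8) :
    ff h b e (h * Complex.exp ξ) = Phi h b ξ := by
  have hh := P.h0
  have hhc : (h : ℂ) ≠ 0 := Complex.ofReal_ne_zero.2 hh.ne'
  have hn := norm_hexp hh ξ
  have hchi : chi (h * Complex.exp ξ) = 1 := chi_eq_one (by rw [hn]; exact hξ)
  have hF0 : F0 e (h * Complex.exp ξ) = 1 := by unfold F0; rw [hchi]; simp
  have hlog : Real.log ‖(h : ℂ) * Complex.exp ξ‖ = Real.log h + ξ.re := by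
    rw [hn, Real.log_mul hh.ne' (Real.exp_pos _).ne', Real.log_exp]
  have hconj : conj ((h : ℂ) * Complex.exp ξ) = h * Complex.exp (conj ξ) := by
    rw [map_mul, Complex.conj_ofReal, Complex.exp_conj]
  have hinv : Complex.exp (-conj ξ) = (Complex.exp (conj ξ))⁻¹ := Complex.exp_neg _
  have hne : Complex.exp (conj ξ) ≠ 0 := Complex.exp_ne_zero _
  unfold ff
  rw [hF0]
  apply Prod.ext
  · simp only [Complex.ofReal_one, div_one, Phi]
    unfold F1
    rw [hchi, hlog, hconj, hinv]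
    have hb : (b : ℂ) * ((1 * (Real.log h + ξ.re) : ℝ) : ℂ) = -1 + ((b * ξ.re : ℝ) : ℂ) := by
      rw [← Complex.ofReal_mul, one_mul, mul_add, P.bh]
      push_cast
      ring
    rw [hb]
    push_cast
    field_simp
    ring
  · simp only [Complex.ofReal_one, div_one, Phi]
    unfold F2
    rw [hchi, hconj, hinv]
    push_cast
    field_simp
    ring

lemma contDiff_Phi (h b : ℝ) : ContDiff ℝ ∞ (Phi h b) := by
  have h1 : ContDiff ℝ ∞ (fun ξ : ℂ => Complex.exp ξ) := Complex.contDiff_exp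
  have h2 : ContDiff ℝ ∞ (fun ξ : ℂ => Complex.exp (-conj ξ)) :=
    Complex.contDiff_exp.comp contDiff_conj.neg
  have h3 : ContDiff ℝ ∞ (fun ξ : ℂ => ((b * ξ.re : ℝ) : ℂ)) :=
    Complex.ofRealCLM.contDiff.comp (contDiff_const.mul Complex.reCLM.contDiff)
  unfold Phi
  exact (h3.add (contDiff_const.mul (h1.sub h2))).prodMk
    ((contDiff_const.add (contDiff_const.mul (h1.add h2))).add
      (contDiff_const.mul ((h1.pow 2).add (h2.pow 2))))

/-! ### Height functions -/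

/-- The holomorphic function whose real part is the height function. -/
noncomputable def Psi (h b c : ℝ) (α γ : ℂ) (ξ : ℂ) : ℂ :=
  c + γ + (b * α.re : ℝ) * ξ + h * (conj α + 2 * conj γ) * Complex.exp ξ +
    h * (2 * γ - α) * Complex.exp (-ξ) + h ^ 2 * conj γ * Complex.exp ξ ^ 2 +
    h ^ 2 * γ * Complex.exp (-ξ) ^ 2

lemma aff_Phi (h b c : ℝ) (α γ ξ : ℂ) : aff c α γ (Phi h b ξ) = (Psi h b c α γ ξ).re := by
  have hconj : Complex.exp (-conj ξ) = conj (Complex.exp (-ξ)) := by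
    rw [← Complex.exp_conj, map_neg]
  unfold aff Phi Psi
  simp only [hconj]
  generalize Complex.exp ξ = X
  generalize Complex.exp (-ξ) = Y
  obtain ⟨x1, x2⟩ := X
  obtain ⟨y1, y2⟩ := Y
  obtain ⟨a1, a2⟩ := α
  obtain ⟨g1, g2⟩ := γ
  obtain ⟨t1, t2⟩ := ξ
  simp only [Complex.add_re, Complex.add_im, Complex.mul_re, Complex.mul_im, Complex.sub_re,
    Complex.sub_im, Complex.ofReal_re, Complex.ofReal_im, Complex.conj_re, Complex.conj_im,
    Complex.one_re, Complex.one_im, pow_two, Complex.re_ofNat, Complex.im_ofNat]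
  ring

lemma hasDerivAt_Psi (h b c : ℝ) (α γ ξ : ℂ) : HasDerivAt (Psi h b c α γ)
    ((b * α.re : ℝ) + h * (conj α + 2 * conj γ) * Complex.exp ξ -
    h * (2 * γ - α) * Complex.exp (-ξ) + 2 * h ^ 2 * conj γ * Complex.exp ξ ^ 2 -
    2 * h ^ 2 * γ * Complex.exp (-ξ) ^ 2) ξ := by
  have e1 : HasDerivAt (fun ξ : ℂ => Complex.exp ξ) (Complex.exp ξ) ξ := Complex.hasDerivAt_exp ξ
  have e2 : HasDerivAt (fun ξ : ℂ => Complex.exp (-ξ)) (-Complex.exp (-ξ)) ξ := by
    have := (hasDerivAt_id ξ).neg.cexp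
    simpa using this
  have e3 : HasDerivAt (fun ξ : ℂ => ((b * α.re : ℝ) : ℂ) * ξ) ((b * α.re : ℝ) : ℂ) ξ := by
    simpa using (hasDerivAt_id ξ).const_mul ((b * α.re : ℝ) : ℂ)
  have := (((((hasDerivAt_const ξ ((c : ℂ) + γ)).add e3).add
    (e1.const_mul ((h : ℂ) * (conj α + 2 * conj γ)))).add
    (e2.const_mul ((h : ℂ) * (2 * γ - α)))).add
    ((e1.pow 2).const_mul ((h : ℂ) ^ 2 * conj γ))).add
    ((e2.pow 2).const_mul ((h : ℂ) ^ 2 * γ))
  refine this.congr_deriv ?_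
  simp only [Nat.cast_ofNat, Nat.reduceSub, pow_one]
  ring

/-- No local maximum of a nonconstant affine function on the neck. -/
lemma no_max_neck (P : Par M h b e) {ξ : ℂ} {c : ℝ} {α γ : ℂ}
    (hmax : IsLocalMax (fun x => aff c α γ (Phi h b x)) ξ) : α = 0 ∧ γ = 0 := by
  have hh := P.h0
  have hhc : (h : ℂ) ≠ 0 := Complex.ofReal_ne_zero.2 hh.ne'
  have hdiff : Differentiable ℂ (fun x => Complex.exp (Psi h b c α γ x)) := fun x =>
    (hasDerivAt_Psi h b c α γ x).cexp.differentiableAt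
  have hmax' : IsLocalMax (norm ∘ fun x => Complex.exp (Psi h b c α γ x)) ξ := by
    have h1 : (norm ∘ fun x => Complex.exp (Psi h b c α γ x)) =
        fun x => Real.exp (aff c α γ (Phi h b x)) := by
      funext x
      simp only [Function.comp_apply, Complex.norm_exp, aff_Phi]
    rw [h1]
    rw [IsLocalMax, IsMaxFilter] at hmax ⊢
    filter_upwards [hmax] with x hx
    exact Real.exp_le_exp.2 hx
  have hev := Complex.eventually_eq_of_isLocalMax_norm
    (Eventually.of_forall fun z => hdiff z) hmax'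
  have hconst : (fun x => Complex.exp (Psi h b c α γ x)) =
      fun _ => Complex.exp (Psi h b c α γ ξ) := by
    apply AnalyticOnNhd.eq_of_eventuallyEq (𝕜 := ℂ) (z₀ := ξ)
    · intro x _; exact hdiff.analyticAt x
    · intro x _; exact analyticAt_const
    · exact hev
  have hder : ∀ x : ℂ, ((b * α.re : ℝ) : ℂ) + h * (conj α + 2 * conj γ) * Complex.exp x -
      h * (2 * γ - α) * Complex.exp (-x) + 2 * h ^ 2 * conj γ * Complex.exp x ^ 2 -
      2 * h ^ 2 * γ * Complex.exp (-x) ^ 2 = 0 := by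
    intro x
    have h1 := (hasDerivAt_Psi h b c α γ x).cexp
    rw [hconst] at h1
    have h2 := h1.unique (hasDerivAt_const x _)
    exact (mul_eq_zero.1 h2).resolve_left (Complex.exp_ne_zero _)
  have hX : ∀ X : ℂ, X ≠ 0 → ((b * α.re : ℝ) : ℂ) + h * (conj α + 2 * conj γ) * X -
      h * (2 * γ - α) * X⁻¹ + 2 * h ^ 2 * conj γ * X ^ 2 -
      2 * h ^ 2 * γ * X⁻¹ ^ 2 = 0 := by
    intro X hX0
    have h1 := hder (Complex.log X)
    rwa [Complex.exp_neg, Complex.exp_log hX0] at h1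
  have i1 := hX 1 one_ne_zero
  have i2 := hX (-1) (by norm_num)
  have i3 := hX Complex.I Complex.I_ne_zero
  have i4 := hX (-Complex.I) (neg_ne_zero.2 Complex.I_ne_zero)
  have i5 := hX 2 two_ne_zero
  rw [Complex.inv_I] at i3
  rw [inv_neg, Complex.inv_I, neg_neg] at i4
  norm_num at i1 i2 i5
  have hI : Complex.I ^ 2 = -1 := Complex.I_sq
  have j1 : ((b * α.re : ℝ) : ℂ) = 0 := by
    push_cast
    push_cast at i3 i4
    linear_combination (1 / 4) * i1 + (1 / 4) * i2 + (1 / 4) * i3 + (1 / 4) * i4 -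
      ((h : ℂ) ^ 2 * conj γ - h ^ 2 * γ) * hI
  have j2 : 2 * (h : ℂ) ^ 2 * conj γ = 2 * h ^ 2 * γ := by
    push_cast at j1
    linear_combination (1 / 2) * i1 + (1 / 2) * i2 - j1
  have j3 : (h : ℂ) * (conj α + 2 * conj γ) = h * (2 * γ - α) := by
    linear_combination (1 / 2) * i1 - (1 / 2) * i2
  have j4 : (h : ℂ) * (conj α + 2 * conj γ) = -(h * (2 * γ - α)) := by
    push_cast at i3 i4
    have : Complex.I * ((h : ℂ) * (conj α + 2 * conj γ) + h * (2 * γ - α)) = 0 := by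
      linear_combination (1 / 2) * i3 - (1 / 2) * i4
    have h2 := (mul_eq_zero.1 this).resolve_left Complex.I_ne_zero
    linear_combination h2
  have j5 : (h : ℂ) * (conj α + 2 * conj γ) = 0 := by
    linear_combination (1 / 2) * j3 + (1 / 2) * j4
  have j6 : (h : ℂ) * (2 * γ - α) = 0 := by rw [← j3]; exact j5
  have j7 : γ = 0 := by
    push_cast at j1
    have h3 : (15 / 2 : ℂ) * ((h : ℂ) ^ 2 * γ) = 0 := by
      linear_combination i5 - j1 - 2 * j5 + (1 / 2) * j6 - 4 * j2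
    have h4 : (h : ℂ) ^ 2 * γ = 0 := (mul_eq_zero.1 h3).resolve_left (by norm_num)
    exact (mul_eq_zero.1 h4).resolve_left (pow_ne_zero 2 hhc)
  refine ⟨?_, j7⟩
  have h5 := (mul_eq_zero.1 j6).resolve_left hhc
  rw [j7] at h5
  simpa using h5

/-! ### Immersion -/

lemma two_h_lt_b (P : Par M h b e) : 2 * h < b := by
  have hh := P.h0
  have hb0 := P.b0
  have hb := P.b_le
  have h1 : h = Real.exp (-(1 / b)) := by
    have : Real.log h = -(1 / b) := by
      have := P.bh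
      field_simp
      linarith
    rw [← this, Real.exp_log hh]
  have h2 : (1 / b) ^ 2 / 2 ≤ Real.exp (1 / b) := by
    have := Real.quadratic_le_exp_of_nonneg (x := 1 / b) (by positivity)
    have h3 : 0 < 1 / b := by positivity
    linarith
  have h3 : h * Real.exp (1 / b) = 1 := by
    rw [h1, ← Real.exp_add]; simp
  have h4 : h * ((1 / b) ^ 2 / 2) ≤ 1 :=
    (mul_le_mul_of_nonneg_left h2 hh.le).trans h3.le
  have h5 : h ≤ 2 * b ^ 2 := by
    have h6 : h * ((1 / b) ^ 2 / 2) * (2 * b ^ 2) ≤ 1 * (2 * b ^ 2) :=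
      mul_le_mul_of_nonneg_right h4 (by positivity)
    have h7 : h * ((1 / b) ^ 2 / 2) * (2 * b ^ 2) = h := by field_simp
    linarith
  nlinarith

lemma imm_neck (P : Par M h b e) {ξ : ℂ} (hξ : h * Real.exp |ξ.re| ≤ 1 / 8) {v : ℂ}
    (hd : HasDerivAt (fun t : ℝ => Phi h b (ξ + t • v)) 0 0) : v = 0 := by
  have hh := P.h0
  have hh1 := P.h_le
  have hb := two_h_lt_b P
  by_contra hv
  set X := Complex.exp ξ with hX
  set Y := Complex.exp (-conj ξ) with hY
  have hX0 : X ≠ 0 := Complex.exp_ne_zero _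
  have hY0 : Y ≠ 0 := Complex.exp_ne_zero _
  have hline := hasDerivAt_line ξ v 0
  have hline' : HasDerivAt (fun t : ℝ => -conj (ξ + t • v)) (-conj v) 0 := by
    have h1 := Complex.conjCLE.toContinuousLinearMap.hasFDerivAt.comp_hasDerivAt (0 : ℝ) hline
    exact h1.neg
  have hz : ξ + (0 : ℝ) • v = ξ := by simp
  have dX : HasDerivAt (fun t : ℝ => Complex.exp (ξ + t • v)) (X * v) 0 := by
    have := hline.cexp
    rwa [hz] at this
  have dY : HasDerivAt (fun t : ℝ => Complex.exp (-conj (ξ + t • v))) (Y * (-conj v)) 0 := by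
    have := hline'.cexp
    rwa [hz] at this
  have dre : HasDerivAt (fun t : ℝ => ((b * (ξ + t • v).re : ℝ) : ℂ)) ((b * v.re : ℝ) : ℂ) 0 := by
    have h1 : HasDerivAt (fun t : ℝ => (ξ + t • v).re) v.re 0 :=
      Complex.reCLM.hasFDerivAt.comp_hasDerivAt (0 : ℝ) hline
    exact (h1.const_mul b).ofReal_comp
  have d1 : HasDerivAt (fun t : ℝ => (Phi h b (ξ + t • v)).1)
      (((b * v.re : ℝ) : ℂ) + h * (X * v - Y * (-conj v))) 0 :=
    dre.add ((dX.sub dY).const_mul (h : ℂ))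
  have d2 : HasDerivAt (fun t : ℝ => (Phi h b (ξ + t • v)).2)
      (0 + 2 * h * (X * v + Y * (-conj v)) + h ^ 2 * (2 * X * (X * v) + 2 * Y * (Y * (-conj v)))) 0 := by
    have := (((hasDerivAt_const (0 : ℝ) (1 : ℂ)).add ((dX.add dY).const_mul (2 * h : ℂ)))).add
      (((dX.pow 2).add (dY.pow 2)).const_mul ((h : ℂ) ^ 2))
    simp only [hz, Nat.cast_ofNat, Nat.reduceSub, pow_one] at this
    exact this
  have e1 := d1.unique ((ContinuousLinearMap.fst ℝ ℂ ℂ).hasFDerivAt.comp_hasDerivAt 0 hd)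
  have e2 := d2.unique ((ContinuousLinearMap.snd ℝ ℂ ℂ).hasFDerivAt.comp_hasDerivAt 0 hd)
  simp only [map_zero] at e1 e2
  have hhc : (h : ℂ) ≠ 0 := Complex.ofReal_ne_zero.2 hh.ne'
  -- the second component
  have e3 : v * (X * (1 + h * X)) = conj v * (Y * (1 + h * Y)) := by
    have : (2 * h : ℂ) * (v * (X * (1 + h * X)) - conj v * (Y * (1 + h * Y))) = 0 := by
      linear_combination e2
    have h2 := (mul_eq_zero.1 this).resolve_left (by
      exact mul_ne_zero two_ne_zero hhc)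
    linear_combination h2
  -- norms
  have nX : ‖X‖ = Real.exp ξ.re := Complex.norm_exp _
  have nY : ‖Y‖ = Real.exp (-ξ.re) := by rw [hY, Complex.norm_exp]; simp
  have hXle : h * ‖X‖ ≤ 1 / 8 := by
    rw [nX]
    exact (mul_le_mul_of_nonneg_left (Real.exp_le_exp.2 (le_abs_self _)) hh.le).trans hξ
  have hYle : h * ‖Y‖ ≤ 1 / 8 := by
    rw [nY]
    exact (mul_le_mul_of_nonneg_left (Real.exp_le_exp.2 (neg_le_abs _)) hh.le).trans hξ
  have hvpos : 0 < ‖v‖ := norm_pos_iff.2 hv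
  have e4 : ‖X‖ * ‖1 + h * X‖ = ‖Y‖ * ‖1 + h * Y‖ := by
    have := congrArg norm e3
    rw [norm_mul, norm_mul, norm_mul, norm_mul, Complex.norm_conj] at this
    exact mul_left_cancel₀ hvpos.ne' this
  -- X and Y have the same argument
  have hXY : X * ‖Y‖ = Y * ‖X‖ := by
    rw [nX, nY, hX, hY]
    rw [Complex.ofReal_exp, Complex.ofReal_exp, ← Complex.exp_add, ← Complex.exp_add]
    congr 1
    apply Complex.ext
    · simp
    · simp
  have hXYn : ‖X - Y‖ = |‖X‖ - ‖Y‖| := by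
    have hYpos : 0 < ‖Y‖ := norm_pos_iff.2 hY0
    have h1 : (X - Y) * ‖Y‖ = Y * ((‖X‖ - ‖Y‖ : ℝ) : ℂ) := by
      push_cast
      linear_combination hXY
    have h2 := congrArg norm h1
    rw [norm_mul, norm_mul, Complex.norm_real, Complex.norm_real, norm_norm, Real.norm_eq_abs,
      mul_comm ‖Y‖] at h2
    exact mul_right_cancel₀ hYpos.ne' h2
  have l1 : 7 / 8 ≤ ‖1 + h * X‖ := by
    have := norm_sub_norm_le (1 : ℂ) (-(h * X))
    rw [norm_one, norm_neg, norm_mul, Complex.norm_real, Real.norm_of_nonneg hh.le,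
      sub_neg_eq_add] at this
    linarith
  have l2 : |‖1 + h * X‖ - ‖1 + h * Y‖| ≤ h * |‖X‖ - ‖Y‖| := by
    have := abs_norm_sub_norm_le (1 + h * X) (1 + h * Y)
    have h3 : (1 + h * X) - (1 + h * Y) = h * (X - Y) := by ring
    rw [h3, norm_mul, Complex.norm_real, Real.norm_of_nonneg hh.le, hXYn] at this
    exact this
  have e5 : ‖X‖ = ‖Y‖ := by
    by_contra hne
    have hpos : 0 < |‖X‖ - ‖Y‖| := abs_pos.2 (sub_ne_zero.2 hne)
    have h1 : (‖X‖ - ‖Y‖) * ‖1 + h * X‖ = -(‖Y‖ * (‖1 + h * X‖ - ‖1 + h * Y‖)) := by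
      linear_combination e4
    have h2 := congrArg abs h1
    rw [abs_neg, abs_mul, abs_mul, abs_of_nonneg (norm_nonneg (1 + h * X)),
      abs_of_nonneg (norm_nonneg Y)] at h2
    have h3 : |‖X‖ - ‖Y‖| * (7 / 8) ≤ |‖X‖ - ‖Y‖| * ‖1 + h * X‖ :=
      mul_le_mul_of_nonneg_left l1 hpos.le
    have h4 : ‖Y‖ * |‖1 + h * X‖ - ‖1 + h * Y‖| ≤ ‖Y‖ * (h * |‖X‖ - ‖Y‖|) :=
      mul_le_mul_of_nonneg_left l2 (norm_nonneg _)
    have h5 : ‖Y‖ * (h * |‖X‖ - ‖Y‖|) = (h * ‖Y‖) * |‖X‖ - ‖Y‖| := by ring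
    have h6 : (h * ‖Y‖) * |‖X‖ - ‖Y‖| ≤ 1 / 8 * |‖X‖ - ‖Y‖| :=
      mul_le_mul_of_nonneg_right hYle hpos.le
    linarith
  have hs : ξ.re = 0 := by
    rw [nX, nY] at e5
    have := Real.exp_injective e5
    linarith
  have hXY' : X = Y := by
    have h1 : ((‖Y‖ : ℝ) : ℂ) ≠ 0 := Complex.ofReal_ne_zero.2 (norm_ne_zero_iff.2 hY0)
    rw [e5] at hXY
    exact mul_right_cancel₀ h1 hXY
  have hne : X * (1 + h * X) ≠ 0 := by
    apply mul_ne_zero hX0
    apply norm_pos_iff.1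
    linarith
  rw [← hXY'] at e3
  have hvr : v = conj v := mul_right_cancel₀ hne e3
  have hvr' : ((v.re : ℝ) : ℂ) = v := by
    have := Complex.conj_eq_iff_real.1 hvr.symm
    obtain ⟨r, hr⟩ := this
    rw [hr]; simp
  rw [← hXY', ← hvr] at e1
  have e6 : v * (b + 2 * h * X) = 0 := by
    have : ((b * v.re : ℝ) : ℂ) = b * v := by push_cast; rw [hvr']
    rw [this] at e1
    linear_combination e1
  have e7 := (mul_eq_zero.1 e6).resolve_left hv
  have e8 : (b : ℂ) = -(2 * h * X) := by linear_combination e7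
  have e9 := congrArg norm e8
  rw [norm_neg, norm_mul, norm_mul, Complex.norm_real, Complex.norm_real, Complex.norm_ofNat,
    Real.norm_of_nonneg hh.le, Real.norm_of_nonneg P.b0.le, nX, hs, Real.exp_zero] at e9
  linarith

end Pool.Agent.Lib.MP_6a9e1f_gt
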