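import Mathlib

/-!
# Definitions used in the statement about a tight handle on a projected Veronese surface
-/

namespace Pool.Agent.Lib.MP_6a9e1f_gt

open Set Metric
open scoped ContDiff

/-- Euclidean `n`-space. -/
abbrev Eucl (n : ℕ) := EuclideanSpace ℝ (Fin n)

/-- The Veronese map
`v (x, y, z) = (x ^ 2, y ^ 2, z ^ 2, √2 * x * y, √2 * y * z, √2 * z * x)`. Its restriction to the
unit sphere identifies exactly antipodal points and takes values in the affine hyperplane
`x₁ + x₂ + x₃ = 1`. -/
noncomputable def veronese (x : Eucl 3) : Eucl 6 :=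
  WithLp.toLp 2 ![x 0 ^ 2, x 1 ^ 2, x 2 ^ 2,
    √2 * (x 0 * x 1), √2 * (x 1 * x 2), √2 * (x 2 * x 0)]

/-- The affine hyperplane `x₁ + x₂ + x₃ = 1` of `E⁶`, which contains the Veronese surface. -/
def hyperplane : Set (Eucl 6) := {p | p 0 + p 1 + p 2 = 1}

/-- `q` is the foot of the perpendicular from `p` to the affine subspace `A`. -/
def IsFoot {n : ℕ} (A : Set (Eucl n)) (p q : Eucl n) : Prop :=
  q ∈ A ∧ ∀ a ∈ A, inner ℝ (p - q) (a - q) = 0

/-- On the unit sphere, `V` is the Veronese map followed by the orthogonal projection of the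
five-dimensional affine hyperplane `x₁ + x₂ + x₃ = 1` onto a four-dimensional affine subspace of it,
which is identified with `E⁴` by an isometry `ι` (isometric maps between Euclidean spaces are
affine, so that `range ι` is a four-dimensional affine subspace): the point `ι (V x)` is the foot of
the perpendicular from `veronese x` to `range ι`. -/
def IsOrthogonalProjectionOfVeronese (V : Eucl 3 → Eucl 4) : Prop :=
  ∃ ι : Eucl 4 → Eucl 6, Isometry ι ∧ range ι ⊆ hyperplane ∧
    ∀ x : Eucl 3, ‖x‖ = 1 → IsFoot (range ι) (veronese x) (ι (V x))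

/-- `V` is smooth and for every unit vector `x` the derivative of `V` at `x` is injective on the
tangent space of the unit sphere at `x`, the orthogonal complement of `x`. For a map which takes the
same values at antipodal points of the sphere this means that the induced map of the projective
space is an immersion. -/
def InducesImmersion {E F : Type*} [NormedAddCommGroup E] [InnerProductSpace ℝ E]
    [NormedAddCommGroup F] [NormedSpace ℝ F] (V : E → F) : Prop :=
  ContDiff ℝ ∞ V ∧ ∀ x v : E, ‖x‖ = 1 → inner ℝ x v = 0 → fderiv ℝ V x v = 0 → v = 0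

/-- `V` induces an injective map of the projective space, the quotient of the unit sphere by the
antipodal map. -/
def InducesInjection {E F : Type*} [NormedAddCommGroup E] (V : E → F) : Prop :=
  ∀ x y : E, ‖x‖ = 1 → ‖y‖ = 1 → (V x = V y ↔ y = x ∨ y = -x)

/-- The restriction of `V : E³ → E⁴` to the unit sphere is a projected Veronese surface, of the
second of the two kinds of the problem: it is an orthogonal projection of the Veronese surface, and
the induced map of the projective plane is an immersion and injective. -/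
structure IsProjectedVeronese (V : Eucl 3 → Eucl 4) : Prop where
  projection : IsOrthogonalProjectionOfVeronese V
  immersion : InducesImmersion V
  injective : InducesInjection V

/-- `S` arises from the subset `R` of `Z` by attaching a handle inside `Z`:
* `d₁` and `d₂` parametrize disjoint closed discs in `R` by the closed unit disc of `ℂ`;
* `g` parametrizes an annulus in `Z` by `[0, 1] × S¹`, its boundary circles being the boundary
  circles of the two discs, and its interior is disjoint from what remains of `R` when the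
  interiors of the discs are removed;
* `S` is what remains of `R` when the interiors of the discs are removed, together with the
  annulus. -/
def HandleAttached {Z : Type*} [TopologicalSpace Z] (R S : Set Z) : Prop :=
  ∃ (d₁ d₂ : ℂ → Z) (g : ℝ × ℂ → Z),
    ContinuousOn d₁ (closedBall 0 1) ∧ InjOn d₁ (closedBall 0 1) ∧ d₁ '' closedBall 0 1 ⊆ R ∧
    ContinuousOn d₂ (closedBall 0 1) ∧ InjOn d₂ (closedBall 0 1) ∧ d₂ '' closedBall 0 1 ⊆ R ∧
    Disjoint (d₁ '' closedBall 0 1) (d₂ '' closedBall 0 1) ∧
    ContinuousOn g (Icc 0 1 ×ˢ sphere 0 1) ∧ InjOn g (Icc 0 1 ×ˢ sphere 0 1) ∧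
    g '' ({0} ×ˢ sphere 0 1) = d₁ '' sphere 0 1 ∧ g '' ({1} ×ˢ sphere 0 1) = d₂ '' sphere 0 1 ∧
    Disjoint (g '' (Ioo 0 1 ×ˢ sphere 0 1)) (R \ (d₁ '' ball 0 1 ∪ d₂ '' ball 0 1)) ∧
    S = (R \ (d₁ '' ball 0 1 ∪ d₂ '' ball 0 1)) ∪ g '' (Icc 0 1 ×ˢ sphere 0 1)

/-- The set `S` has a smooth chart at `p` with parameters in `F`: there is a smooth injective
immersion `φ` from an open subset of `F`, with `p` in its image, which maps open sets to relatively
open subsets of `S`. -/
def HasChart (F : Type*) [NormedAddCommGroup F] [NormedSpace ℝ F] {E : Type*}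
    [NormedAddCommGroup E] [NormedSpace ℝ E] (S : Set E) (p : E) : Prop :=
  ∃ (Ω : Set F) (φ : F → E), IsOpen Ω ∧ p ∈ φ '' Ω ∧ ContDiffOn ℝ ∞ φ Ω ∧ InjOn φ Ω ∧
    (∀ q ∈ Ω, Function.Injective (fderiv ℝ φ q)) ∧
    ∀ B ⊆ Ω, IsOpen B → ∃ U, IsOpen U ∧ φ '' B = S ∩ U

/-- `S` is a closed smooth embedded surface in `E⁴`: it is compact and has at each of its points a
smooth chart with two parameters. -/
def IsClosedSmoothSurface (S : Set (Eucl 4)) : Prop :=
  IsCompact S ∧ ∀ p ∈ S, HasChart (Eucl 2) S p

/-- The two-piece property: every open half-space `c < ⟨z, x⟩`, `z ≠ 0`, meets `S` in a connected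
(possibly empty) set. -/
def TwoPieceProperty (S : Set (Eucl 4)) : Prop :=
  ∀ z : Eucl 4, z ≠ 0 → ∀ c : ℝ, IsPreconnected (S ∩ {x | c < inner ℝ z x})

end Pool.Agent.Lib.MP_6a9e1f_gt
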