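import Mathlib
import Pool.Agent.Lib.MP_6a9e1f_gt.Defs

/-!
Topological lemmas: local charts of a subset of a normed space, two-piece property.
-/

namespace Pool.Agent.Lib.MP_6a9e1f_gt

open Set Topology
open scoped ContDiff

variable {F F' E E' : Type*} [NormedAddCommGroup F] [NormedSpace ℝ F]
  [NormedAddCommGroup F'] [NormedSpace ℝ F'] [NormedAddCommGroup E] [NormedSpace ℝ E]
  [NormedAddCommGroup E'] [NormedSpace ℝ E']

lemma HasChart.domain (L : F' ≃L[ℝ] F) {S : Set E} {p : E} (h : HasChart F S p) :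
    HasChart F' S p := by
  obtain ⟨Ω, φ, hΩ, ⟨q, hq, hqp⟩, hsm, hinj, him, hop⟩ := h
  refine ⟨L ⁻¹' Ω, φ ∘ L, hΩ.preimage L.continuous, ⟨L.symm q, ?_, ?_⟩, ?_, ?_, ?_, ?_⟩
  · simpa using hq
  · simpa using hqp
  · exact hsm.comp L.contDiff.contDiffOn (fun x hx => hx)
  · intro x hx y hy hxy
    exact L.injective (hinj hx hy hxy)
  · intro x hx
    have hd : DifferentiableAt ℝ φ (L x) :=
      (hsm.contDiffAt (hΩ.mem_nhds hx)).differentiableAt (by simp)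
    rw [fderiv_comp x hd L.differentiableAt, L.fderiv]
    intro a b hab
    exact L.injective (him (L x) hx hab)
  · intro B hB hBo
    obtain ⟨U, hU, hUe⟩ := hop (L '' B) (by rintro _ ⟨x, hx, rfl⟩; exact hB hx)
      (L.toHomeomorph.isOpenMap B hBo)
    exact ⟨U, hU, by rw [image_comp]; exact hUe⟩

lemma HasChart.map (T : E ≃L[ℝ] E') {S : Set E} {p : E} (h : HasChart F S p) :
    HasChart F (T '' S) (T p) := by
  obtain ⟨Ω, φ, hΩ, ⟨q, hq, hqp⟩, hsm, hinj, him, hop⟩ := h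
  refine ⟨Ω, T ∘ φ, hΩ, ⟨q, hq, by simp [hqp]⟩, T.contDiff.comp_contDiffOn hsm, ?_, ?_, ?_⟩
  · intro x hx y hy hxy
    exact hinj hx hy (T.injective hxy)
  · intro x hx
    have hd : DifferentiableAt ℝ φ x := (hsm.contDiffAt (hΩ.mem_nhds hx)).differentiableAt (by simp)
    rw [fderiv_comp x T.differentiableAt hd, T.fderiv]
    intro a b hab
    exact him x hx (T.injective hab)
  · intro B hB hBo
    obtain ⟨U, hU, hUe⟩ := hop B hB hBo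
    refine ⟨T '' U, T.toHomeomorph.isOpenMap U hU, ?_⟩
    rw [image_comp, hUe, image_inter T.injective]

/-- A subset of a union of three images of compact sets is relatively open as soon as its
preimages are relatively open. -/
lemma open_of_pieces {Y₁ Y₂ Y₃ Z : Type*} [TopologicalSpace Y₁] [TopologicalSpace Y₂]
    [TopologicalSpace Y₃] [TopologicalSpace Z] [T2Space Z]
    {K₁ : Set Y₁} {K₂ : Set Y₂} {K₃ : Set Y₃} (hK₁ : IsCompact K₁) (hK₂ : IsCompact K₂)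
    (hK₃ : IsCompact K₃) {f₁ : Y₁ → Z} {f₂ : Y₂ → Z} {f₃ : Y₃ → Z} (hf₁ : ContinuousOn f₁ K₁)
    (hf₂ : ContinuousOn f₂ K₂) (hf₃ : ContinuousOn f₃ K₃) {A : Set Z}
    (hA : A ⊆ f₁ '' K₁ ∪ f₂ '' K₂ ∪ f₃ '' K₃)
    {O₁ : Set Y₁} {O₂ : Set Y₂} {O₃ : Set Y₃} (hO₁ : IsOpen O₁) (hO₂ : IsOpen O₂)
    (hO₃ : IsOpen O₃) (h₁ : ∀ y ∈ K₁, f₁ y ∈ A ↔ y ∈ O₁) (h₂ : ∀ y ∈ K₂, f₂ y ∈ A ↔ y ∈ O₂)
    (h₃ : ∀ y ∈ K₃, f₃ y ∈ A ↔ y ∈ O₃) :
    ∃ U, IsOpen U ∧ A = (f₁ '' K₁ ∪ f₂ '' K₂ ∪ f₃ '' K₃) ∩ U := by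
  have c₁ : IsClosed (f₁ '' (K₁ \ O₁)) :=
    ((hK₁.diff hO₁).image_of_continuousOn (hf₁.mono sdiff_subset)).isClosed
  have c₂ : IsClosed (f₂ '' (K₂ \ O₂)) :=
    ((hK₂.diff hO₂).image_of_continuousOn (hf₂.mono sdiff_subset)).isClosed
  have c₃ : IsClosed (f₃ '' (K₃ \ O₃)) :=
    ((hK₃.diff hO₃).image_of_continuousOn (hf₃.mono sdiff_subset)).isClosed
  refine ⟨(f₁ '' (K₁ \ O₁) ∪ f₂ '' (K₂ \ O₂) ∪ f₃ '' (K₃ \ O₃))ᶜ,
    ((c₁.union c₂).union c₃).isOpen_compl, ?_⟩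
  ext z
  constructor
  · intro hz
    refine ⟨hA hz, ?_⟩
    rintro ((⟨y, ⟨hy, hyO⟩, rfl⟩ | ⟨y, ⟨hy, hyO⟩, rfl⟩) | ⟨y, ⟨hy, hyO⟩, rfl⟩)
    · exact hyO ((h₁ y hy).1 hz)
    · exact hyO ((h₂ y hy).1 hz)
    · exact hyO ((h₃ y hy).1 hz)
  · rintro ⟨(⟨y, hy, rfl⟩ | ⟨y, hy, rfl⟩) | ⟨y, hy, rfl⟩, hz⟩
    · by_contra hcon
      exact hz (Or.inl (Or.inl ⟨y, ⟨hy, fun hO => hcon ((h₁ y hy).2 hO)⟩, rfl⟩))
    · by_contra hcon
      exact hz (Or.inl (Or.inr ⟨y, ⟨hy, fun hO => hcon ((h₂ y hy).2 hO)⟩, rfl⟩))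
    · by_contra hcon
      exact hz (Or.inr ⟨y, ⟨hy, fun hO => hcon ((h₃ y hy).2 hO)⟩, rfl⟩)

/-- If any two local maxima of `ℓ` on the compact set `S` above the level `c` are joined by a
preconnected subset of `S` above the level `c` then `S ∩ {c < ℓ}` is preconnected. -/
lemma preconnected_of_localMax {Z : Type*} [TopologicalSpace Z] [T2Space Z] {S : Set Z}
    (hS : IsCompact S) {ℓ : Z → ℝ} (hℓ : Continuous ℓ) {c : ℝ}
    (h : ∀ a ∈ S, ∀ b ∈ S, c < ℓ a → c < ℓ b → IsLocalMaxOn ℓ S a → IsLocalMaxOn ℓ S b →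
      ∃ C ⊆ S ∩ {x | c < ℓ x}, IsPreconnected C ∧ a ∈ C ∧ b ∈ C) :
    IsPreconnected (S ∩ {x | c < ℓ x}) := by
  -- a local maximum in each relatively open and closed piece
  have key : ∀ U V : Set Z, IsOpen U → IsOpen V → S ∩ {x | c < ℓ x} ⊆ U ∪ V →
      (S ∩ {x | c < ℓ x} ∩ (U ∩ V)) = ∅ → (S ∩ {x | c < ℓ x} ∩ U).Nonempty →
      ∃ a ∈ S, c < ℓ a ∧ a ∈ U ∧ IsLocalMaxOn ℓ S a := by
    intro U V hU hV hcov hdisj hne
    have hcomp : IsCompact (closure (S ∩ {x | c < ℓ x} ∩ U)) := by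
      apply hS.of_isClosed_subset isClosed_closure
      apply closure_minimal _ hS.isClosed
      exact fun x hx => hx.1.1
    obtain ⟨a, ha, hmax⟩ := hcomp.exists_isMaxOn hne.closure hℓ.continuousOn
    obtain ⟨y, hy⟩ := hne
    have hca : c < ℓ a := lt_of_lt_of_le hy.1.2 (hmax (subset_closure hy))
    have haS : a ∈ S := by
      have : closure (S ∩ {x | c < ℓ x} ∩ U) ⊆ S :=
        closure_minimal (fun x hx => hx.1.1) hS.isClosed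
      exact this ha
    have haU : a ∈ U := by
      rcases hcov ⟨haS, hca⟩ with h | h
      · exact h
      · exfalso
        obtain ⟨z, hzV, hz⟩ := mem_closure_iff.1 ha V hV h
        have : z ∈ S ∩ {x | c < ℓ x} ∩ (U ∩ V) := ⟨hz.1, hz.2, hzV⟩
        rw [hdisj] at this
        exact this
    refine ⟨a, haS, hca, haU, ?_⟩
    have hnhds : U ∩ {x | c < ℓ x} ∈ 𝓝 a :=
      (hU.inter (isOpen_lt continuous_const hℓ)).mem_nhds ⟨haU, hca⟩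
    rw [IsLocalMaxOn, IsMaxFilter, eventually_nhdsWithin_iff]
    filter_upwards [hnhds] with z hz hzS
    exact hmax (subset_closure ⟨⟨hzS, hz.2⟩, hz.1⟩)
  intro U V hU hV hcov hneU hneV
  by_contra hcon
  rw [not_nonempty_iff_eq_empty] at hcon
  obtain ⟨a, haS, hca, haU, hamax⟩ := key U V hU hV hcov hcon hneU
  obtain ⟨b, hbS, hcb, hbV, hbmax⟩ := key V U hV hU (by rwa [union_comm]) (by rwa [inter_comm V U]) hneV
  obtain ⟨C, hCS, hC, haC, hbC⟩ := h a haS b hbS hca hcb hamax hbmax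
  obtain ⟨z, hz, hzUV⟩ := hC U V hU hV (hCS.trans hcov) ⟨a, haC, haU⟩ ⟨b, hbC, hbV⟩
  have : z ∈ S ∩ {x | c < ℓ x} ∩ (U ∩ V) := ⟨hCS hz, hzUV⟩
  rw [hcon] at this
  exact this

end Pool.Agent.Lib.MP_6a9e1f_gt
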