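import Mathlib
import Pool.Agent.Lib.MP_6a9e1f_gt.Phi
import Pool.Agent.Lib.MP_6a9e1f_gt.Top

/-!
The surface in affine coordinates: smoothness of the pieces, membership, symmetry.
-/

namespace Pool.Agent.Lib.MP_6a9e1f_gt

open ComplexConjugate Set Filter Topology
open scoped ContDiff

variable {M h b e : ℝ}

/-- Parameters of the half handle. -/
def KK (h : ℝ) : Set ℂ := {u | h ≤ ‖u‖ ∧ ‖u‖ ≤ 1 / 2}

/-- Unit vectors outside of the two removed discs. -/
def GG (e : ℝ) : Set (ℂ × ℝ) :=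
  {p | nn p = 1 ∧ e / 2 * |p.2| ≤ ‖p.1 - e * p.2‖ ∧ e / 2 * |p.2| ≤ ‖p.1 + e * p.2‖}

/-- The surface. -/
noncomputable def SS (h b e : ℝ) : Set (ℂ × ℂ) :=
  ver e '' GG e ∪ ff h b e '' KK h ∪ (fun u => sg (ff h b e u)) '' KK h

/-! ### Smoothness -/

lemma contDiff_F0 (e : ℝ) : ContDiff ℝ ∞ (F0 e) := by
  have : F0 e = fun u => 1 + e ^ 2 * g0 u := by funext u; rfl
  rw [this]
  exact contDiff_const.add (contDiff_const.mul contDiff_g0)

lemma contDiffAt_F1 (h b : ℝ) {u : ℂ} (hu : u ≠ 0) : ContDiffAt ℝ ∞ (F1 h b) u := by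
  have : F1 h b = fun u => (1 + u) + (b * g1 u + (-(h ^ 2 : ℝ) : ℂ) * g2 u) := by
    funext u; exact F1_eq h b u
  rw [this]
  exact (contDiffAt_const.add contDiffAt_id).add
    ((contDiffAt_const.mul (contDiffAt_g1 hu)).add (contDiffAt_const.mul (contDiffAt_g2 hu)))

lemma contDiffAt_F2 (h : ℝ) {u : ℂ} (hu : u ≠ 0) : ContDiffAt ℝ ∞ (F2 h) u := by
  have : F2 h = fun u => (1 + u) ^ 2 + (((2 * h ^ 2 : ℝ) : ℂ) * g2 u + ((h ^ 4 : ℝ) : ℂ) * g3 u) := by
    funext u; exact F2_eq'' h u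
  rw [this]
  exact ((contDiffAt_const.add contDiffAt_id).pow 2).add
    ((contDiffAt_const.mul (contDiffAt_g2 hu)).add (contDiffAt_const.mul (contDiffAt_g3 hu)))

lemma contDiffAt_ff (h b e : ℝ) {u : ℂ} (hu : u ≠ 0) : ContDiffAt ℝ ∞ (ff h b e) u := by
  have h0 : ContDiffAt ℝ ∞ (fun u => (F0 e u : ℂ)) u :=
    Complex.ofRealCLM.contDiff.contDiffAt.comp u (contDiff_F0 e).contDiffAt
  unfold ff
  exact (contDiffAt_div' (contDiffAt_F1 h b hu) h0 (F0_ne e u)).prodMk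
    (contDiffAt_div' (contDiffAt_F2 h hu) h0 (F0_ne e u))

lemma contDiff_nn : ContDiff ℝ ∞ nn := by
  unfold nn
  exact ((contDiff_normSq.of_le le_top).comp contDiff_fst).add (contDiff_snd.pow 2)

lemma contDiffAt_ver {e : ℝ} (he : e ≠ 0) {p : ℂ × ℝ} (hp : p ≠ 0) : ContDiffAt ℝ ∞ (ver e) p := by
  have hn := nn_pos hp
  have h1 : ContDiffAt ℝ ∞ (fun p : ℂ × ℝ => ((e * nn p : ℝ) : ℂ)) p :=
    Complex.ofRealCLM.contDiff.contDiffAt.comp p (contDiff_const.mul contDiff_nn).contDiffAt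
  have h2 : ContDiffAt ℝ ∞ (fun p : ℂ × ℝ => ((e ^ 2 * nn p : ℝ) : ℂ)) p :=
    Complex.ofRealCLM.contDiff.contDiffAt.comp p (contDiff_const.mul contDiff_nn).contDiffAt
  have h3 : ContDiffAt ℝ ∞ (fun p : ℂ × ℝ => (p.2 : ℂ)) p :=
    Complex.ofRealCLM.contDiff.contDiffAt.comp p contDiff_snd.contDiffAt
  have h4 : ContDiffAt ℝ ∞ (fun p : ℂ × ℝ => p.1) p := contDiff_fst.contDiffAt
  unfold ver
  exact (contDiffAt_div' (h3.mul h4) h1 (Complex.ofReal_ne_zero.2 (mul_ne_zero he hn.ne'))).prodMk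
    (contDiffAt_div' (h4.pow 2) h2
      (Complex.ofReal_ne_zero.2 (mul_ne_zero (pow_ne_zero 2 he) hn.ne')))

lemma KK_ne (P : Par M h b e) {u : ℂ} (hu : u ∈ KK h) : u ≠ 0 :=
  norm_pos_iff.1 (lt_of_lt_of_le P.h0 hu.1)

lemma continuousOn_ff (P : Par M h b e) : ContinuousOn (ff h b e) (KK h) := fun _ hu =>
  (contDiffAt_ff h b e (KK_ne P hu)).continuousAt.continuousWithinAt

lemma continuous_sg : Continuous sg := by
  unfold sg
  fun_prop

lemma GG_ne {p : ℂ × ℝ} (hp : p ∈ GG e) : p ≠ 0 := ne_zero_of_nn (by rw [hp.1]; norm_num)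

lemma isCompact_KK (h : ℝ) : IsCompact (KK h) := by
  apply (isCompact_closedBall (0 : ℂ) (1 / 2)).of_isClosed_subset
  · exact (isClosed_le continuous_const continuous_norm).inter
      (isClosed_le continuous_norm continuous_const)
  · intro u hu
    rw [mem_closedBall_zero_iff]; exact hu.2

lemma isCompact_GG (e : ℝ) : IsCompact (GG e) := by
  apply (isCompact_closedBall (0 : ℂ × ℝ) 1).of_isClosed_subset
  · have c1 : IsClosed {p : ℂ × ℝ | nn p = 1} :=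
      isClosed_eq contDiff_nn.continuous continuous_const
    have c2 : IsClosed {p : ℂ × ℝ | e / 2 * |p.2| ≤ ‖p.1 - e * p.2‖} :=
      isClosed_le (by fun_prop) (by fun_prop)
    have c3 : IsClosed {p : ℂ × ℝ | e / 2 * |p.2| ≤ ‖p.1 + e * p.2‖} :=
      isClosed_le (by fun_prop) (by fun_prop)
    exact c1.inter (c2.inter c3)
  · intro p hp
    have h1 := hp.1
    unfold nn at h1
    rw [Complex.normSq_eq_norm_sq] at h1
    rw [mem_closedBall_zero_iff, Prod.norm_def]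
    apply max_le
    · nlinarith [sq_nonneg p.2, norm_nonneg p.1]
    · rw [Real.norm_eq_abs]
      have h3 : |p.2| ^ 2 ≤ 1 := by rw [sq_abs]; nlinarith [sq_nonneg ‖p.1‖]
      nlinarith [abs_nonneg p.2]

lemma isCompact_SS (P : Par M h b e) : IsCompact (SS h b e) := by
  have c1 : IsCompact (ver e '' GG e) := (isCompact_GG e).image_of_continuousOn
    ((continuousOn_ver e P.e0.ne').mono fun p hp => GG_ne hp)
  have c2 : IsCompact (ff h b e '' KK h) := (isCompact_KK h).image_of_continuousOn (continuousOn_ff P)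
  have c3 : IsCompact ((fun u => sg (ff h b e u)) '' KK h) :=
    (isCompact_KK h).image_of_continuousOn (continuous_sg.comp_continuousOn (continuousOn_ff P))
  exact (c1.union c2).union c3

lemma SS_open (P : Par M h b e) {A : Set (ℂ × ℂ)} (hA : A ⊆ SS h b e) {O₁ : Set (ℂ × ℝ)}
    {O₂ O₃ : Set ℂ} (hO₁ : IsOpen O₁) (hO₂ : IsOpen O₂) (hO₃ : IsOpen O₃)
    (h₁ : ∀ y ∈ GG e, ver e y ∈ A ↔ y ∈ O₁) (h₂ : ∀ y ∈ KK h, ff h b e y ∈ A ↔ y ∈ O₂)
    (h₃ : ∀ y ∈ KK h, sg (ff h b e y) ∈ A ↔ y ∈ O₃) :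
    ∃ U, IsOpen U ∧ A = SS h b e ∩ U :=
  open_of_pieces (isCompact_GG e) (isCompact_KK h) (isCompact_KK h)
    ((continuousOn_ver e P.e0.ne').mono fun _ hp => GG_ne hp) (continuousOn_ff P)
    (continuous_sg.comp_continuousOn (continuousOn_ff P)) hA hO₁ hO₂ hO₃ h₁ h₂ h₃

/-! ### Symmetry -/

lemma sg_sg (x : ℂ × ℂ) : sg (sg x) = x := by simp [sg]

lemma sg_ver (e : ℝ) (p : ℂ × ℝ) : sg (ver e p) = ver e (-p.1, p.2) := by
  have hn : nn (-p.1, p.2) = nn p := by simp [nn]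
  unfold ver sg
  rw [hn]
  simp only [mul_neg, even_two, Even.neg_pow, neg_div]

lemma GG_sg {p : ℂ × ℝ} (hp : p ∈ GG e) : ((-p.1, p.2) : ℂ × ℝ) ∈ GG e := by
  refine ⟨?_, ?_, ?_⟩
  · have hn : nn (-p.1, p.2) = nn p := by simp [nn]
    rw [hn]; exact hp.1
  · simp only
    rw [show -p.1 - (e : ℂ) * p.2 = -(p.1 + e * p.2) by ring, norm_neg]; exact hp.2.2
  · simp only
    rw [show -p.1 + (e : ℂ) * p.2 = -(p.1 - e * p.2) by ring, norm_neg]; exact hp.2.1

lemma sg_mem {x : ℂ × ℂ} (hx : x ∈ SS h b e) : sg x ∈ SS h b e := by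
  rcases hx with (⟨p, hp, rfl⟩ | ⟨u, hu, rfl⟩) | ⟨u, hu, rfl⟩
  · rw [sg_ver]
    exact Or.inl (Or.inl ⟨_, GG_sg hp, rfl⟩)
  · exact Or.inr ⟨u, hu, rfl⟩
  · simp only [sg_sg]
    exact Or.inl (Or.inr ⟨u, hu, rfl⟩)

/-- The symmetry as a linear equivalence. -/
noncomputable def sgL : (ℂ × ℂ) ≃L[ℝ] (ℂ × ℂ) :=
  (ContinuousLinearEquiv.neg ℝ).prodCongr (ContinuousLinearEquiv.refl ℝ ℂ)

lemma sgL_apply (x : ℂ × ℂ) : sgL x = sg x := rfl

lemma sg_image : sgL '' SS h b e = SS h b e := by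
  ext x
  constructor
  · rintro ⟨y, hy, rfl⟩
    exact sg_mem hy
  · intro hx
    exact ⟨sg x, sg_mem hx, by rw [sgL_apply, sg_sg]⟩

/-! ### Membership -/

lemma P38 (P : Par M h b e) : h ≤ 3 / 8 := by linarith [P.h_le]

lemma ver_mem (P : Par M h b e) {p : ℂ × ℝ} (hp : p ≠ 0)
    (hp1 : 3 / 8 * (e * |p.2|) ≤ ‖p.1 - e * p.2‖)
    (hp2 : 3 / 8 * (e * |p.2|) ≤ ‖p.1 + e * p.2‖) : ver e p ∈ SS h b e := by
  have he := P.e0
  have hec : (e : ℂ) ≠ 0 := Complex.ofReal_ne_zero.2 he.ne'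
  have hh := P38 P
  by_cases hz : p.2 = 0
  · obtain ⟨t, ht, htn⟩ := exists_unit hp
    refine Or.inl (Or.inl ⟨t • p, ⟨htn, ?_, ?_⟩, ver_smul e ht.ne' p⟩)
    · simp only [Prod.smul_snd, hz, smul_zero, abs_zero, mul_zero]; exact norm_nonneg _
    · simp only [Prod.smul_snd, hz, smul_zero, abs_zero, mul_zero]; exact norm_nonneg _
  have hz' : 0 < |p.2| := abs_pos.2 hz
  have hzc : (p.2 : ℂ) ≠ 0 := Complex.ofReal_ne_zero.2 hz
  set w : ℂ := p.1 / (e * p.2) with hw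
  have hpw : p.1 = (e : ℂ) * w * p.2 := by rw [hw]; field_simp
  have hver := vc_of_eq hz hpw
  have n1 : ‖p.1 - e * p.2‖ = e * |p.2| * ‖w - 1‖ := by
    rw [hpw, show (e : ℂ) * w * p.2 - e * p.2 = (e * p.2) * (w - 1) by ring, norm_mul, norm_mul,
      Complex.norm_real, Complex.norm_real, Real.norm_of_nonneg he.le, Real.norm_eq_abs]
  have n2 : ‖p.1 + e * p.2‖ = e * |p.2| * ‖w + 1‖ := by
    rw [hpw, show (e : ℂ) * w * p.2 + e * p.2 = (e * p.2) * (w + 1) by ring, norm_mul, norm_mul,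
      Complex.norm_real, Complex.norm_real, Real.norm_of_nonneg he.le, Real.norm_eq_abs]
  have hpos : 0 < e * |p.2| := by positivity
  have w1 : 3 / 8 ≤ ‖w - 1‖ := by
    rw [n1, mul_comm (3 / 8 : ℝ)] at hp1
    exact le_of_mul_le_mul_left hp1 hpos
  have w2 : 3 / 8 ≤ ‖w + 1‖ := by
    rw [n2, mul_comm (3 / 8 : ℝ)] at hp2
    exact le_of_mul_le_mul_left hp2 hpos
  by_cases c1 : 1 / 2 ≤ ‖w - 1‖
  · by_cases c2 : 1 / 2 ≤ ‖w + 1‖
    · obtain ⟨t, ht, htn⟩ := exists_unit hp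
      refine Or.inl (Or.inl ⟨t • p, ⟨htn, ?_, ?_⟩, ver_smul e ht.ne' p⟩)
      · have : (t • p).1 - (e : ℂ) * (t • p).2 = t * (p.1 - e * p.2) := by
          simp only [Prod.smul_fst, Prod.smul_snd, Complex.real_smul, smul_eq_mul,
            Complex.ofReal_mul]
          ring
        rw [this, norm_mul, Complex.norm_real, Real.norm_of_nonneg ht.le, n1]
        simp only [Prod.smul_snd, smul_eq_mul, abs_mul, abs_of_pos ht]
        have h3 : e * |p.2| * (1 / 2) ≤ e * |p.2| * ‖w - 1‖ := mul_le_mul_of_nonneg_left c1 hpos.le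
        nlinarith
      · have : (t • p).1 + (e : ℂ) * (t • p).2 = t * (p.1 + e * p.2) := by
          simp only [Prod.smul_fst, Prod.smul_snd, Complex.real_smul, smul_eq_mul,
            Complex.ofReal_mul]
          ring
        rw [this, norm_mul, Complex.norm_real, Real.norm_of_nonneg ht.le, n2]
        simp only [Prod.smul_snd, smul_eq_mul, abs_mul, abs_of_pos ht]
        have h3 : e * |p.2| * (1 / 2) ≤ e * |p.2| * ‖w + 1‖ := mul_le_mul_of_nonneg_left c2 hpos.le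
        nlinarith
    · push Not at c2
      refine Or.inr ⟨-(w + 1), ⟨?_, ?_⟩, ?_⟩
      · rw [norm_neg]; linarith
      · rw [norm_neg]; linarith
      · simp only
        rw [ff_eq_ver he.ne' (by rw [norm_neg]; linarith), hver, ← ver_vc_neg he.ne']
        congr 2
        ring
  · push Not at c1
    refine Or.inl (Or.inr ⟨w - 1, ⟨by linarith, by linarith⟩, ?_⟩)
    rw [ff_eq_ver he.ne' (by linarith), hver]
    congr 2
    ring

lemma ver_vc_mem (P : Par M h b e) {w : ℂ} (h1 : 3 / 8 ≤ ‖w - 1‖) (h2 : 3 / 8 ≤ ‖w + 1‖) :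
    ver e (vc e w) ∈ SS h b e := by
  have he := P.e0
  apply ver_mem P (vc_ne_zero e w)
  · simp only [vc, Complex.ofReal_one, mul_one, abs_one]
    rw [show (e : ℂ) * w - e = e * (w - 1) by ring, norm_mul, Complex.norm_real,
      Real.norm_of_nonneg he.le]
    nlinarith
  · simp only [vc, Complex.ofReal_one, mul_one, abs_one]
    rw [show (e : ℂ) * w + e = e * (w + 1) by ring, norm_mul, Complex.norm_real,
      Real.norm_of_nonneg he.le]
    nlinarith

lemma ff_mem (P : Par M h b e) {u : ℂ} (hu : h ≤ ‖u‖) (hu1 : ‖u‖ ≤ 5 / 8) :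
    ff h b e u ∈ SS h b e := by
  by_cases h1 : ‖u‖ ≤ 1 / 2
  · exact Or.inl (Or.inr ⟨u, ⟨hu, h1⟩, rfl⟩)
  · push Not at h1
    rw [ff_eq_ver P.e0.ne' (by linarith)]
    apply ver_vc_mem P
    · rw [add_sub_cancel_left]; linarith
    · have := norm_sub_norm_le (2 : ℂ) (-u)
      rw [norm_neg, Complex.norm_ofNat, sub_neg_eq_add] at this
      rw [show 1 + u + 1 = 2 + u by ring]
      linarith

lemma Phi_mem (P : Par M h b e) {ξ : ℂ} (hξ : h * Real.exp |ξ.re| ≤ 1 / 8) :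
    Phi h b ξ ∈ SS h b e := by
  have hh := P.h0
  rcases le_total 0 ξ.re with h0 | h0
  · rw [abs_of_nonneg h0] at hξ
    rw [← ff_hexp P hξ]
    have hn := norm_hexp hh ξ
    apply ff_mem P
    · rw [hn]
      have : 1 ≤ Real.exp ξ.re := Real.one_le_exp h0
      nlinarith
    · rw [hn]; linarith
  · rw [abs_of_nonpos h0] at hξ
    have h1 : Phi h b ξ = sg (Phi h b (-conj ξ)) := by
      rw [Phi_refl, sg_sg]
    rw [h1]
    apply sg_mem
    have hre : (-conj ξ).re = -ξ.re := by simp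
    rw [← ff_hexp P (by rw [hre]; exact hξ)]
    have hn := norm_hexp hh (-conj ξ)
    rw [hre] at hn
    apply ff_mem P
    · rw [hn]
      have : 1 ≤ Real.exp (-ξ.re) := Real.one_le_exp (by linarith)
      nlinarith
    · rw [hn]; linarith

end Pool.Agent.Lib.MP_6a9e1f_gt
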