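import Mathlib
import Pool.Agent.Lib.MP_6a9e1f_gt.Surf

/-!
Smooth charts of the surface.
-/

namespace Pool.Agent.Lib.MP_6a9e1f_gt

open ComplexConjugate Set Filter Topology
open scoped ContDiff

variable {M h b e : ℝ}

lemma fderiv_inj_of_line {F E : Type*} [NormedAddCommGroup F] [NormedSpace ℝ F]
    [NormedAddCommGroup E] [NormedSpace ℝ E] {φ : F → E} {q : F} (hφ : DifferentiableAt ℝ φ q)
    (h : ∀ v, HasDerivAt (fun t : ℝ => φ (q + t • v)) 0 0 → v = 0) :
    Function.Injective (fderiv ℝ φ q) := by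
  rw [injective_iff_map_eq_zero]
  intro v hv
  apply h
  have hline : HasDerivAt (fun t : ℝ => q + t • v) v 0 := by
    have h1 : HasDerivAt (fun t : ℝ => t • v) ((1 : ℝ) • v) 0 := (hasDerivAt_id 0).smul_const v
    rw [one_smul] at h1
    simpa using h1.const_add q
  have h1 : HasFDerivAt φ (fderiv ℝ φ q) (q + (0 : ℝ) • v) := by simpa using hφ.hasFDerivAt
  have h2 := h1.comp_hasDerivAt (0 : ℝ) hline
  rwa [hv] at h2

lemma ver_id1 {e : ℝ} (he : e ≠ 0) (p : ℂ × ℝ) :
    (p.2 : ℂ) * p.1 = ((e * nn p : ℝ) : ℂ) * (ver e p).1 := by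
  by_cases hp : p = 0
  · subst hp; simp [ver, nn]
  · have hn : ((e * nn p : ℝ) : ℂ) ≠ 0 :=
      Complex.ofReal_ne_zero.2 (mul_ne_zero he (nn_pos hp).ne')
    unfold ver
    simp only
    field_simp

lemma ver_id2 {e : ℝ} (he : e ≠ 0) (p : ℂ × ℝ) :
    p.1 ^ 2 = ((e ^ 2 * nn p : ℝ) : ℂ) * (ver e p).2 := by
  by_cases hp : p = 0
  · subst hp; simp [ver, nn]
  · have hn : ((e ^ 2 * nn p : ℝ) : ℂ) ≠ 0 :=
      Complex.ofReal_ne_zero.2 (mul_ne_zero (pow_ne_zero 2 he) (nn_pos hp).ne')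
    unfold ver
    simp only
    field_simp

/-- The projected Veronese map is an immersion of the projective plane. -/
lemma ver_imm {e : ℝ} (he : 0 < e) {c1 : ℝ → ℂ} {c2 : ℝ → ℝ} {c1' : ℂ} {c2' : ℝ}
    (h1 : HasDerivAt c1 c1' 0) (h2 : HasDerivAt c2 c2' 0) (hp : ((c1 0, c2 0) : ℂ × ℝ) ≠ 0)
    (hd : HasDerivAt (fun t => ver e (c1 t, c2 t)) 0 0) :
    ∃ l : ℝ, c1' = l * c1 0 ∧ c2' = l * c2 0 := by
  have hn := nn_pos hp
  have hec : (e : ℂ) ≠ 0 := Complex.ofReal_ne_zero.2 he.ne'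
  have dX : HasDerivAt (fun t => (ver e (c1 t, c2 t)).1) 0 0 :=
    (ContinuousLinearMap.fst ℝ ℂ ℂ).hasFDerivAt.comp_hasDerivAt 0 hd
  have dY : HasDerivAt (fun t => (ver e (c1 t, c2 t)).2) 0 0 :=
    (ContinuousLinearMap.snd ℝ ℂ ℂ).hasFDerivAt.comp_hasDerivAt 0 hd
  have dre : HasDerivAt (fun t => (c1 t).re) c1'.re 0 :=
    Complex.reCLM.hasFDerivAt.comp_hasDerivAt 0 h1
  have dim : HasDerivAt (fun t => (c1 t).im) c1'.im 0 :=
    Complex.imCLM.hasFDerivAt.comp_hasDerivAt 0 h1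
  set N' : ℝ := 2 * ((c1 0).re * c1'.re + (c1 0).im * c1'.im + c2 0 * c2') with hN'
  have dN : HasDerivAt (fun t => nn (c1 t, c2 t)) N' 0 := by
    have := ((dre.mul dre).add (dim.mul dim)).add (h2.pow 2)
    have h3 : (fun t => nn (c1 t, c2 t)) =
        fun t => (c1 t).re * (c1 t).re + (c1 t).im * (c1 t).im + c2 t ^ 2 := by
      funext t; simp [nn, Complex.normSq_apply]
    rw [h3]
    refine this.congr_deriv ?_
    simp only [Nat.cast_ofNat, Nat.reduceSub, pow_one, hN']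
    ring
  set N : ℝ := nn (c1 0, c2 0) with hN
  have hNc : (N : ℂ) ≠ 0 := Complex.ofReal_ne_zero.2 hn.ne'
  have d2c : HasDerivAt (fun t => (c2 t : ℂ)) (c2' : ℂ) 0 := h2.ofReal_comp
  -- differentiate the first identity
  have e1 : (c2' : ℂ) * c1 0 + c2 0 * c1' = ((e * N' : ℝ) : ℂ) * (ver e (c1 0, c2 0)).1 := by
    have i1 := d2c.mul h1
    have i2 : HasDerivAt (fun t => ((e * nn (c1 t, c2 t) : ℝ) : ℂ) * (ver e (c1 t, c2 t)).1)
        (((e * N' : ℝ) : ℂ) * (ver e (c1 0, c2 0)).1 + ((e * nn (c1 0, c2 0) : ℝ) : ℂ) * 0) 0 :=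
      ((dN.const_mul e).ofReal_comp).mul dX
    have i3 : (fun t => (c2 t : ℂ) * c1 t) =
        fun t => ((e * nn (c1 t, c2 t) : ℝ) : ℂ) * (ver e (c1 t, c2 t)).1 := by
      funext t; exact ver_id1 he.ne' (c1 t, c2 t)
    have i4 : HasDerivAt (fun t => (c2 t : ℂ) * c1 t) ((c2' : ℂ) * c1 0 + c2 0 * c1') 0 := i1
    rw [i3] at i4
    have i5 := i4.unique i2
    rw [i5]; ring
  have e2 : 2 * c1 0 * c1' = ((e ^ 2 * N' : ℝ) : ℂ) * (ver e (c1 0, c2 0)).2 := by
    have i2 : HasDerivAt (fun t => ((e ^ 2 * nn (c1 t, c2 t) : ℝ) : ℂ) * (ver e (c1 t, c2 t)).2)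
        (((e ^ 2 * N' : ℝ) : ℂ) * (ver e (c1 0, c2 0)).2 +
          ((e ^ 2 * nn (c1 0, c2 0) : ℝ) : ℂ) * 0) 0 :=
      ((dN.const_mul (e ^ 2)).ofReal_comp).mul dY
    have i3 : (fun t => c1 t ^ 2) =
        fun t => ((e ^ 2 * nn (c1 t, c2 t) : ℝ) : ℂ) * (ver e (c1 t, c2 t)).2 := by
      funext t; exact ver_id2 he.ne' (c1 t, c2 t)
    have i4 : HasDerivAt (fun t => c1 t ^ 2) (2 * c1 0 * c1') 0 := by
      refine (h1.pow 2).congr_deriv ?_
      simp only [Nat.cast_ofNat, Nat.reduceSub, pow_one]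
    rw [i3] at i4
    have i5 := i4.unique i2
    rw [i5]; ring
  have e3 : (N : ℂ) * ((c2' : ℂ) * c1 0 + c2 0 * c1') = N' * (c2 0 * c1 0) := by
    have := ver_id1 he.ne' (c1 0, c2 0)
    simp only at this
    rw [e1, this, ← hN]
    push_cast; ring
  have e4 : (N : ℂ) * (2 * c1 0 * c1') = N' * c1 0 ^ 2 := by
    have := ver_id2 he.ne' (c1 0, c2 0)
    simp only at this
    rw [e2, this, ← hN]
    push_cast; ring
  refine ⟨N' / (2 * N), ?_⟩
  by_cases hc : c1 0 = 0
  · have hc2 : c2 0 ≠ 0 := by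
      intro h0
      apply hp
      rw [hc, h0]; rfl
    have hc2' : (c2 0 : ℂ) ≠ 0 := Complex.ofReal_ne_zero.2 hc2
    rw [hc] at e3
    have e5 : c1' = 0 := by
      have : (N : ℂ) * (c2 0 * c1') = 0 := by linear_combination e3
      have h3 := (mul_eq_zero.1 this).resolve_left hNc
      exact (mul_eq_zero.1 h3).resolve_left hc2'
    refine ⟨by rw [e5, hc, mul_zero], ?_⟩
    have hNN : N = c2 0 ^ 2 := by rw [hN, hc]; simp [nn]
    have hNN' : N' = 2 * (c2 0 * c2') := by rw [hN', hc]; simp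
    rw [hNN, hNN']
    field_simp
  · have e5 : (2 * N : ℂ) * c1' = N' * c1 0 := by
      have : c1 0 * ((2 * N : ℂ) * c1' - N' * c1 0) = 0 := by linear_combination e4
      have h3 := (mul_eq_zero.1 this).resolve_left hc
      linear_combination h3
    have e6 : c1' = ((N' / (2 * N) : ℝ) : ℂ) * c1 0 := by
      push_cast
      field_simp
      linear_combination e5
    refine ⟨e6, ?_⟩
    have e7 : (2 * N : ℂ) * c2' = N' * c2 0 := by
      have : c1 0 * ((2 * N : ℂ) * c2' - N' * c2 0) = 0 := by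
        linear_combination 2 * e3 - c2 0 * e5
      have h3 := (mul_eq_zero.1 this).resolve_left hc
      linear_combination h3
    have e8 : 2 * N * c2' = N' * c2 0 := by exact_mod_cast e7
    field_simp
    linarith

lemma contDiff_vc (e : ℝ) : ContDiff ℝ ∞ (vc e) := by
  unfold vc
  exact (contDiff_const.mul contDiff_id).prodMk contDiff_const

lemma GG_38 (P : Par M h b e) {p : ℂ × ℝ} (hp : p ∈ GG e) :
    3 / 8 * (e * |p.2|) ≤ ‖p.1 - e * p.2‖ ∧ 3 / 8 * (e * |p.2|) ≤ ‖p.1 + e * p.2‖ := by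
  have h1 : 0 ≤ e * |p.2| := mul_nonneg P.e0.le (abs_nonneg _)
  have h2 := hp.2.1
  have h3 := hp.2.2
  have h4 : e / 2 * |p.2| = 1 / 2 * (e * |p.2|) := by ring
  rw [h4] at h2 h3
  constructor <;> linarith

lemma vc_38 (he : 0 < e) {w : ℂ} (h1 : 3 / 8 ≤ ‖w - 1‖) (h2 : 3 / 8 ≤ ‖w + 1‖) :
    3 / 8 * (e * |(vc e w).2|) ≤ ‖(vc e w).1 - e * (vc e w).2‖ ∧
      3 / 8 * (e * |(vc e w).2|) ≤ ‖(vc e w).1 + e * (vc e w).2‖ := by
  simp only [vc, Complex.ofReal_one, mul_one, abs_one]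
  constructor
  · rw [show (e : ℂ) * w - e = e * (w - 1) by ring, norm_mul, Complex.norm_real,
      Real.norm_of_nonneg he.le]
    nlinarith
  · rw [show (e : ℂ) * w + e = e * (w + 1) by ring, norm_mul, Complex.norm_real,
      Real.norm_of_nonneg he.le]
    nlinarith

lemma isOpen_div {B : Set ℂ} (hB : IsOpen B) (e : ℝ) (he : e ≠ 0) :
    IsOpen {p : ℂ × ℝ | p.2 ≠ 0 ∧ p.1 / (e * p.2) ∈ B} := by
  have ho : IsOpen {p : ℂ × ℝ | p.2 ≠ 0} := isOpen_ne_fun continuous_snd continuous_const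
  have hc : ContinuousOn (fun p : ℂ × ℝ => p.1 / (e * p.2)) {p : ℂ × ℝ | p.2 ≠ 0} := by
    apply ContinuousOn.div
    · fun_prop
    · fun_prop
    · intro p hp
      exact mul_ne_zero (Complex.ofReal_ne_zero.2 he) (Complex.ofReal_ne_zero.2 hp)
  exact hc.isOpen_inter_preimage ho hB

/-- Charts on the Veronese part away from the equator. -/
lemma chart_w (P : Par M h b e) {w₀ : ℂ} (h1 : 3 / 8 < ‖w₀ - 1‖) (h2 : 3 / 8 < ‖w₀ + 1‖) :
    HasChart ℂ (SS h b e) (ver e (vc e w₀)) := by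
  have he := P.e0
  have hec : (e : ℂ) ≠ 0 := Complex.ofReal_ne_zero.2 he.ne'
  have hsm : ∀ w, ContDiffAt ℝ ∞ (fun w => ver e (vc e w)) w := fun w =>
    (contDiffAt_ver he.ne' (vc_ne_zero e w)).comp w (contDiff_vc e).contDiffAt
  refine ⟨{w | 3 / 8 < ‖w - 1‖ ∧ 3 / 8 < ‖w + 1‖}, fun w => ver e (vc e w), ?_,
    ⟨w₀, ⟨h1, h2⟩, rfl⟩, fun w _ => (hsm w).contDiffWithinAt, ?_, ?_, ?_⟩
  · exact (isOpen_lt continuous_const (by fun_prop : Continuous fun w : ℂ => ‖w - 1‖)).inter
      (isOpen_lt continuous_const (by fun_prop : Continuous fun w : ℂ => ‖w + 1‖))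
  · intro w _ w' _ heq
    obtain ⟨-, h3⟩ := eq_vc he (vc_ne_zero e w) heq
    simp only [vc, Complex.ofReal_one, mul_one] at h3
    exact mul_left_cancel₀ hec h3
  · intro w _
    apply fderiv_inj_of_line ((hsm w).differentiableAt (by simp))
    intro v hd
    have hc1 : HasDerivAt (fun t : ℝ => (e : ℂ) * (w + t • v)) (e * v) 0 :=
      (hasDerivAt_line w v 0).const_mul (e : ℂ)
    have hc2 : HasDerivAt (fun _ : ℝ => (1 : ℝ)) 0 0 := hasDerivAt_const 0 1
    obtain ⟨l, hl1, hl2⟩ := ver_imm he hc1 hc2 (vc_ne_zero e _) hd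
    rw [mul_one] at hl2
    rw [← hl2] at hl1
    simp only [Complex.ofReal_zero, zero_mul] at hl1
    exact (mul_eq_zero.1 hl1).resolve_left hec
  · intro B hB hBo
    refine SS_open P ?_ (O₁ := {p : ℂ × ℝ | p.2 ≠ 0 ∧ p.1 / (e * p.2) ∈ B})
      (O₂ := {u | 1 + u ∈ B}) (O₃ := {u | -(1 + u) ∈ B}) (isOpen_div hBo e he.ne')
      (hBo.preimage (by fun_prop)) (hBo.preimage (by fun_prop)) ?_ ?_ ?_
    · rintro _ ⟨w, hw, rfl⟩
      exact ver_vc_mem P (hB hw).1.le (hB hw).2.le
    · intro p hp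
      constructor
      · rintro ⟨w, hw, hwp⟩
        obtain ⟨h3, h4⟩ := eq_vc he (GG_ne hp) hwp.symm
        have h3' : (p.2 : ℂ) ≠ 0 := Complex.ofReal_ne_zero.2 h3
        refine ⟨h3, ?_⟩
        have : p.1 / (e * p.2) = w := by rw [h4]; field_simp
        rw [this]; exact hw
      · rintro ⟨h3, h4⟩
        have h3' : (p.2 : ℂ) ≠ 0 := Complex.ofReal_ne_zero.2 h3
        refine ⟨_, h4, ?_⟩
        simp only
        rw [vc_of_eq h3]
        field_simp
    · intro u hu
      constructor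
      · rintro ⟨w, hw, hwp⟩
        have h3 := vc_38 he (hB hw).1.le (hB hw).2.le
        obtain ⟨-, -, h5⟩ := ff_ver P hu.1 (vc_ne_zero e w) h3.1 h3.2 hwp.symm
        simp only [vc, Complex.ofReal_one, mul_one] at h5
        have h6 : w = 1 + u := mul_left_cancel₀ hec h5
        simp only [mem_ofPred_eq, ← h6]
        exact hw
      · intro hu1
        have h3 := (hB hu1).1
        rw [add_sub_cancel_left] at h3
        exact ⟨1 + u, hu1, (ff_eq_ver he.ne' (by linarith)).symm⟩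
    · intro u hu
      constructor
      · rintro ⟨w, hw, hwp⟩
        have h3 := vc_38 he (hB hw).1.le (hB hw).2.le
        obtain ⟨-, -, h5⟩ := ff_sg_ver P hu.1 (vc_ne_zero e w) h3.1 h3.2 hwp.symm
        simp only [vc, Complex.ofReal_one, mul_one] at h5
        have h6 : w = -(1 + u) := mul_left_cancel₀ hec h5
        simp only [mem_ofPred_eq, ← h6]
        exact hw
      · intro hu1
        have h3 := (hB hu1).2
        rw [show -(1 + u) + 1 = -u by ring, norm_neg] at h3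
        refine ⟨-(1 + u), hu1, ?_⟩
        simp only
        rw [ver_vc_neg he.ne', ff_eq_ver he.ne' (by linarith)]

lemma e_lt (P : Par M h b e) : e < 1 / 60 := by
  have := P.e_le
  have := P.e0
  nlinarith

/-- Charts along the equator. -/
lemma chart_eq (P : Par M h b e) {X : ℂ} (hX : ‖X‖ = 1) :
    HasChart (ℝ × ℝ) (SS h b e) (ver e (X, 0)) := by
  have he := P.e0
  have he1 := e_lt P
  have hec : (e : ℂ) ≠ 0 := Complex.ofReal_ne_zero.2 he.ne'
  have hX0 : X ≠ 0 := norm_pos_iff.1 (by rw [hX]; norm_num)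
  have hXX : X * conj X = 1 := by
    rw [Complex.mul_conj, Complex.normSq_eq_norm_sq, hX]; norm_num
  set c : ℝ × ℝ → ℂ × ℝ := fun q => (X * (1 + q.1 * Complex.I), q.2) with hc
  have hcX : ∀ q : ℝ × ℝ, (c q).1 * conj X = 1 + q.1 * Complex.I := by
    intro q
    simp only [hc]
    linear_combination (1 + q.1 * Complex.I) * hXX
  have hcn : ∀ q : ℝ × ℝ, 1 ≤ ‖(c q).1‖ := by
    intro q
    simp only [hc]
    rw [norm_mul, hX, one_mul]
    have h3 := Complex.abs_re_le_norm (1 + q.1 * Complex.I)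
    simpa using h3
  have hcne : ∀ q : ℝ × ℝ, c q ≠ 0 := by
    intro q h0
    have := hcn q
    rw [h0] at this
    simp at this
    linarith
  have hcs : ContDiff ℝ ∞ c := by
    apply ContDiff.prodMk
    · apply contDiff_const.mul
      apply contDiff_const.add
      exact (Complex.ofRealCLM.contDiff.comp contDiff_fst).mul contDiff_const
    · exact contDiff_snd
  have hsm : ∀ q, ContDiffAt ℝ ∞ (fun q => ver e (c q)) q := fun q =>
    (contDiffAt_ver he.ne' (hcne q)).comp q hcs.contDiffAt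
  have hc38 : ∀ q : ℝ × ℝ, |q.2| < 1 → 3 / 8 * (e * |(c q).2|) ≤ ‖(c q).1 - e * (c q).2‖ ∧
      3 / 8 * (e * |(c q).2|) ≤ ‖(c q).1 + e * (c q).2‖ := by
    intro q hq
    have h3 := hcn q
    have h4 : ‖(e : ℂ) * (c q).2‖ = e * |(c q).2| := by
      rw [norm_mul, Complex.norm_real, Complex.norm_real, Real.norm_of_nonneg he.le,
        Real.norm_eq_abs]
    have h5 : e * |(c q).2| ≤ e := by
      have : |(c q).2| ≤ 1 := hq.le
      nlinarith
    have h6 := norm_sub_norm_le (c q).1 ((e : ℂ) * (c q).2)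
    have h7 := norm_sub_norm_le (c q).1 (-((e : ℂ) * (c q).2))
    rw [norm_neg, sub_neg_eq_add] at h7
    rw [h4] at h6 h7
    constructor <;> linarith
  have hnot : ∀ q : ℝ × ℝ, |q.2| < 1 → ∀ u : ℂ, ‖u‖ ≤ 1 / 2 → ∀ s : ℂ, ‖s‖ = 1 →
      (c q).1 ≠ (e : ℂ) * (s * (1 + u)) * (c q).2 := by
    intro q hq u hu s hs h3
    have h4 : ‖(e : ℂ) * (s * (1 + u)) * (c q).2‖ = e * ‖1 + u‖ * |(c q).2| := by
      rw [norm_mul, norm_mul, norm_mul, hs, one_mul, Complex.norm_real, Complex.norm_real,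
        Real.norm_of_nonneg he.le, Real.norm_eq_abs]
    rw [← h3] at h4
    have h5 := hcn q
    have h6 : ‖1 + u‖ ≤ 3 / 2 := by
      have := norm_add_le (1 : ℂ) u
      rw [norm_one] at this; linarith
    have h7 : e * ‖1 + u‖ ≤ 1 / 60 * (3 / 2) := mul_le_mul he1.le h6 (norm_nonneg _) (by norm_num)
    have h8 : e * ‖1 + u‖ * |(c q).2| ≤ (1 / 60 * (3 / 2)) * 1 :=
      mul_le_mul h7 hq.le (abs_nonneg _) (by norm_num)
    linarith
  refine ⟨{q | |q.2| < 1}, fun q => ver e (c q), isOpen_lt (by fun_prop) (by fun_prop),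
    ⟨(0, 0), by simp, by simp [hc]⟩, fun q _ => (hsm q).contDiffWithinAt, ?_, ?_, ?_⟩
  · intro q _ q' _ heq
    obtain ⟨t, ht, htq⟩ := ver_inj he (hcne q) (hcne q') heq
    have h3 : (c q').1 * conj X = t * ((c q).1 * conj X) := by
      rw [htq]; simp only [Prod.smul_fst, Complex.real_smul]; ring
    rw [hcX, hcX] at h3
    have h4 := congrArg Complex.re h3
    simp at h4
    have h5 := congrArg Complex.im h3
    simp at h5
    have h6 : (c q').2 = t * (c q).2 := by rw [htq]; simp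
    simp only [hc] at h6
    rw [← h4] at h5 h6
    exact Prod.ext (by linarith) (by linarith)
  · intro q _
    apply fderiv_inj_of_line ((hsm q).differentiableAt (by simp))
    intro v hd
    have hl1 : HasDerivAt (fun t : ℝ => (q + t • v).1) v.1 0 := by
      have := ((hasDerivAt_id (0 : ℝ)).mul_const v.1).const_add q.1
      simpa using this
    have hl2 : HasDerivAt (fun t : ℝ => (q + t • v).2) v.2 0 := by
      have := ((hasDerivAt_id (0 : ℝ)).mul_const v.2).const_add q.2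
      simpa using this
    have hc1 : HasDerivAt (fun t : ℝ => X * (1 + ((q + t • v).1 : ℂ) * Complex.I))
        (X * (v.1 * Complex.I)) 0 :=
      ((hl1.ofReal_comp.mul_const Complex.I).const_add 1).const_mul X
    obtain ⟨l, hl3, hl4⟩ := ver_imm he hc1 hl2 (hcne _) hd
    simp only [zero_smul, add_zero] at hl3 hl4
    have h3 : (v.1 : ℂ) * Complex.I = l * (1 + q.1 * Complex.I) := by
      have : X * (v.1 * Complex.I) = X * (l * (1 + q.1 * Complex.I)) := by
        rw [hl3]; ring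
      exact mul_left_cancel₀ hX0 this
    have h4 := congrArg Complex.re h3
    simp at h4
    have h5 := congrArg Complex.im h3
    simp at h5
    rw [← h4] at h5 hl4
    exact Prod.ext (by simpa using h5) (by simpa using hl4)
  · intro B hB hBo
    set O₁ : Set (ℂ × ℝ) := {p | (p.1 * conj X).re ≠ 0 ∧
      ((p.1 * conj X).im / (p.1 * conj X).re, p.2 / (p.1 * conj X).re) ∈ B} with hO₁
    have hO₁o : IsOpen O₁ := by
      have cre : Continuous fun p : ℂ × ℝ => (p.1 * conj X).re :=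
        Complex.continuous_re.comp (by fun_prop)
      have cim : Continuous fun p : ℂ × ℝ => (p.1 * conj X).im :=
        Complex.continuous_im.comp (by fun_prop)
      have ho : IsOpen {p : ℂ × ℝ | (p.1 * conj X).re ≠ 0} := isOpen_ne_fun cre continuous_const
      have hcont : ContinuousOn (fun p : ℂ × ℝ =>
          ((p.1 * conj X).im / (p.1 * conj X).re, p.2 / (p.1 * conj X).re))
          {p : ℂ × ℝ | (p.1 * conj X).re ≠ 0} := by
        apply ContinuousOn.prodMk
        · exact cim.continuousOn.div cre.continuousOn fun p hp => hp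
        · exact continuous_snd.continuousOn.div cre.continuousOn fun p hp => hp
      exact hcont.isOpen_inter_preimage ho hBo
    refine SS_open P ?_ (O₁ := O₁) (O₂ := ∅) (O₃ := ∅) hO₁o isOpen_empty isOpen_empty ?_ ?_ ?_
    · rintro _ ⟨q, hq, rfl⟩
      have h3 := hc38 q (hB hq)
      exact ver_mem P (hcne q) h3.1 h3.2
    · intro p hp
      constructor
      · rintro ⟨q, hq, hqp⟩
        obtain ⟨t, ht, htq⟩ := ver_inj he (hcne q) (GG_ne hp) hqp
        have h3 : p.1 * conj X = t * (1 + q.1 * Complex.I) := by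
          rw [htq]; simp only [Prod.smul_fst, Complex.real_smul]; rw [mul_assoc, hcX]
        have h4 : (p.1 * conj X).re = t := by rw [h3]; simp
        have h5 : (p.1 * conj X).im = t * q.1 := by rw [h3]; simp
        have h6 : p.2 = t * q.2 := by rw [htq]; simp [hc]
        refine ⟨by rw [h4]; exact ht, ?_⟩
        rw [h4, h5, h6, mul_div_cancel_left₀ _ ht, mul_div_cancel_left₀ _ ht]
        exact hq
      · rintro ⟨h3, h4⟩
        refine ⟨_, h4, ?_⟩
        set r := (p.1 * conj X).re with hr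
        have hrc : (r : ℂ) ≠ 0 := Complex.ofReal_ne_zero.2 h3
        have h5 : p = r • c ((p.1 * conj X).im / r, p.2 / r) := by
          apply Prod.ext
          · simp only [hc, Prod.smul_fst, Complex.real_smul]
            have h6 : (r : ℂ) + (p.1 * conj X).im * Complex.I = p.1 * conj X := by
              rw [hr]; exact Complex.re_add_im _
            have h7 : (r : ℂ) * (X * (1 + (((p.1 * conj X).im / r : ℝ) : ℂ) * Complex.I)) =
                X * ((r : ℂ) + (p.1 * conj X).im * Complex.I) := by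
              push_cast
              field_simp
            rw [h7, h6]
            linear_combination (-p.1) * hXX
          · simp only [hc, Prod.smul_snd, smul_eq_mul]
            field_simp
        simp only
        conv_rhs => rw [h5]
        rw [ver_smul e h3]
    · intro u hu
      simp only [mem_empty_iff_false, iff_false]
      rintro ⟨q, hq, hqp⟩
      have h3 := hc38 q (hB hq)
      obtain ⟨-, -, h5⟩ := ff_ver P hu.1 (hcne q) h3.1 h3.2 hqp.symm
      exact hnot q (hB hq) u hu.2 1 norm_one (by rw [one_mul]; exact h5)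
    · intro u hu
      simp only [mem_empty_iff_false, iff_false]
      rintro ⟨q, hq, hqp⟩
      have h3 := hc38 q (hB hq)
      obtain ⟨-, -, h5⟩ := ff_sg_ver P hu.1 (hcne q) h3.1 h3.2 hqp.symm
      exact hnot q (hB hq) u hu.2 (-1) (by rw [norm_neg, norm_one])
        (by rw [neg_one_mul]; exact h5)

/-- Charts in the transition region. -/
lemma chart_trans (P : Par2 M h b e) {u₀ : ℂ} (h1 : 1 / 16 < ‖u₀‖) (h2 : ‖u₀‖ < 5 / 8) :
    HasChart ℂ (SS h b e) (ff h b e u₀) := by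
  have he := P.e0
  have hec : (e : ℂ) ≠ 0 := Complex.ofReal_ne_zero.2 he.ne'
  have hh := P.toPar.h_le
  have hne : ∀ u : ℂ, 1 / 16 < ‖u‖ → u ≠ 0 := fun u hu => norm_pos_iff.1 (by linarith)
  refine ⟨{u | 1 / 16 < ‖u‖ ∧ ‖u‖ < 5 / 8}, ff h b e, ?_, ⟨u₀, ⟨h1, h2⟩, rfl⟩,
    fun u hu => (contDiffAt_ff h b e (hne u hu.1)).contDiffWithinAt, ?_, ?_, ?_⟩
  · exact (isOpen_lt continuous_const continuous_norm).inter
      (isOpen_lt continuous_norm continuous_const)
  · intro u hu v hv huv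
    exact ff_inj P.toPar (by linarith [hu.1]) (by linarith [hv.1]) hu.2.le hv.2.le huv
  · intro u hu
    apply fderiv_inj_of_line ((contDiffAt_ff h b e (hne u hu.1)).differentiableAt (by simp))
    intro v hd
    exact imm_trans P hu.1 hu.2 hd
  · intro B hB hBo
    refine SS_open P.toPar ?_ (O₁ := {p : ℂ × ℝ | p.2 ≠ 0 ∧ p.1 / (e * p.2) ∈ {w | w - 1 ∈ B}})
      (O₂ := B) (O₃ := ∅)
      (isOpen_div (hBo.preimage (by fun_prop : Continuous fun w : ℂ => w - 1)) e he.ne') hBo
      isOpen_empty ?_ ?_ ?_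
    · rintro _ ⟨u, hu, rfl⟩
      exact ff_mem P.toPar (by linarith [(hB hu).1]) (hB hu).2.le
    · intro p hp
      constructor
      · rintro ⟨u, hu, hup⟩
        have h3 := GG_38 P.toPar hp
        obtain ⟨-, h4, h5⟩ := ff_ver P.toPar (by linarith [(hB hu).1]) (GG_ne hp) h3.1 h3.2 hup
        have h4' : (p.2 : ℂ) ≠ 0 := Complex.ofReal_ne_zero.2 h4
        refine ⟨h4, ?_⟩
        have h6 : p.1 / (e * p.2) = 1 + u := by rw [h5]; field_simp
        simp only [mem_ofPred_eq, h6, add_sub_cancel_left]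
        exact hu
      · rintro ⟨h3, h4⟩
        have h3' : (p.2 : ℂ) ≠ 0 := Complex.ofReal_ne_zero.2 h3
        set u : ℂ := p.1 / (e * p.2) - 1 with hu
        have h5 : p.1 = (e : ℂ) * (1 + u) * p.2 := by rw [hu]; field_simp; ring
        have h6 : 1 / 2 ≤ ‖u‖ := by
          have h7 := hp.2.1
          rw [h5, show (e : ℂ) * (1 + u) * p.2 - e * p.2 = (e * p.2) * u by ring, norm_mul,
            norm_mul, Complex.norm_real, Complex.norm_real, Real.norm_of_nonneg he.le,
            Real.norm_eq_abs] at h7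
          have h8 : 0 < e * |p.2| := mul_pos he (abs_pos.2 h3)
          have h9 : (e * |p.2|) * (1 / 2) ≤ (e * |p.2|) * ‖u‖ := by linarith
          exact le_of_mul_le_mul_left h9 h8
        refine ⟨u, h4, ?_⟩
        rw [ff_eq_ver he.ne' (by linarith), vc_of_eq h3 h5]
    · intro u hu
      constructor
      · rintro ⟨v, hv, hvu⟩
        have := ff_inj P.toPar (by linarith [(hB hv).1]) hu.1 (hB hv).2.le (by linarith [hu.2]) hvu
        rw [← this]; exact hv
      · intro huB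
        exact ⟨u, huB, rfl⟩
    · intro u hu
      simp only [mem_empty_iff_false, iff_false]
      rintro ⟨v, hv, hvu⟩
      obtain ⟨-, h4⟩ := ff_sg P.toPar (by linarith [(hB hv).1]) hu.1 (hB hv).2.le
        (by linarith [hu.2]) hvu
      linarith [(hB hv).1]

end Pool.Agent.Lib.MP_6a9e1f_gt
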