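import Mathlib
import Pool.Agent.Lib.MP_6a9e1f_gt.Chart

/-!
The chart of the neck, and the two-piece property.
-/

namespace Pool.Agent.Lib.MP_6a9e1f_gt

open ComplexConjugate Set Filter Topology
open scoped ContDiff

variable {M h b e : ℝ}

/-- The part of the neck where the logarithmic parametrization is used. -/
def ND (h : ℝ) : Set ℂ := {ξ | h * Real.exp |ξ.re| < 1 / 8}

lemma ND_nonneg {ξ : ℂ} (hξ : ξ ∈ ND h) (h0 : 0 ≤ ξ.re) : h * Real.exp ξ.re < 1 / 8 := by
  have h1 : h * Real.exp |ξ.re| < 1 / 8 := hξ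
  rwa [abs_of_nonneg h0] at h1

lemma ND_refl {ξ : ℂ} (hξ : ξ ∈ ND h) : -conj ξ ∈ ND h := by
  have h1 : h * Real.exp |ξ.re| < 1 / 8 := hξ
  have h2 : |(-conj ξ).re| = |ξ.re| := by simp
  change h * Real.exp |(-conj ξ).re| < 1 / 8
  rw [h2]; exact h1

lemma isOpen_ND (h : ℝ) : IsOpen (ND h) := by
  have : Continuous fun ξ : ℂ => h * Real.exp |ξ.re| :=
    continuous_const.mul (Real.continuous_exp.comp (continuous_abs.comp Complex.continuous_re))
  exact isOpen_lt this continuous_const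

/-- A point of the right half handle on the neck. -/
lemma ff_eq_Phi (P : Par M h b e) {u ξ : ℂ} (hu : h ≤ ‖u‖) (hu1 : ‖u‖ ≤ 5 / 8) (hξ : ξ ∈ ND h)
    (heq : ff h b e u = Phi h b ξ) : 0 ≤ ξ.re ∧ u = h * Complex.exp ξ := by
  have hh := P.h0
  rcases le_or_gt 0 ξ.re with h0 | h0
  · have h1 := ND_nonneg hξ h0
    rw [← ff_hexp P h1.le] at heq
    have hn := norm_hexp hh ξ
    refine ⟨h0, ff_inj P hu ?_ hu1 ?_ heq⟩
    · rw [hn]
      have : 1 ≤ Real.exp ξ.re := Real.one_le_exp h0
      nlinarith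
    · rw [hn]; linarith
  · exfalso
    have hre : (-conj ξ).re = -ξ.re := by simp
    have h1 := ND_nonneg (ND_refl hξ) (by rw [hre]; linarith)
    have h2 : Phi h b ξ = sg (Phi h b (-conj ξ)) := by rw [Phi_refl, sg_sg]
    rw [h2, ← ff_hexp P h1.le] at heq
    have hn := norm_hexp hh (-conj ξ)
    rw [hre] at hn h1
    have h3 : 1 < Real.exp (-ξ.re) := Real.one_lt_exp_iff.2 (by linarith)
    obtain ⟨h4, h5⟩ := ff_sg P hu (by rw [hn]; nlinarith) hu1 (by rw [hn]; linarith) heq
    rw [h4, hn] at h5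
    nlinarith

lemma exp_eq_of_Phi (P : Par M h b e) {ξ η : ℂ} (hξ : ξ ∈ ND h) (hη : η ∈ ND h)
    (heq : Phi h b ξ = Phi h b η) : Complex.exp ξ = Complex.exp η := by
  have hh := P.h0
  have hhc : (h : ℂ) ≠ 0 := Complex.ofReal_ne_zero.2 hh.ne'
  have key : ∀ ξ η : ℂ, ξ ∈ ND h → η ∈ ND h → 0 ≤ ξ.re → Phi h b ξ = Phi h b η →
      Complex.exp ξ = Complex.exp η := by
    intro ξ η hξ hη h0 heq
    have h1 := ND_nonneg hξ h0
    have hn := norm_hexp hh ξ
    rw [← ff_hexp P h1.le] at heq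
    obtain ⟨-, h3⟩ := ff_eq_Phi P (by
      rw [hn]
      have : 1 ≤ Real.exp ξ.re := Real.one_le_exp h0
      nlinarith) (by rw [hn]; linarith) hη heq
    exact mul_left_cancel₀ hhc h3
  rcases le_or_gt 0 ξ.re with h0 | h0
  · exact key ξ η hξ hη h0 heq
  · have hre : (-conj ξ).re = -ξ.re := by simp
    have h1 := key (-conj ξ) (-conj η) (ND_refl hξ) (ND_refl hη) (by rw [hre]; linarith) (by
      rw [Phi_refl, Phi_refl, heq])
    have h2 : conj (Complex.exp (-ξ)) = conj (Complex.exp (-η)) := by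
      rw [← Complex.exp_conj, ← Complex.exp_conj, map_neg, map_neg]; exact h1
    have h3 := (starRingEnd ℂ).injective h2
    rw [Complex.exp_neg, Complex.exp_neg] at h3
    exact inv_injective h3

lemma chart_neck (P : Par M h b e) {ξ₀ : ℂ} (hξ₀ : ξ₀ ∈ ND h) :
    HasChart ℂ (SS h b e) (Phi h b ξ₀) := by
  have he := P.e0
  have hh := P.h0
  have hhc : (h : ℂ) ≠ 0 := Complex.ofReal_ne_zero.2 hh.ne'
  have hopen : IsOpenMap fun ξ : ℂ => (h : ℂ) * Complex.exp ξ := by
    have h1 : IsOpenMap fun z : ℂ => (h : ℂ) * z := (Homeomorph.mulLeft₀ (h : ℂ) hhc).isOpenMap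
    exact h1.comp Complex.isOpenMap_exp
  -- the preimage in the right half handle
  have hK : ∀ B : Set ℂ, B ⊆ ND h → ∀ u ∈ KK h, ff h b e u ∈ Phi h b '' B ↔
      u ∈ (fun ξ : ℂ => (h : ℂ) * Complex.exp ξ) '' B := by
    intro B hB u hu
    constructor
    · rintro ⟨ξ, hξ, hξu⟩
      obtain ⟨-, h2⟩ := ff_eq_Phi P hu.1 (by linarith [hu.2]) (hB hξ) hξu.symm
      exact ⟨ξ, hξ, h2.symm⟩
    · rintro ⟨ξ, hξ, rfl⟩
      simp only at hu ⊢
      have hn := norm_hexp hh ξ
      have h0 : 0 ≤ ξ.re := by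
        have h1 := hu.1
        rw [hn] at h1
        have h2 : h * 1 ≤ h * Real.exp ξ.re := by rw [mul_one]; exact h1
        have h3 := le_of_mul_le_mul_left h2 hh
        exact Real.one_le_exp_iff.1 h3
      exact ⟨ξ, hξ, (ff_hexp P (ND_nonneg (hB hξ) h0).le).symm⟩
  have hBr : ∀ B : Set ℂ, B ⊆ ND h → {ξ | -conj ξ ∈ B} ⊆ ND h := by
    intro B hB ξ hξ
    have h1 := ND_refl (hB hξ)
    simpa using h1
  refine ⟨{ξ | ξ ∈ ND h ∧ |ξ.im - ξ₀.im| < Real.pi}, Phi h b, ?_,
    ⟨ξ₀, ⟨hξ₀, by rw [sub_self, abs_zero]; exact Real.pi_pos⟩, rfl⟩,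
    (contDiff_Phi h b).contDiffOn, ?_, ?_, ?_⟩
  · have hc : Continuous fun ξ : ℂ => |ξ.im - ξ₀.im| :=
      continuous_abs.comp (Complex.continuous_im.sub continuous_const)
    have ho : IsOpen {ξ : ℂ | |ξ.im - ξ₀.im| < Real.pi} := isOpen_lt hc continuous_const
    exact (isOpen_ND h).inter ho
  · intro ξ hξ η hη heq
    have h1 := exp_eq_of_Phi P hξ.1 hη.1 heq
    obtain ⟨n, hn⟩ := Complex.exp_eq_exp_iff_exists_int.1 h1
    have h2 := congrArg Complex.im hn
    have h3 : ξ.im = η.im + n * (2 * Real.pi) := by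
      simpa using h2
    have h4 : |ξ.im - η.im| < 2 * Real.pi := by
      have := abs_sub_le ξ.im ξ₀.im η.im
      have h5 := hη.2
      rw [abs_sub_comm] at h5
      linarith [hξ.2]
    rw [h3, add_sub_cancel_left, abs_mul, abs_of_pos Real.two_pi_pos] at h4
    have h5 : |(n : ℝ)| < 1 := by
      have := Real.two_pi_pos
      by_contra hcon
      push Not at hcon
      nlinarith
    have h6 : n = 0 := by
      have : |n| < 1 := by exact_mod_cast h5
      exact Int.abs_lt_one_iff.1 this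
    rw [hn, h6]; simp
  · intro ξ hξ
    apply fderiv_inj_of_line ((contDiff_Phi h b).contDiffAt.differentiableAt (by simp))
    intro v hd
    exact imm_neck P (le_of_lt hξ.1) hd
  · intro B hB hBo
    have hB' : B ⊆ ND h := fun ξ hξ => (hB hξ).1
    refine SS_open P ?_ (O₁ := ∅) (O₂ := (fun ξ : ℂ => (h : ℂ) * Complex.exp ξ) '' B)
      (O₃ := (fun ξ : ℂ => (h : ℂ) * Complex.exp ξ) '' {ξ | -conj ξ ∈ B}) isOpen_empty
      (hopen B hBo) (hopen _ (hBo.preimage (by fun_prop))) ?_ (hK B hB') ?_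
    · rintro _ ⟨ξ, hξ, rfl⟩
      exact Phi_mem P (le_of_lt (hB' hξ))
    · intro p hp
      simp only [mem_empty_iff_false, iff_false]
      rintro ⟨ξ, hξ, hξp⟩
      have h3 := GG_38 P hp
      rcases le_total 0 ξ.re with h0 | h0
      · have h1 := ND_nonneg (hB' hξ) h0
        have hn := norm_hexp hh ξ
        rw [← ff_hexp P h1.le] at hξp
        have h4 := (ff_ver P (by
          rw [hn]
          have : 1 ≤ Real.exp ξ.re := Real.one_le_exp h0
          nlinarith) (GG_ne hp) h3.1 h3.2 hξp).1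
        rw [hn] at h4
        linarith
      · have hre : (-conj ξ).re = -ξ.re := by simp
        have h1 := ND_nonneg (ND_refl (hB' hξ)) (by rw [hre]; linarith)
        have hn := norm_hexp hh (-conj ξ)
        have h2 : Phi h b ξ = sg (Phi h b (-conj ξ)) := by rw [Phi_refl, sg_sg]
        rw [h2, ← ff_hexp P h1.le] at hξp
        have h4 := (ff_sg_ver P (by
          rw [hn, hre]
          have : 1 ≤ Real.exp (-ξ.re) := Real.one_le_exp (by linarith)
          nlinarith) (GG_ne hp) h3.1 h3.2 hξp).1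
        rw [hn] at h4
        linarith
    · intro u hu
      rw [← hK _ (hBr B hB') u hu]
      constructor
      · rintro ⟨ξ, hξ, hξu⟩
        refine ⟨-conj ξ, by simpa using hξ, ?_⟩
        rw [Phi_refl, hξu, sg_sg]
      · rintro ⟨ξ, hξ, hξu⟩
        refine ⟨-conj ξ, hξ, ?_⟩
        rw [Phi_refl, hξu]

/-- A point of the half handle is in the transition region or on the neck. -/
lemma KK_cases (P : Par M h b e) {u : ℂ} (hu : u ∈ KK h) :
    1 / 16 < ‖u‖ ∨ ∃ ξ ∈ ND h, ff h b e u = Phi h b ξ := by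
  by_cases h1 : 1 / 16 < ‖u‖
  · exact Or.inl h1
  · right
    push Not at h1
    have hh := P.h0
    have hhc : (h : ℂ) ≠ 0 := Complex.ofReal_ne_zero.2 hh.ne'
    have hu0 := KK_ne P hu
    have hne : u / h ≠ 0 := div_ne_zero hu0 hhc
    set ξ := Complex.log (u / h) with hξ
    have h2 : (h : ℂ) * Complex.exp ξ = u := by
      rw [hξ, Complex.exp_log hne]; field_simp
    have hn := norm_hexp hh ξ
    rw [h2] at hn
    have h0 : 0 ≤ ξ.re := by
      have h3 : h * 1 ≤ h * Real.exp ξ.re := by rw [mul_one, ← hn]; exact hu.1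
      exact Real.one_le_exp_iff.1 (le_of_mul_le_mul_left h3 hh)
    refine ⟨ξ, ?_, ?_⟩
    · change h * Real.exp |ξ.re| < 1 / 8
      rw [abs_of_nonneg h0, ← hn]
      linarith
    · rw [← ff_hexp P (by rw [← hn]; linarith), h2]

/-- The surface has smooth charts. -/
theorem chart_all (P : Par2 M h b e) : ∀ x ∈ SS h b e, HasChart ℂ (SS h b e) x := by
  have he := P.e0
  have hec : (e : ℂ) ≠ 0 := Complex.ofReal_ne_zero.2 he.ne'
  have hff : ∀ u ∈ KK h, HasChart ℂ (SS h b e) (ff h b e u) := by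
    intro u hu
    rcases KK_cases P.toPar hu with h1 | ⟨ξ, hξ, heq⟩
    · exact chart_trans P h1 (by linarith [hu.2])
    · rw [heq]; exact chart_neck P.toPar hξ
  rintro x ((⟨p, hp, rfl⟩ | ⟨u, hu, rfl⟩) | ⟨u, hu, rfl⟩)
  · by_cases hz : p.2 = 0
    · have h1 : ‖p.1‖ = 1 := by
        have h2 := hp.1
        unfold nn at h2
        rw [hz, Complex.normSq_eq_norm_sq] at h2
        have h3 := norm_nonneg p.1
        nlinarith
      have h2 : p = (p.1, 0) := Prod.ext rfl hz
      rw [h2]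
      exact (chart_eq P.toPar h1).domain Complex.equivRealProdCLM
    · have hzc : (p.2 : ℂ) ≠ 0 := Complex.ofReal_ne_zero.2 hz
      set w : ℂ := p.1 / (e * p.2) with hw
      have hpw : p.1 = (e : ℂ) * w * p.2 := by rw [hw]; field_simp
      rw [vc_of_eq hz hpw]
      have hpos : 0 < e * |p.2| := mul_pos he (abs_pos.2 hz)
      have n1 : ‖p.1 - e * p.2‖ = e * |p.2| * ‖w - 1‖ := by
        rw [hpw, show (e : ℂ) * w * p.2 - e * p.2 = (e * p.2) * (w - 1) by ring, norm_mul, norm_mul,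
          Complex.norm_real, Complex.norm_real, Real.norm_of_nonneg he.le, Real.norm_eq_abs]
      have n2 : ‖p.1 + e * p.2‖ = e * |p.2| * ‖w + 1‖ := by
        rw [hpw, show (e : ℂ) * w * p.2 + e * p.2 = (e * p.2) * (w + 1) by ring, norm_mul, norm_mul,
          Complex.norm_real, Complex.norm_real, Real.norm_of_nonneg he.le, Real.norm_eq_abs]
      have h1 := hp.2.1
      have h2 := hp.2.2
      rw [n1] at h1
      rw [n2] at h2
      have i1 : e * |p.2| * (1 / 2) ≤ e * |p.2| * ‖w - 1‖ := by linarith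
      have i2 : e * |p.2| * (1 / 2) ≤ e * |p.2| * ‖w + 1‖ := by linarith
      have j1 := le_of_mul_le_mul_left i1 hpos
      have j2 := le_of_mul_le_mul_left i2 hpos
      exact chart_w P.toPar (by linarith) (by linarith)
  · exact hff u hu
  · have h1 := (hff u hu).map sgL
    rw [sg_image] at h1
    exact h1

/-! ### The two-piece property -/

lemma continuous_aff (c : ℝ) (α γ : ℂ) : Continuous (aff c α γ) := by
  unfold aff
  exact (continuous_const.add (Complex.continuous_re.comp (by fun_prop))).add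
    (Complex.continuous_re.comp (by fun_prop))

lemma aff_sg (c : ℝ) (α γ : ℂ) (x : ℂ × ℂ) : aff c α γ (sg x) = aff c (-α) γ x := by
  unfold aff sg
  simp

/-- No local maxima on the half handle. -/
lemma no_max_ff (P : Par2 M h b e) {u : ℂ} (hu : u ∈ KK h) {c : ℝ} {α γ : ℂ}
    (hmax : IsLocalMaxOn (aff c α γ) (SS h b e) (ff h b e u)) : α = 0 ∧ γ = 0 := by
  have hh := P.toPar.h_le
  rcases KK_cases P.toPar hu with h1 | ⟨ξ, hξ, heq⟩
  · set m := aff c α γ (ff h b e u) with hm
    have hu2 : ‖u‖ < 5 / 8 := by linarith [hu.2]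
    have hcont : ContinuousAt (ff h b e) u := (contDiffAt_ff h b e (KK_ne P.toPar hu)).continuousAt
    have h2 : ∀ᶠ x in 𝓝 u, ff h b e x ∈ SS h b e := by
      have : {x : ℂ | 1 / 16 < ‖x‖ ∧ ‖x‖ < 5 / 8} ∈ 𝓝 u :=
        ((isOpen_lt continuous_const continuous_norm).inter
          (isOpen_lt continuous_norm continuous_const)).mem_nhds ⟨h1, hu2⟩
      filter_upwards [this] with x hx
      exact ff_mem P.toPar (by linarith [hx.1]) hx.2.le
    rw [IsLocalMaxOn, IsMaxFilter, eventually_nhdsWithin_iff] at hmax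
    have h3 := hcont.eventually hmax
    apply no_max_trans P h1 hu2 (c := c - m)
    · have : aff (c - m) α γ (ff h b e u) = aff c α γ (ff h b e u) - m := by unfold aff; ring
      rw [this, hm, sub_self]
    · filter_upwards [h2, h3] with x hx1 hx2
      have : aff (c - m) α γ (ff h b e x) = aff c α γ (ff h b e x) - m := by unfold aff; ring
      rw [this]
      have := hx2 hx1
      linarith
  · rw [heq] at hmax
    rw [IsLocalMaxOn, IsMaxFilter, eventually_nhdsWithin_iff] at hmax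
    apply no_max_neck P.toPar (ξ := ξ) (c := c)
    rw [IsLocalMax, IsMaxFilter]
    have h3 := ((contDiff_Phi h b).continuous.tendsto ξ).eventually hmax
    filter_upwards [h3, (isOpen_ND h).mem_nhds hξ] with x hx1 hx2
    exact hx1 (Phi_mem P.toPar (le_of_lt hx2))

/-- Description of the local maxima. -/
lemma localMax_SS (P : Par2 M h b e) {x : ℂ × ℂ} (hx : x ∈ SS h b e) {c : ℝ} {α γ : ℂ}
    (hαγ : ¬ (α = 0 ∧ γ = 0)) (hmax : IsLocalMaxOn (aff c α γ) (SS h b e) x) :
    ∃ p : ℂ × ℝ, p ≠ 0 ∧ x = ver e p ∧ qf e (c - aff c α γ x) α γ p = 0 ∧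
      ∀ y, qf e (c - aff c α γ x) α γ y ≤ 0 := by
  have he := P.e0
  have he1 := e_lt P.toPar
  have hec : (e : ℂ) ≠ 0 := Complex.ofReal_ne_zero.2 he.ne'
  rcases hx with (⟨p, hp, rfl⟩ | ⟨u, hu, rfl⟩) | ⟨u, hu, rfl⟩
  · refine ⟨p, GG_ne hp, rfl, ?_, ?_⟩
    · rw [qf_eq e _ α γ (GG_ne hp)]
      unfold aff; ring
    · set m := aff c α γ (ver e p) with hm
      have h0 : qf e (c - m) α γ p = 0 := by
        rw [qf_eq e _ α γ (GG_ne hp), hm]
        unfold aff; ring
      have hpne := GG_ne hp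
      have hcont : ContinuousAt (ver e) p := (contDiffAt_ver he.ne' hpne).continuousAt
      rw [IsLocalMaxOn, IsMaxFilter, eventually_nhdsWithin_iff] at hmax
      have h3 := hcont.eventually hmax
      have h38 : 3 / 8 * (e * |p.2|) < ‖p.1 - e * p.2‖ ∧ 3 / 8 * (e * |p.2|) < ‖p.1 + e * p.2‖ := by
        by_cases hz : p.2 = 0
        · have h4 : 0 < ‖p.1‖ := by
            apply norm_pos_iff.2
            intro h5
            exact hpne (Prod.ext h5 hz)
          rw [hz]
          simpa using h4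
        · have h4 : 0 < e * |p.2| := mul_pos he (abs_pos.2 hz)
          have h5 := hp.2.1
          have h6 := hp.2.2
          constructor <;> linarith
      have h4 : ∀ᶠ q in 𝓝 p, ver e q ∈ SS h b e := by
        have i1 : {q : ℂ × ℝ | 3 / 8 * (e * |q.2|) < ‖q.1 - e * q.2‖} ∈ 𝓝 p :=
          (isOpen_lt (by fun_prop) (by fun_prop)).mem_nhds h38.1
        have i2 : {q : ℂ × ℝ | 3 / 8 * (e * |q.2|) < ‖q.1 + e * q.2‖} ∈ 𝓝 p :=
          (isOpen_lt (by fun_prop) (by fun_prop)).mem_nhds h38.2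
        have i3 : {q : ℂ × ℝ | q ≠ 0} ∈ 𝓝 p := isOpen_ne.mem_nhds hpne
        filter_upwards [i1, i2, i3] with q hq1 hq2 hq3
        exact ver_mem P.toPar hq3 (le_of_lt hq1) (le_of_lt hq2)
      have h5 : ∀ᶠ q in 𝓝 p, qf e (c - m) α γ q ≤ 0 := by
        have i3 : {q : ℂ × ℝ | q ≠ 0} ∈ 𝓝 p := isOpen_ne.mem_nhds hpne
        filter_upwards [h3, h4, i3] with q hq1 hq2 hq3
        rw [qf_eq e _ α γ hq3]
        have i4 := hq1 hq2
        have i5 := nn_nonneg q
        have i6 : c - m + (conj α * (ver e q).1).re + (conj γ * (ver e q).2).re =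
            aff c α γ (ver e q) - m := by unfold aff; ring
        rw [i6]
        exact mul_nonpos_of_nonneg_of_nonpos i5 (by linarith)
      exact (localMax_qf h0 h5).2
  · exact absurd (no_max_ff P hu hmax) hαγ
  · exfalso
    apply hαγ
    have h1 : IsLocalMaxOn (aff c (-α) γ) (SS h b e) (ff h b e u) := by
      rw [IsLocalMaxOn, IsMaxFilter, eventually_nhdsWithin_iff] at hmax ⊢
      have h2 := (continuous_sg.tendsto (ff h b e u)).eventually hmax
      filter_upwards [h2] with x hx hxS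
      have h3 := hx (sg_mem hxS)
      rwa [aff_sg, aff_sg] at h3
    obtain ⟨h2, h3⟩ := no_max_ff P hu h1
    exact ⟨neg_eq_zero.1 h2, h3⟩

/-- All maximizers on the projected Veronese surface belong to the surface. -/
lemma maximizer_mem (P : Par2 M h b e) {p : ℂ × ℝ} {c : ℝ} {α γ : ℂ} (hαγ : ¬ (α = 0 ∧ γ = 0))
    (hp : p ≠ 0) (h0 : qf e c α γ p = 0) (h1 : ∀ y, qf e c α γ y ≤ 0) : ver e p ∈ SS h b e := by
  have he := P.e0
  have he2 := P.toPar.e_le
  have hec : (e : ℂ) ≠ 0 := Complex.ofReal_ne_zero.2 he.ne'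
  have hbf := (localMax_qf h0 (Eventually.of_forall h1)).1
  by_cases hz : p.2 = 0
  · apply ver_mem P.toPar hp
    · rw [hz]; simp
    · rw [hz]; simp
  · have hzc : (p.2 : ℂ) ≠ 0 := Complex.ofReal_ne_zero.2 hz
    set w : ℂ := p.1 / (e * p.2) with hw
    have hpw : p.1 = (e : ℂ) * w * p.2 := by rw [hw]; field_simp
    have hw2 : 2 < ‖w‖ := by
      by_contra hcon
      push Not at hcon
      exact hαγ (no_max_disc he (by linarith) hcon hz hpw h0 hbf h1)
    rw [vc_of_eq hz hpw]
    apply ver_vc_mem P.toPar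
    · have := norm_sub_norm_le w 1
      rw [norm_one] at this
      linarith
    · have := norm_sub_norm_le w (-1)
      rw [norm_neg, norm_one, sub_neg_eq_add] at this
      linarith

/-- The two-piece property of the surface in affine coordinates. -/
theorem tpp_SS (P : Par2 M h b e) {α γ : ℂ} (hαγ : ¬ (α = 0 ∧ γ = 0)) (c₀ c : ℝ) :
    IsPreconnected (SS h b e ∩ {x | c < aff c₀ α γ x}) := by
  have he := P.e0
  apply preconnected_of_localMax (isCompact_SS P.toPar) (continuous_aff c₀ α γ)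
  intro x hx y hy hcx hcy hmx hmy
  obtain ⟨p, hp, hxp, hqp, hp1⟩ := localMax_SS P hx hαγ hmx
  obtain ⟨q, hq, hyq, hqq, hq1⟩ := localMax_SS P hy hαγ hmy
  -- both have the same height
  have hm : aff c₀ α γ x = aff c₀ α γ y := by
    have e1 : ∀ m r, qf e (c₀ - m) α γ r = qf e c₀ α γ r - m * nn r := by
      intro m r; unfold qf; ring
    have i1 := hp1 q
    have i2 := hq1 p
    rw [e1] at i1 i2 hqp hqq
    have n1 := nn_pos hp
    have n2 := nn_pos hq
    apply le_antisymm
    · have : aff c₀ α γ x * nn p ≤ aff c₀ α γ y * nn p := by linarith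
      exact le_of_mul_le_mul_right this n1
    · have : aff c₀ α γ y * nn q ≤ aff c₀ α γ x * nn q := by linarith
      exact le_of_mul_le_mul_right this n2
  rw [← hm] at hqq
  set m := aff c₀ α γ x with hmdef
  -- the polar form vanishes
  have hbf := (localMax_qf hqp (Eventually.of_forall hp1)).1
  by_cases hxy : x = y
  · exact ⟨{x}, by rintro _ rfl; exact ⟨hx, hcx⟩, isPreconnected_singleton, rfl, hxy.symm⟩
  -- the segment avoids the origin
  have hlin : ∀ s t : ℝ, s + t = 1 → s • p + t • q ≠ 0 := by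
    intro s t hst h0
    apply hxy
    have ht : t ≠ 0 := by
      rintro rfl
      rw [add_zero] at hst
      rw [hst, one_smul, zero_smul, add_zero] at h0
      exact hp h0
    have hs : s ≠ 0 := by
      rintro rfl
      rw [zero_add] at hst
      rw [hst, one_smul, zero_smul, zero_add] at h0
      exact hq h0
    have h1 : q = (-(s / t)) • p := by
      have h2 : t • q = -(s • p) := by
        rw [← add_eq_zero_iff_eq_neg, add_comm]; exact h0
      have h3 : q = t⁻¹ • (t • q) := by rw [smul_smul, inv_mul_cancel₀ ht, one_smul]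
      rw [h3, h2, smul_neg, smul_smul, neg_smul]
      congr 2
      field_simp
    rw [hxp, hyq, h1, ver_smul e (neg_ne_zero.2 (div_ne_zero hs ht))]
  refine ⟨ver e '' segment ℝ p q, ?_, ?_, ⟨p, left_mem_segment ℝ p q, hxp.symm⟩,
    ⟨q, right_mem_segment ℝ p q, hyq.symm⟩⟩
  · rintro _ ⟨r, ⟨s, t, hs, ht, hst, rfl⟩, rfl⟩
    have hr := hlin s t hst
    have hqr : qf e (c₀ - m) α γ (s • p + t • q) = 0 := by
      rw [qf_add, hqp, hqq, hbf]; ring
    refine ⟨maximizer_mem P hαγ hr hqr hp1, ?_⟩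
    change c < aff c₀ α γ _
    have h2 : aff c₀ α γ (ver e (s • p + t • q)) = m := by
      rw [qf_eq e _ α γ hr] at hqr
      have h3 := (mul_eq_zero.1 hqr).resolve_left (nn_pos hr).ne'
      unfold aff
      linarith
    rw [h2]; exact hcx
  · apply IsPreconnected.image (convex_segment p q).isPreconnected
    apply (continuousOn_ver e he.ne').mono
    rintro _ ⟨s, t, hs, ht, hst, rfl⟩
    exact hlin s t hst

end Pool.Agent.Lib.MP_6a9e1f_gt
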