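import Mathlib
import Pool.Agent.Lib.MP_6a9e1f_gt.Chart2

/-!
The surface arises from the projected Veronese surface by attaching a handle.
-/

namespace Pool.Agent.Lib.MP_6a9e1f_gt

open ComplexConjugate Set Filter Topology Metric
open scoped ContDiff

variable {M h b e : ℝ}

/-- The projected Veronese surface in affine coordinates. -/
def RR (e : ℝ) : Set (ℂ × ℂ) := ver e '' {p | nn p = 1}

lemma ver_mem_RR {p : ℂ × ℝ} (hp : p ≠ 0) : ver e p ∈ RR e := by
  obtain ⟨t, ht, htn⟩ := exists_unit hp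
  exact ⟨t • p, htn, ver_smul e ht.ne' p⟩

/-- The two discs. -/
noncomputable def dd (e : ℝ) (s : ℂ) (c : ℂ) : ℂ × ℂ := ver e (vc e (s * (1 + c / 2)))

lemma dd_injective (he : 0 < e) {s : ℂ} (hs : s ≠ 0) : Function.Injective (dd e s) := by
  intro c c' hcc
  have hec : (e : ℂ) ≠ 0 := Complex.ofReal_ne_zero.2 he.ne'
  obtain ⟨-, h3⟩ := eq_vc he (vc_ne_zero e _) hcc
  simp only [vc, Complex.ofReal_one, mul_one] at h3
  have h4 := mul_left_cancel₀ hs (mul_left_cancel₀ hec h3)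
  linear_combination 2 * h4

lemma continuous_dd (he : 0 < e) (s : ℂ) : Continuous (dd e s) := by
  rw [continuous_iff_continuousAt]
  intro c
  have h1 : ContinuousAt (fun c : ℂ => vc e (s * (1 + c / 2))) c :=
    ((contDiff_vc e).continuous.comp (by fun_prop)).continuousAt
  exact ContinuousAt.comp (f := fun c : ℂ => vc e (s * (1 + c / 2)))
    (contDiffAt_ver he.ne' (vc_ne_zero e _)).continuousAt h1

lemma ver_GG_eq (he : 0 < e) :
    ver e '' GG e = RR e \ (dd e 1 '' ball 0 1 ∪ dd e (-1) '' ball 0 1) := by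
  have hec : (e : ℂ) ≠ 0 := Complex.ofReal_ne_zero.2 he.ne'
  ext x
  constructor
  · rintro ⟨p, hp, rfl⟩
    refine ⟨⟨p, hp.1, rfl⟩, ?_⟩
    rintro (⟨c, hc, hcp⟩ | ⟨c, hc, hcp⟩)
    · obtain ⟨h1, h2⟩ := eq_vc he (GG_ne hp) hcp.symm
      have h3 := hp.2.1
      rw [mem_ball_zero_iff] at hc
      have hpos : 0 < e * |p.2| := mul_pos he (abs_pos.2 h1)
      rw [h2, show (e : ℂ) * (1 * (1 + c / 2)) * p.2 - e * p.2 = (e * p.2) * (c / 2) by ring,
        norm_mul, norm_mul, norm_div, Complex.norm_real, Complex.norm_real,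
        Real.norm_of_nonneg he.le, Real.norm_eq_abs, Complex.norm_ofNat] at h3
      nlinarith
    · obtain ⟨h1, h2⟩ := eq_vc he (GG_ne hp) hcp.symm
      have h3 := hp.2.2
      rw [mem_ball_zero_iff] at hc
      have hpos : 0 < e * |p.2| := mul_pos he (abs_pos.2 h1)
      rw [h2, show (e : ℂ) * (-1 * (1 + c / 2)) * p.2 + e * p.2 = (e * p.2) * (-c / 2) by ring,
        norm_mul, norm_mul, norm_div, norm_neg, Complex.norm_real, Complex.norm_real,
        Real.norm_of_nonneg he.le, Real.norm_eq_abs, Complex.norm_ofNat] at h3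
      nlinarith
  · rintro ⟨⟨p, hp, rfl⟩, hnot⟩
    refine ⟨p, ⟨hp, ?_, ?_⟩, rfl⟩
    · by_contra hcon
      push Not at hcon
      apply hnot
      left
      have hz : p.2 ≠ 0 := by
        intro h0
        rw [h0, abs_zero, mul_zero] at hcon
        exact absurd hcon (not_lt.2 (norm_nonneg _))
      have hzc : (p.2 : ℂ) ≠ 0 := Complex.ofReal_ne_zero.2 hz
      have hpos : 0 < e * |p.2| := mul_pos he (abs_pos.2 hz)
      refine ⟨2 * (p.1 / (e * p.2) - 1), ?_, ?_⟩
      · rw [mem_ball_zero_iff]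
        have h1 : p.1 / (e * p.2) - 1 = (p.1 - e * p.2) / (e * p.2) := by field_simp
        rw [h1, norm_mul, norm_div, norm_mul, Complex.norm_real, Complex.norm_real,
          Real.norm_of_nonneg he.le, Real.norm_eq_abs, Complex.norm_ofNat, ← mul_div_assoc,
          div_lt_one hpos]
        linarith
      · unfold dd
        rw [vc_of_eq hz (w := 1 * (1 + 2 * (p.1 / (e * p.2) - 1) / 2))]
        field_simp
        ring
    · by_contra hcon
      push Not at hcon
      apply hnot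
      right
      have hz : p.2 ≠ 0 := by
        intro h0
        rw [h0, abs_zero, mul_zero] at hcon
        exact absurd hcon (not_lt.2 (norm_nonneg _))
      have hzc : (p.2 : ℂ) ≠ 0 := Complex.ofReal_ne_zero.2 hz
      have hpos : 0 < e * |p.2| := mul_pos he (abs_pos.2 hz)
      refine ⟨-(2 * (p.1 / (e * p.2) + 1)), ?_, ?_⟩
      · rw [mem_ball_zero_iff]
        have h1 : p.1 / (e * p.2) + 1 = (p.1 + e * p.2) / (e * p.2) := by field_simp
        rw [h1, norm_neg, norm_mul, norm_div, norm_mul, Complex.norm_real, Complex.norm_real,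
          Real.norm_of_nonneg he.le, Real.norm_eq_abs, Complex.norm_ofNat, ← mul_div_assoc,
          div_lt_one hpos]
        linarith
      · unfold dd
        rw [vc_of_eq hz (w := -1 * (1 + -(2 * (p.1 / (e * p.2) + 1)) / 2))]
        field_simp
        ring

theorem handle_model (P : Par M h b e) : HandleAttached (RR e) (SS h b e) := by
  have hh := P.h0
  have hh1 := P.h_le
  have he := P.e0
  have hec : (e : ℂ) ≠ 0 := Complex.ofReal_ne_zero.2 he.ne'
  set L : ℝ := Real.log (1 / (2 * h)) with hL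
  have hLpos : 0 < L := Real.log_pos (by rw [lt_div_iff₀ (by positivity)]; linarith)
  have hexpL : h * Real.exp L = 1 / 2 := by
    rw [hL, Real.exp_log (by positivity)]; field_simp
  set A1 : ℝ × ℂ → ℂ := fun q => ((h * Real.exp ((1 - 2 * q.1) * L) : ℝ) : ℂ) * q.2 with hA1
  set A2 : ℝ × ℂ → ℂ := fun q => ((h * Real.exp ((2 * q.1 - 1) * L) : ℝ) : ℂ) * q.2 with hA2
  have nA1 : ∀ q : ℝ × ℂ, q.2 ∈ sphere (0 : ℂ) 1 → ‖A1 q‖ = h * Real.exp ((1 - 2 * q.1) * L) := by
    intro q hq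
    rw [mem_sphere_zero_iff_norm] at hq
    simp only [hA1]
    rw [norm_mul, Complex.norm_real, hq, mul_one, Real.norm_of_nonneg (by positivity)]
  have nA2 : ∀ q : ℝ × ℂ, q.2 ∈ sphere (0 : ℂ) 1 → ‖A2 q‖ = h * Real.exp ((2 * q.1 - 1) * L) := by
    intro q hq
    rw [mem_sphere_zero_iff_norm] at hq
    simp only [hA2]
    rw [norm_mul, Complex.norm_real, hq, mul_one, Real.norm_of_nonneg (by positivity)]
  have hrange : ∀ s : ℝ, 0 ≤ s → s ≤ 1 → h ≤ h * Real.exp (s * L) ∧ h * Real.exp (s * L) ≤ 1 / 2 := by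
    intro s hs hs1
    have h1 : 1 ≤ Real.exp (s * L) := Real.one_le_exp (mul_nonneg hs hLpos.le)
    have h2 : Real.exp (s * L) ≤ Real.exp L := Real.exp_le_exp.2 (by nlinarith)
    constructor
    · nlinarith
    · rw [← hexpL]; exact mul_le_mul_of_nonneg_left h2 hh.le
  have kA1 : ∀ q : ℝ × ℂ, q.2 ∈ sphere (0 : ℂ) 1 → 0 ≤ q.1 → q.1 ≤ 1 / 2 → A1 q ∈ KK h := by
    intro q hq h0 h1
    have h2 := hrange (1 - 2 * q.1) (by linarith) (by linarith)
    refine ⟨?_, ?_⟩
    · rw [nA1 q hq]; exact h2.1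
    · rw [nA1 q hq]; exact h2.2
  have kA2 : ∀ q : ℝ × ℂ, q.2 ∈ sphere (0 : ℂ) 1 → 1 / 2 ≤ q.1 → q.1 ≤ 1 → A2 q ∈ KK h := by
    intro q hq h0 h1
    have h2 := hrange (2 * q.1 - 1) (by linarith) (by linarith)
    refine ⟨?_, ?_⟩
    · rw [nA2 q hq]; exact h2.1
    · rw [nA2 q hq]; exact h2.2
  have cA1 : Continuous A1 := by
    simp only [hA1]; fun_prop
  have cA2 : Continuous A2 := by
    simp only [hA2]; fun_prop
  set g : ℝ × ℂ → ℂ × ℂ := fun q =>
    if q.1 ≤ 1 / 2 then ff h b e (A1 q) else sg (ff h b e (A2 q)) with hg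
  have g1 : ∀ q : ℝ × ℂ, q.1 ≤ 1 / 2 → g q = ff h b e (A1 q) := by
    intro q hq; simp only [hg, if_pos hq]
  have g2 : ∀ q : ℝ × ℂ, q.2 ∈ sphere (0 : ℂ) 1 → 1 / 2 ≤ q.1 → g q = sg (ff h b e (A2 q)) := by
    intro q hq hq1
    rcases hq1.lt_or_eq with h1 | h1
    · simp only [hg, if_neg (not_le.2 h1)]
    · rw [g1 q h1.ge]
      have h2 : A1 q = A2 q := by
        simp only [hA1, hA2]
        rw [← h1]; norm_num
      have h3 : ‖A2 q‖ = h := by
        rw [nA2 q hq, ← h1]; norm_num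
      rw [h2, ff_waist P h3]
  -- the two parts of the annulus
  have hsplit : (Icc (0 : ℝ) 1 ×ˢ sphere (0 : ℂ) 1) =
      (Icc (0 : ℝ) (1 / 2) ×ˢ sphere (0 : ℂ) 1) ∪ (Icc (1 / 2 : ℝ) 1 ×ˢ sphere (0 : ℂ) 1) := by
    rw [← union_prod, Icc_union_Icc_eq_Icc (by norm_num) (by norm_num)]
  have gimage : g '' (Icc (0 : ℝ) 1 ×ˢ sphere (0 : ℂ) 1) =
      ff h b e '' KK h ∪ (fun u => sg (ff h b e u)) '' KK h := by
    -- surjectivity
    have hsurj : ∀ u ∈ KK h, ∃ s : ℝ, 0 ≤ s ∧ s ≤ 1 ∧ ∃ X ∈ sphere (0 : ℂ) 1,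
        u = ((h * Real.exp (s * L) : ℝ) : ℂ) * X := by
      intro u hu
      have hu0 := KK_ne P hu
      have hupos : 0 < ‖u‖ := norm_pos_iff.2 hu0
      have huc : ((‖u‖ : ℝ) : ℂ) ≠ 0 := Complex.ofReal_ne_zero.2 hupos.ne'
      have hlog : Real.log (‖u‖ / h) ≤ L := by
        apply Real.log_le_log (by positivity)
        rw [div_le_div_iff₀ hh (by positivity)]
        nlinarith [hu.2]
      have hlog0 : 0 ≤ Real.log (‖u‖ / h) := Real.log_nonneg (by
        rw [le_div_iff₀ hh, one_mul]; exact hu.1)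
      refine ⟨Real.log (‖u‖ / h) / L, by positivity, (div_le_one hLpos).2 hlog, u / ‖u‖, ?_, ?_⟩
      · rw [mem_sphere_zero_iff_norm, norm_div, Complex.norm_real, norm_norm, div_self hupos.ne']
      · rw [div_mul_cancel₀ _ hLpos.ne', Real.exp_log (by positivity), mul_div_cancel₀ _ hh.ne']
        field_simp
    ext x
    constructor
    · rintro ⟨q, ⟨hq1, hq2⟩, rfl⟩
      rcases le_total q.1 (1 / 2) with h1 | h1
      · left
        rw [g1 q h1]
        exact ⟨A1 q, kA1 q hq2 hq1.1 h1, rfl⟩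
      · right
        rw [g2 q hq2 h1]
        exact ⟨A2 q, kA2 q hq2 h1 hq1.2, rfl⟩
    · rintro (⟨u, hu, rfl⟩ | ⟨u, hu, rfl⟩)
      · obtain ⟨s, hs0, hs1, X, hX, hux⟩ := hsurj u hu
        refine ⟨((1 - s) / 2, X), ⟨⟨?_, ?_⟩, hX⟩, ?_⟩
        · simp only; linarith
        · simp only; linarith
        · rw [g1 _ (by simp only; linarith)]
          congr 1
          simp only [hA1]
          rw [hux]
          congr 3
          ring_nf
      · obtain ⟨s, hs0, hs1, X, hX, hux⟩ := hsurj u hu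
        refine ⟨((1 + s) / 2, X), ⟨⟨?_, ?_⟩, hX⟩, ?_⟩
        · simp only; linarith
        · simp only; linarith
        · rw [g2 _ hX (by simp only; linarith)]
          simp only [hA2]
          rw [hux]
          congr 3
          ring_nf
  have hzero : ∀ X ∈ sphere (0 : ℂ) 1, g (0, X) = dd e 1 X := by
    intro X hX
    rw [g1 _ (by norm_num)]
    have h1 : A1 (0, X) = X / 2 := by
      simp only [hA1]
      norm_num
      rw [← Complex.ofReal_exp, ← Complex.ofReal_mul, hexpL]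
      push_cast
      ring
    have h2 : ‖X / 2‖ = 1 / 2 := by
      rw [mem_sphere_zero_iff_norm] at hX
      rw [norm_div, hX, Complex.norm_ofNat]
    rw [h1, ff_eq_ver he.ne' (by rw [h2]; norm_num)]
    unfold dd
    rw [one_mul]
  have hone : ∀ X ∈ sphere (0 : ℂ) 1, g (1, X) = dd e (-1) X := by
    intro X hX
    rw [g2 _ hX (by norm_num)]
    have h1 : A2 (1, X) = X / 2 := by
      simp only [hA2]
      norm_num
      rw [← Complex.ofReal_exp, ← Complex.ofReal_mul, hexpL]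
      push_cast
      ring
    have h2 : ‖X / 2‖ = 1 / 2 := by
      rw [mem_sphere_zero_iff_norm] at hX
      rw [norm_div, hX, Complex.norm_ofNat]
    rw [h1, ff_eq_ver he.ne' (by rw [h2]; norm_num), ← ver_vc_neg he.ne']
    unfold dd
    rw [neg_one_mul]
  refine ⟨dd e 1, dd e (-1), g, (continuous_dd he 1).continuousOn,
    (dd_injective he one_ne_zero).injOn, ?_, (continuous_dd he (-1)).continuousOn,
    (dd_injective he (neg_ne_zero.2 one_ne_zero)).injOn, ?_, ?_, ?_, ?_, ?_, ?_, ?_, ?_⟩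
  · rintro _ ⟨c, -, rfl⟩
    exact ver_mem_RR (vc_ne_zero e _)
  · rintro _ ⟨c, -, rfl⟩
    exact ver_mem_RR (vc_ne_zero e _)
  · rw [disjoint_left]
    rintro _ ⟨c, hc, rfl⟩ ⟨c', hc', hcc⟩
    rw [mem_closedBall_zero_iff] at hc hc'
    obtain ⟨-, h3⟩ := eq_vc he (vc_ne_zero e _) hcc
    simp only [vc, Complex.ofReal_one, mul_one] at h3
    have h4 := mul_left_cancel₀ hec h3
    have h5 : c + c' = -4 := by linear_combination (-2) * h4
    have h6 := norm_add_le c c'
    rw [h5, norm_neg, Complex.norm_ofNat] at h6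
    linarith
  · rw [hsplit]
    apply ContinuousOn.union_of_isClosed
    · have h1 : ContinuousOn (fun q => ff h b e (A1 q)) (Icc (0 : ℝ) (1 / 2) ×ˢ sphere (0 : ℂ) 1) :=
        (continuousOn_ff P).comp cA1.continuousOn fun q hq => kA1 q hq.2 hq.1.1 hq.1.2
      exact h1.congr fun q hq => g1 q hq.1.2
    · have h1 : ContinuousOn (fun q => sg (ff h b e (A2 q)))
          (Icc (1 / 2 : ℝ) 1 ×ˢ sphere (0 : ℂ) 1) :=
        continuous_sg.comp_continuousOn
          ((continuousOn_ff P).comp cA2.continuousOn fun q hq => kA2 q hq.2 hq.1.1 hq.1.2)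
      exact h1.congr fun q hq => g2 q hq.2 hq.1.1
    · exact isClosed_Icc.prod isClosed_sphere
    · exact isClosed_Icc.prod isClosed_sphere
  · -- injectivity
    have hinj : ∀ s s' : ℝ, ∀ X ∈ sphere (0 : ℂ) 1, ∀ X' ∈ sphere (0 : ℂ) 1,
        ((h * Real.exp (s * L) : ℝ) : ℂ) * X = ((h * Real.exp (s' * L) : ℝ) : ℂ) * X' →
        s = s' ∧ X = X' := by
      intro s s' X hX X' hX' heq
      rw [mem_sphere_zero_iff_norm] at hX hX'
      have h1 := congrArg norm heq
      rw [norm_mul, norm_mul, hX, hX', Complex.norm_real, Complex.norm_real,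
        Real.norm_of_nonneg (by positivity), Real.norm_of_nonneg (by positivity), mul_one,
        mul_one] at h1
      have h2 := Real.exp_injective (mul_left_cancel₀ hh.ne' h1)
      have h3 := mul_right_cancel₀ hLpos.ne' h2
      refine ⟨h3, ?_⟩
      rw [h3] at heq
      exact mul_left_cancel₀ (Complex.ofReal_ne_zero.2 (by positivity)) heq
    have hmix : ∀ q q' : ℝ × ℂ, q ∈ (Icc (0 : ℝ) 1 ×ˢ sphere (0 : ℂ) 1) →
        q' ∈ (Icc (0 : ℝ) 1 ×ˢ sphere (0 : ℂ) 1) → q.1 ≤ 1 / 2 → 1 / 2 < q'.1 → g q ≠ g q' := by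
      intro q q' hq hq' h1 h2 heq
      rw [g1 q h1, g2 q' hq'.2 h2.le] at heq
      have k1 := kA1 q hq.2 hq.1.1 h1
      have k2 := kA2 q' hq'.2 h2.le hq'.1.2
      obtain ⟨h3, h4⟩ := ff_sg P k1.1 k2.1 (by linarith [k1.2]) (by linarith [k2.2]) heq
      rw [h3, nA2 q' hq'.2] at h4
      have h5 : 1 < Real.exp ((2 * q'.1 - 1) * L) := Real.one_lt_exp_iff.2
        (mul_pos (by linarith) hLpos)
      nlinarith
    intro q hq q' hq' heq
    rcases le_or_gt q.1 (1 / 2) with h1 | h1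
    · rcases le_or_gt q'.1 (1 / 2) with h2 | h2
      · rw [g1 q h1, g1 q' h2] at heq
        have k1 := kA1 q hq.2 hq.1.1 h1
        have k2 := kA1 q' hq'.2 hq'.1.1 h2
        have h3 := ff_inj P k1.1 k2.1 (by linarith [k1.2]) (by linarith [k2.2]) heq
        obtain ⟨h4, h5⟩ := hinj _ _ q.2 hq.2 q'.2 hq'.2 h3
        exact Prod.ext (by linarith) h5
      · exact absurd heq (hmix q q' hq hq' h1 h2)
    · rcases le_or_gt q'.1 (1 / 2) with h2 | h2
      · exact absurd heq.symm (hmix q' q hq' hq h2 h1)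
      · rw [g2 q hq.2 h1.le, g2 q' hq'.2 h2.le] at heq
        have heq' : ff h b e (A2 q) = ff h b e (A2 q') := by
          rw [← sg_sg (ff h b e (A2 q)), heq, sg_sg]
        have k1 := kA2 q hq.2 h1.le hq.1.2
        have k2 := kA2 q' hq'.2 h2.le hq'.1.2
        have h3 := ff_inj P k1.1 k2.1 (by linarith [k1.2]) (by linarith [k2.2]) heq'
        obtain ⟨h4, h5⟩ := hinj _ _ q.2 hq.2 q'.2 hq'.2 h3
        exact Prod.ext (by linarith) h5
  · ext x
    constructor
    · rintro ⟨q, ⟨hq1, hq2⟩, rfl⟩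
      have : q = (0, q.2) := Prod.ext hq1 rfl
      rw [this, hzero q.2 hq2]
      exact ⟨q.2, hq2, rfl⟩
    · rintro ⟨X, hX, rfl⟩
      exact ⟨(0, X), ⟨rfl, hX⟩, hzero X hX⟩
  · ext x
    constructor
    · rintro ⟨q, ⟨hq1, hq2⟩, rfl⟩
      have : q = (1, q.2) := Prod.ext hq1 rfl
      rw [this, hone q.2 hq2]
      exact ⟨q.2, hq2, rfl⟩
    · rintro ⟨X, hX, rfl⟩
      exact ⟨(1, X), ⟨rfl, hX⟩, hone X hX⟩
  · rw [← ver_GG_eq he, disjoint_left]
    rintro _ ⟨q, ⟨hq1, hq2⟩, rfl⟩ ⟨p, hp, hpq⟩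
    have h38 := GG_38 P hp
    have hstrict : ∀ s : ℝ, s < 1 → h * Real.exp (s * L) < 1 / 2 := by
      intro s hs
      rw [← hexpL]
      apply mul_lt_mul_of_pos_left _ hh
      exact Real.exp_lt_exp.2 (by nlinarith)
    rcases le_total q.1 (1 / 2) with h1 | h1
    · rw [g1 q h1] at hpq
      have k1 := kA1 q hq2 hq1.1.le h1
      obtain ⟨-, h2, h3⟩ := ff_ver P k1.1 (GG_ne hp) h38.1 h38.2 hpq.symm
      have h4 := hp.2.1
      have hpos : 0 < e * |p.2| := mul_pos he (abs_pos.2 h2)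
      rw [h3, show (e : ℂ) * (1 + A1 q) * p.2 - e * p.2 = (e * p.2) * A1 q by ring,
        norm_mul, norm_mul, Complex.norm_real, Complex.norm_real,
        Real.norm_of_nonneg he.le, Real.norm_eq_abs, nA1 q hq2] at h4
      have h5 := hstrict (1 - 2 * q.1) (by linarith [hq1.1])
      have h6 : e * |p.2| * (h * Real.exp ((1 - 2 * q.1) * L)) < e * |p.2| * (1 / 2) :=
        mul_lt_mul_of_pos_left h5 hpos
      linarith
    · rw [g2 q hq2 h1] at hpq
      have k1 := kA2 q hq2 h1 hq1.2.le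
      obtain ⟨-, h2, h3⟩ := ff_sg_ver P k1.1 (GG_ne hp) h38.1 h38.2 hpq.symm
      have h4 := hp.2.2
      have hpos : 0 < e * |p.2| := mul_pos he (abs_pos.2 h2)
      rw [h3, show (e : ℂ) * (-(1 + A2 q)) * p.2 + e * p.2 = -((e * p.2) * A2 q) by ring, norm_neg,
        norm_mul, norm_mul, Complex.norm_real, Complex.norm_real,
        Real.norm_of_nonneg he.le, Real.norm_eq_abs, nA2 q hq2] at h4
      have h5 := hstrict (2 * q.1 - 1) (by linarith [hq1.2])
      have h6 : e * |p.2| * (h * Real.exp ((2 * q.1 - 1) * L)) < e * |p.2| * (1 / 2) :=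
        mul_lt_mul_of_pos_left h5 hpos
      linarith
  · rw [← ver_GG_eq he, gimage, ← union_assoc]
    rfl

end Pool.Agent.Lib.MP_6a9e1f_gt
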