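import Mathlib
import Pool.Agent.Lib.MP_6a9e1f_gt.Handle

/-!
Transfer to Euclidean four-space.
-/

namespace Pool.Agent.Lib.MP_6a9e1f_gt

open ComplexConjugate Set Filter Topology Metric
open scoped ContDiff

variable {M h b e : ℝ}

lemma sqrt2_sq : √(2 : ℝ) * √2 = 2 := Real.mul_self_sqrt (by norm_num)

lemma sqrt2_pos : 0 < √(2 : ℝ) := Real.sqrt_pos.2 (by norm_num)

/-- The projected Veronese map. -/
noncomputable def VV (x : Eucl 3) : Eucl 4 :=
  WithLp.toLp 2 ![(x 0 ^ 2 - x 1 ^ 2) / √2, √2 * (x 0 * x 1), √2 * (x 1 * x 2), √2 * (x 2 * x 0)]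

/-- The linear identification. -/
noncomputable def TT (e : ℝ) (x : ℂ × ℂ) : Eucl 4 :=
  WithLp.toLp 2 ![e ^ 2 * x.2.re / √2, e ^ 2 * x.2.im / √2, √2 * e * x.1.im, √2 * e * x.1.re]

/-- The linear identification as a linear equivalence. -/
noncomputable def TL (e : ℝ) (he : e ≠ 0) : (ℂ × ℂ) ≃ₗ[ℝ] Eucl 4 where
  toFun := TT e
  map_add' x y := by
    ext i
    fin_cases i <;> simp [TT] <;> ring
  map_smul' t x := by
    ext i
    fin_cases i <;> simp [TT] <;> ring
  invFun y := (⟨y 3 / (√2 * e), y 2 / (√2 * e)⟩, ⟨√2 * y 0 / e ^ 2, √2 * y 1 / e ^ 2⟩)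
  left_inv x := by
    have h2 := sqrt2_pos.ne'
    apply Prod.ext
    · apply Complex.ext
      · simp [TT]; field_simp
      · simp [TT]; field_simp
    · apply Complex.ext
      · simp [TT]; field_simp
      · simp [TT]; field_simp
  right_inv y := by
    have h2 := sqrt2_pos.ne'
    ext i
    fin_cases i
    · simp [TT]; field_simp
    · simp [TT]; field_simp
    · simp [TT]; field_simp
    · simp [TT]; field_simp

/-- The linear identification as a continuous linear equivalence. -/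
noncomputable def TC (e : ℝ) (he : e ≠ 0) : (ℂ × ℂ) ≃L[ℝ] Eucl 4 := (TL e he).toContinuousLinearEquiv

lemma TC_apply (he : e ≠ 0) (x : ℂ × ℂ) : TC e he x = TT e x := rfl

/-- A point of `E³` as an element of `ℂ × ℝ`. -/
noncomputable def pp (x : Eucl 3) : ℂ × ℝ := (⟨x 0, x 1⟩, x 2)

lemma nn_pp (x : Eucl 3) : nn (pp x) = ‖x‖ ^ 2 := by
  rw [EuclideanSpace.real_norm_sq_eq]
  simp [nn, pp, Complex.normSq_apply, Fin.sum_univ_three]
  ring

lemma pp_surj (p : ℂ × ℝ) : ∃ x, pp x = p :=
  ⟨WithLp.toLp 2 ![p.1.re, p.1.im, p.2], by simp [pp]⟩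

lemma pp_neg (x : Eucl 3) : pp (-x) = -pp x := by
  apply Prod.ext
  · apply Complex.ext <;> simp [pp]
  · simp [pp]

lemma pp_inj {x y : Eucl 3} (hxy : pp x = pp y) : x = y := by
  have h1 := congrArg Prod.fst hxy
  have h2 := congrArg Prod.snd hxy
  have h3 := congrArg Complex.re h1
  have h4 := congrArg Complex.im h1
  simp only [pp] at h2 h3 h4
  ext i
  fin_cases i
  · exact h3
  · exact h4
  · exact h2

lemma VV_eq (he : 0 < e) {x : Eucl 3} (hx : ‖x‖ = 1) : VV x = TT e (ver e (pp x)) := by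
  have hn : nn (pp x) = 1 := by rw [nn_pp, hx]; norm_num
  have h2 := sqrt2_pos.ne'
  have h22 := sqrt2_sq
  have e1 : (ver e (pp x)).1 = ((1 / e : ℝ) : ℂ) * (x 2 * ⟨x 0, x 1⟩) := by
    unfold ver
    rw [hn]
    simp only [pp]
    push_cast
    field_simp
  have e2 : (ver e (pp x)).2 = ((1 / e ^ 2 : ℝ) : ℂ) * (⟨x 0, x 1⟩ * ⟨x 0, x 1⟩) := by
    unfold ver
    rw [hn]
    simp only [pp]
    push_cast
    field_simp
  unfold VV TT
  rw [e1, e2]
  ext i
  fin_cases i
  · simp only [Complex.mul_re, Complex.mul_im, Complex.ofReal_re, Complex.ofReal_im]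
    simp
    field_simp
  · simp only [Complex.mul_re, Complex.mul_im, Complex.ofReal_re, Complex.ofReal_im]
    simp
    field_simp
    rw [pow_two, h22]
    ring
  · simp only [Complex.mul_re, Complex.mul_im, Complex.ofReal_re, Complex.ofReal_im]
    simp
    field_simp
  · simp only [Complex.mul_re, Complex.mul_im, Complex.ofReal_re, Complex.ofReal_im]
    simp
    field_simp

lemma VV_image (he : 0 < e) : VV '' sphere 0 1 = TT e '' RR e := by
  ext y
  constructor
  · rintro ⟨x, hx, rfl⟩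
    rw [mem_sphere_zero_iff_norm] at hx
    rw [VV_eq he hx]
    exact ⟨_, ⟨pp x, by simp [nn_pp, hx], rfl⟩, rfl⟩
  · rintro ⟨_, ⟨p, hp, rfl⟩, rfl⟩
    obtain ⟨x, rfl⟩ := pp_surj p
    have hx : ‖x‖ = 1 := by
      have h1 : nn (pp x) = 1 := hp
      rw [nn_pp] at h1
      have h2 := norm_nonneg x
      nlinarith
    exact ⟨x, mem_sphere_zero_iff_norm.2 hx, VV_eq he hx⟩

/-! ### The map `VV` is a projected Veronese surface -/

lemma contDiff_VV : ContDiff ℝ ∞ VV := by
  have hc : ∀ i : Fin 3, ContDiff ℝ ∞ fun x : Eucl 3 => x i := fun i =>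
    (EuclideanSpace.proj (𝕜 := ℝ) i).contDiff
  rw [contDiff_euclidean]
  intro i
  fin_cases i
  · exact (((hc 0).pow 2).sub ((hc 1).pow 2)).div_const _
  · exact contDiff_const.mul ((hc 0).mul (hc 1))
  · exact contDiff_const.mul ((hc 1).mul (hc 2))
  · exact contDiff_const.mul ((hc 2).mul (hc 0))

/-- The direction of the four-dimensional affine subspace. -/
noncomputable def iotaL : Eucl 4 →ₗᵢ[ℝ] Eucl 6 where
  toFun y := WithLp.toLp 2 ![y 0 / √2, -(y 0 / √2), 0, y 1, y 2, y 3]
  map_add' x y := by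
    ext i
    fin_cases i <;> simp <;> ring
  map_smul' t y := by
    ext i
    fin_cases i <;> simp <;> ring
  norm_map' y := by
    have h22 : √(2 : ℝ) ^ 2 = 2 := Real.sq_sqrt (by norm_num)
    rw [← sq_eq_sq₀ (norm_nonneg _) (norm_nonneg _), EuclideanSpace.real_norm_sq_eq,
      EuclideanSpace.real_norm_sq_eq]
    simp [Fin.sum_univ_succ, div_pow, h22]
    ring

lemma iotaL_apply (y : Eucl 4) :
    iotaL y = WithLp.toLp 2 ![y 0 / √2, -(y 0 / √2), 0, y 1, y 2, y 3] := rfl

/-- The centre of the Veronese surface. -/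
noncomputable def cen : Eucl 6 := WithLp.toLp 2 ![1 / 3, 1 / 3, 1 / 3, 0, 0, 0]

/-- The isometric identification of `E⁴` with the four-dimensional affine subspace. -/
noncomputable def iota : Eucl 4 →ᵃⁱ[ℝ] Eucl 6 :=
  (AffineIsometryEquiv.constVAdd ℝ (Eucl 6) cen).toAffineIsometry.comp iotaL.toAffineIsometry

lemma iota_apply (y : Eucl 4) : iota y = cen + iotaL y := rfl

lemma proj_VV : IsOrthogonalProjectionOfVeronese VV := by
  have h2 := sqrt2_pos.ne'
  have h22 : √(2 : ℝ) ^ 2 = 2 := Real.sq_sqrt (by norm_num)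
  refine ⟨iota, iota.isometry, ?_, ?_⟩
  · rintro _ ⟨y, rfl⟩
    change iota y 0 + iota y 1 + iota y 2 = 1
    simp only [iota_apply, iotaL_apply, cen]
    simp
    ring
  · intro x _
    refine ⟨⟨VV x, rfl⟩, ?_⟩
    rintro _ ⟨y, rfl⟩
    simp only [iota_apply, iotaL_apply, cen, veronese, VV]
    simp [PiLp.inner_apply, Fin.sum_univ_succ]
    field_simp
    rw [h22]
    ring

lemma isProjectedVeronese_VV : IsProjectedVeronese VV where
  projection := proj_VV
  immersion := by
    refine ⟨contDiff_VV, ?_⟩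
    intro x v hx hxv hd
    have h2 := sqrt2_pos.ne'
    have hline : HasDerivAt (fun t : ℝ => x + t • v) v 0 := by
      have h1 : HasDerivAt (fun t : ℝ => t • v) ((1 : ℝ) • v) 0 := (hasDerivAt_id 0).smul_const v
      rw [one_smul] at h1
      simpa using h1.const_add x
    have hV : HasDerivAt (fun t : ℝ => VV (x + t • v)) 0 0 := by
      have h1 : HasFDerivAt VV (fderiv ℝ VV x) (x + (0 : ℝ) • v) := by
        simpa using (contDiff_VV.contDiffAt.differentiableAt (by simp)).hasFDerivAt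
      have h3 := h1.comp_hasDerivAt (0 : ℝ) hline
      rwa [hd] at h3
    have hcoord : ∀ i : Fin 4, HasDerivAt (fun t : ℝ => VV (x + t • v) i) 0 0 := by
      intro i
      have h3 := (EuclideanSpace.proj (𝕜 := ℝ) i).hasFDerivAt.comp_hasDerivAt (0 : ℝ) hV
      exact h3.congr_deriv (map_zero _)
    have hx' : ∀ i : Fin 3, HasDerivAt (fun t : ℝ => (x + t • v) i) (v i) 0 := by
      intro i
      exact (EuclideanSpace.proj (𝕜 := ℝ) i).hasFDerivAt.comp_hasDerivAt (0 : ℝ) hline
    have hz : ∀ i : Fin 3, (x + (0 : ℝ) • v) i = x i := by intro i; simp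
    have e0 := (hcoord 0).unique ((((hx' 0).pow 2).sub ((hx' 1).pow 2)).div_const √2)
    have e1 := (hcoord 1).unique (((hx' 0).mul (hx' 1)).const_mul √2)
    have e2 := (hcoord 2).unique (((hx' 1).mul (hx' 2)).const_mul √2)
    have e3 := (hcoord 3).unique (((hx' 2).mul (hx' 0)).const_mul √2)
    simp only [hz] at e0 e1 e2 e3
    have i0 : x 0 * v 0 = x 1 * v 1 := by
      field_simp at e0
      norm_num at e0
      linarith
    have i1 : v 0 * x 1 + x 0 * v 1 = 0 := (mul_eq_zero.1 e1.symm).resolve_left h2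
    have i2 : v 1 * x 2 + x 1 * v 2 = 0 := (mul_eq_zero.1 e2.symm).resolve_left h2
    have i3 : v 2 * x 0 + x 2 * v 0 = 0 := (mul_eq_zero.1 e3.symm).resolve_left h2
    have i4 : x 0 * v 0 + x 1 * v 1 + x 2 * v 2 = 0 := by
      have : inner ℝ x v = v 0 * x 0 + v 1 * x 1 + v 2 * x 2 := by
        simp [PiLp.inner_apply, Fin.sum_univ_three]
      rw [this] at hxv
      linarith
    have i5 : x 0 ^ 2 + x 1 ^ 2 + x 2 ^ 2 = 1 := by
      have h3 := EuclideanSpace.real_norm_sq_eq x
      rw [hx, Fin.sum_univ_three] at h3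
      linarith
    by_cases hv : v 0 ^ 2 + v 1 ^ 2 = 0
    · have v0 : v 0 = 0 := by nlinarith [sq_nonneg (v 0), sq_nonneg (v 1)]
      have v1 : v 1 = 0 := by nlinarith [sq_nonneg (v 0), sq_nonneg (v 1)]
      rw [v1] at i2
      rw [v0] at i3
      rw [v0, v1] at i4
      have j1 : x 1 * v 2 = 0 := by linarith
      have j2 : v 2 * x 0 = 0 := by linarith
      have j3 : x 2 * v 2 = 0 := by linarith
      have j4 : v 2 = 0 := by
        have : v 2 = v 2 * (x 0 ^ 2 + x 1 ^ 2 + x 2 ^ 2) := by rw [i5, mul_one]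
        rw [this]
        linear_combination x 1 * j1 + x 0 * j2 + x 2 * j3
      ext i
      fin_cases i
      · exact v0
      · exact v1
      · exact j4
    · exfalso
      have k1 : (x 0 ^ 2 + x 1 ^ 2) * (v 0 ^ 2 + v 1 ^ 2) = 0 := by
        have : (x 0 ^ 2 + x 1 ^ 2) * (v 0 ^ 2 + v 1 ^ 2) =
            (x 0 * v 0 - x 1 * v 1) ^ 2 + (v 0 * x 1 + x 0 * v 1) ^ 2 := by ring
        rw [this, i1, i0]; ring
      have k2 : x 0 ^ 2 + x 1 ^ 2 = 0 := (mul_eq_zero.1 k1).resolve_right hv
      have x0 : x 0 = 0 := by nlinarith [sq_nonneg (x 0), sq_nonneg (x 1)]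
      have x1 : x 1 = 0 := by nlinarith [sq_nonneg (x 0), sq_nonneg (x 1)]
      rw [x0] at i3
      rw [x1] at i2
      have x2 : x 2 ≠ 0 := by
        intro h0
        rw [x0, x1, h0] at i5
        norm_num at i5
      have v0 : v 0 = 0 := by
        have : x 2 * v 0 = 0 := by linarith
        exact (mul_eq_zero.1 this).resolve_left x2
      have v1 : v 1 = 0 := by
        have : v 1 * x 2 = 0 := by linarith
        exact (mul_eq_zero.1 this).resolve_right x2
      apply hv
      rw [v0, v1]; ring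
  injective := by
    intro x y hx hy
    have hpx : nn (pp x) = 1 := by rw [nn_pp, hx]; norm_num
    have hpy : nn (pp y) = 1 := by rw [nn_pp, hy]; norm_num
    constructor
    · intro hxy
      rw [VV_eq one_pos hx, VV_eq one_pos hy] at hxy
      have h1 := (TL 1 one_ne_zero).injective hxy
      rcases ver_inj_unit one_pos hpx hpy h1 with h2 | h2
      · exact Or.inl (pp_inj h2)
      · right
        rw [← pp_neg] at h2
        exact pp_inj h2
    · rintro (rfl | rfl)
      · rfl
      · rw [VV_eq one_pos hx, VV_eq one_pos hy, pp_neg, ver_neg]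

/-! ### Transfer -/

lemma HandleAttached.map {Z Z' : Type*} [TopologicalSpace Z] [TopologicalSpace Z'] {T : Z → Z'}
    (hT : Continuous T) (hTi : Function.Injective T) {R S : Set Z} (hRS : HandleAttached R S) :
    HandleAttached (T '' R) (T '' S) := by
  obtain ⟨d₁, d₂, g, a1, a2, a3, b1, b2, b3, c1, c2, c3, c4, c5, c6, c7⟩ := hRS
  refine ⟨T ∘ d₁, T ∘ d₂, T ∘ g, hT.comp_continuousOn a1, hTi.injOn.comp a2 (mapsTo_univ _ _), ?_,
    hT.comp_continuousOn b1, hTi.injOn.comp b2 (mapsTo_univ _ _), ?_, ?_,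
    hT.comp_continuousOn c2, hTi.injOn.comp c3 (mapsTo_univ _ _), ?_, ?_, ?_, ?_⟩
  · rw [image_comp]; exact image_mono a3
  · rw [image_comp]; exact image_mono b3
  · rw [image_comp, image_comp]; exact (disjoint_image_iff hTi).2 c1
  · rw [image_comp, image_comp, c4]
  · rw [image_comp, image_comp, c5]
  · rw [image_comp, image_comp, image_comp, ← image_union, ← image_sdiff hTi]
    exact (disjoint_image_iff hTi).2 c6
  · rw [image_comp, image_comp, image_comp, ← image_union, ← image_sdiff hTi, ← image_union, ← c7]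

lemma TT_inner (z : Eucl 4) (x : ℂ × ℂ) : inner ℝ z (TT e x) =
    aff 0 ⟨√2 * e * z 3, √2 * e * z 2⟩ ⟨e ^ 2 / √2 * z 0, e ^ 2 / √2 * z 1⟩ x := by
  simp [PiLp.inner_apply, Fin.sum_univ_succ, TT, aff]
  ring

/-- The main theorem. -/
theorem main : ∃ (V : Eucl 3 → Eucl 4) (S : Set (Eucl 4)), IsProjectedVeronese V ∧
    HandleAttached (V '' sphere 0 1) S ∧ IsClosedSmoothSurface S ∧ TwoPieceProperty S := by
  obtain ⟨M, h, b, e, P⟩ := exists_par
  have he := P.e0
  have hTc : Continuous (TT e) := (TC e he.ne').continuous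
  have hTi : Function.Injective (TT e) := (TL e he.ne').injective
  refine ⟨VV, TT e '' SS h b e, isProjectedVeronese_VV, ?_, ⟨?_, ?_⟩, ?_⟩
  · rw [VV_image he]
    exact (handle_model P.toPar).map hTc hTi
  · exact (isCompact_SS P.toPar).image hTc
  · rintro _ ⟨x, hx, rfl⟩
    have h1 := ((chart_all P x hx).map (TC e he.ne')).domain
      (Complex.orthonormalBasisOneI.repr.symm.toContinuousLinearEquiv : Eucl 2 ≃L[ℝ] ℂ)
    exact h1
  · intro z hz c
    have h1 : TT e '' SS h b e ∩ {x | c < inner ℝ z x} =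
        TT e '' (SS h b e ∩ {x | c < aff 0 ⟨√2 * e * z 3, √2 * e * z 2⟩
          ⟨e ^ 2 / √2 * z 0, e ^ 2 / √2 * z 1⟩ x}) := by
      ext y
      constructor
      · rintro ⟨⟨x, hx, rfl⟩, hy⟩
        refine ⟨x, ⟨hx, ?_⟩, rfl⟩
        change c < _
        rw [← TT_inner]; exact hy
      · rintro ⟨x, ⟨hx, hy⟩, rfl⟩
        refine ⟨⟨x, hx, rfl⟩, ?_⟩
        change c < _
        rw [TT_inner]; exact hy
    rw [h1]
    apply IsPreconnected.image _ _ hTc.continuousOn
    apply tpp_SS P
    rintro ⟨h2, h3⟩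
    apply hz
    have h4 := sqrt2_pos
    have h5 := congrArg Complex.re h2
    have h6 := congrArg Complex.im h2
    have h7 := congrArg Complex.re h3
    have h8 := congrArg Complex.im h3
    simp only [Complex.zero_re, Complex.zero_im] at h5 h6 h7 h8
    have p1 : 0 < √2 * e := by positivity
    have p2 : 0 < e ^ 2 / √2 := by positivity
    ext i
    fin_cases i
    · exact (mul_eq_zero.1 h7).resolve_left p2.ne'
    · exact (mul_eq_zero.1 h8).resolve_left p2.ne'
    · exact (mul_eq_zero.1 h6).resolve_left p1.ne'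
    · exact (mul_eq_zero.1 h5).resolve_left p1.ne'

end Pool.Agent.Lib.MP_6a9e1f_gt
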